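import Pool.Agent.helper7.UG.Folner

set_option autoImplicit false

/-!
# Definitions for the nonamenability of the universal group

`F4`, `act`, `Wr`, `Psi`, `homω`, `NL`, `HasFolner` come from `Pool.Agent.helper7.UG`.
The sections of `w : F4` are `(Psi w).left e y` (`e : Bool`, `y : Fin 3`), its parity is
`(Psi w).right : Equiv.Perm Bool`. Sections are read at the target:
`(g * h).left e y = g.left e y * h.left (g.right⁻¹ e) y`.
-/

namespace Pool.Agent.helper10.NA

open Pool.Agent.helper7.UG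

/-- The tail of a sequence of sets of letters. -/
def tl (τ : ℕ → Finset (Fin 3)) : ℕ → Finset (Fin 3) := fun n => τ (n + 1)

/-- The sequences which follow `τ`. -/
def Lam (τ : ℕ → Finset (Fin 3)) : Set (ℕ → Fin 3) := {ω | ∀ n, ω n ∈ τ n}

/-- The kernel of `F4 → Z/2 * V`. -/
def K0 : Subgroup F4 :=
  Subgroup.normalClosure
    ({g | ∃ i : Fin 4, g = FreeGroup.of i * FreeGroup.of i} ∪
      {FreeGroup.of 1 * FreeGroup.of 2 * FreeGroup.of 3})

/-- Elements of the wreath product with trivial parity and with all sections at the letters of `S`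
in `K`. -/
def Kx (S : Finset (Fin 3)) (K : Subgroup F4) : Subgroup Wr where
  carrier := {g | g.right = 1 ∧ ∀ e, ∀ y ∈ S, g.left e y ∈ K}
  one_mem' := ⟨rfl, fun _ _ _ => K.one_mem⟩
  mul_mem' := by
    rintro g h ⟨hg, hg'⟩ ⟨hh, hh'⟩
    refine ⟨by rw [mul_right_apply, hg, hh, mul_one], fun e y hy => ?_⟩
    rw [mul_left_apply]
    exact K.mul_mem (hg' _ _ hy) (hh' _ _ hy)
  inv_mem' := by
    rintro g ⟨hg, hg'⟩
    refine ⟨by rw [SemidirectProduct.inv_right, hg, inv_one], fun e y hy => ?_⟩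
    have h1 := mul_left_apply g⁻¹ g e y
    rw [inv_mul_cancel] at h1
    have h2 : g⁻¹.left e y = (g.left (g⁻¹.right⁻¹ e) y)⁻¹ := eq_inv_of_mul_eq_one_left h1.symm
    rw [h2]
    exact K.inv_mem (hg' _ _ hy)

theorem mem_Kx {S : Finset (Fin 3)} {K : Subgroup F4} {g : Wr} :
    g ∈ Kx S K ↔ g.right = 1 ∧ ∀ e, ∀ y ∈ S, g.left e y ∈ K := Iff.rfl

/-- The approximations of the kernel: `KK n τ` consists of the words all of whose sections of
level `n` along `τ` are trivial in `Z/2 * V` (and whose parities at the previous levels are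
trivial). -/
def KK : ℕ → (ℕ → Finset (Fin 3)) → Subgroup F4
  | 0, _ => K0
  | n + 1, τ => (Kx (τ 0) (KK n (tl τ))).comap Psi

theorem KK_zero (τ : ℕ → Finset (Fin 3)) : KK 0 τ = K0 := rfl

theorem KK_succ (n : ℕ) (τ : ℕ → Finset (Fin 3)) :
    KK (n + 1) τ = (Kx (τ 0) (KK n (tl τ))).comap Psi := rfl

/-- Weights of the generators in the energy. -/
noncomputable def wt (i : Fin 4) : ℝ := if i = 0 then 1 / 4 else 1 / 8

/-- The square of the `ℓ²` norm. -/
noncomputable def sq {P : Type} (f : P → ℝ) : ℝ := ∑' x, f x ^ 2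

/-- The energy of a function with respect to four maps. -/
noncomputable def En {P : Type} (s : Fin 4 → P → P) (f : P → ℝ) : ℝ :=
  ∑ i, wt i * ∑' x, (f (s i x) - f x) ^ 2

/-- Left multiplication by the generators on the cosets of a subgroup. -/
def lm (K : Subgroup F4) (i : Fin 4) (x : F4 ⧸ K) : F4 ⧸ K := FreeGroup.of i • x

/-- `r` is a lower bound for the energy. -/
def Gap (K : Subgroup F4) (r : ℝ) : Prop :=
  ∀ f : F4 ⧸ K → ℝ, f.support.Finite → r * sq f ≤ En (lm K) f

/-- The bottom of the energy. -/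
noncomputable def en (K : Subgroup F4) : ℝ :=
  sInf {t | ∃ f : F4 ⧸ K → ℝ, f.support.Finite ∧ sq f = 1 ∧ En (lm K) f = t}

end Pool.Agent.helper10.NA
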