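import Pool.Agent.helper10.NA.Defs

set_option autoImplicit false

/-!
# The pre-Hilbert space of finitely supported functions
-/

namespace Pool.Agent.helper10.NA

/-- Finitely supported real functions. -/
def FS (P : Type) : Type := P →₀ ℝ

namespace FS

variable {P P' : Type}

noncomputable instance : AddCommGroup (FS P) := inferInstanceAs (AddCommGroup (P →₀ ℝ))

noncomputable instance : Module ℝ (FS P) := inferInstanceAs (Module ℝ (P →₀ ℝ))

/-- The underlying function. -/
def fn (x : FS P) : P → ℝ := fun p => (show P →₀ ℝ from x) p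

/-- A function with finite support. -/
noncomputable def mk (f : P → ℝ) (hf : f.support.Finite) : FS P := Finsupp.ofSupportFinite f hf

theorem fn_mk (f : P → ℝ) (hf : f.support.Finite) : (mk f hf).fn = f := rfl

theorem fn_finite (x : FS P) : x.fn.support.Finite := Finsupp.hasFiniteSupport (show P →₀ ℝ from x)

theorem ext {x y : FS P} (h : ∀ p, x.fn p = y.fn p) : x = y := Finsupp.ext h

theorem fn_add (x y : FS P) (p : P) : (x + y).fn p = x.fn p + y.fn p := rfl

theorem fn_sub (x y : FS P) (p : P) : (x - y).fn p = x.fn p - y.fn p := rfl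

theorem fn_smul (c : ℝ) (x : FS P) (p : P) : (c • x).fn p = c * x.fn p := rfl

theorem fn_zero (p : P) : (0 : FS P).fn p = 0 := rfl

theorem summable_mul (x y : FS P) : Summable fun p => x.fn p * y.fn p := by
  refine summable_of_hasFiniteSupport (x.fn_finite.subset ?_)
  intro p hp
  exact left_ne_zero_of_mul hp

/-- The inner product. -/
@[instance_reducible]
noncomputable def core : InnerProductSpace.Core ℝ (FS P) where
  inner x y := ∑' p, x.fn p * y.fn p
  conj_inner_symm x y := by
    show ∑' p, y.fn p * x.fn p = ∑' p, x.fn p * y.fn p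
    exact tsum_congr fun p => mul_comm _ _
  re_inner_nonneg x := by
    show 0 ≤ ∑' p, x.fn p * x.fn p
    exact tsum_nonneg fun p => mul_self_nonneg _
  add_left x y z := by
    show ∑' p, (x + y).fn p * z.fn p = ∑' p, x.fn p * z.fn p + ∑' p, y.fn p * z.fn p
    rw [← (summable_mul x z).tsum_add (summable_mul y z)]
    exact tsum_congr fun p => by rw [fn_add, add_mul]
  smul_left x y r := by
    show ∑' p, (r • x).fn p * y.fn p = r * ∑' p, x.fn p * y.fn p
    rw [← tsum_mul_left]
    exact tsum_congr fun p => by rw [fn_smul, mul_assoc]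
  definite x hx := by
    have h1 : ∑' p, x.fn p * x.fn p = 0 := hx
    have h2 := (hasSum_zero_iff_of_nonneg (f := fun p => x.fn p * x.fn p)
      (fun p => mul_self_nonneg _)).1 (by rw [← h1]; exact (summable_mul x x).hasSum)
    refine ext fun p => ?_
    exact mul_self_eq_zero.1 (congrFun h2 p)

noncomputable instance : NormedAddCommGroup (FS P) := (core (P := P)).toNormedAddCommGroup

noncomputable instance : InnerProductSpace ℝ (FS P) := InnerProductSpace.ofCore core.toCore

theorem inner_def (x y : FS P) : inner ℝ x y = ∑' p, x.fn p * y.fn p := rfl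

theorem norm_sq (x : FS P) : ‖x‖ ^ 2 = sq x.fn := by
  rw [← real_inner_self_eq_norm_sq, inner_def]
  exact tsum_congr fun p => (pow_two _).symm

/-- Extension by zero along an injective map. -/
noncomputable def embF (ι : P → P') (hι : Function.Injective ι) (x : FS P) : FS P' :=
  Finsupp.embDomain ⟨ι, hι⟩ (show P →₀ ℝ from x)

theorem embF_apply (ι : P → P') (hι : Function.Injective ι) (x : FS P) (q : P) :
    (embF ι hι x).fn (ι q) = x.fn q :=
  Finsupp.embDomain_apply_self (⟨ι, hι⟩ : P ↪ P') (show P →₀ ℝ from x) q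

theorem embF_notin (ι : P → P') (hι : Function.Injective ι) (x : FS P) (p : P')
    (hp : p ∉ Set.range ι) : (embF ι hι x).fn p = 0 :=
  Finsupp.embDomain_of_notMem_range (⟨ι, hι⟩ : P ↪ P') (show P →₀ ℝ from x) p hp

/-- An injective map of the index sets gives an isometry. -/
noncomputable def emb (ι : P → P') (hι : Function.Injective ι) : FS P →ₗᵢ[ℝ] FS P' where
  toFun := embF ι hι
  map_add' x y := by
    refine ext fun p => ?_
    rw [fn_add]
    by_cases hp : p ∈ Set.range ι
    · obtain ⟨q, rfl⟩ := hp
      rw [embF_apply, embF_apply, embF_apply, fn_add]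
    · rw [embF_notin _ _ _ _ hp, embF_notin _ _ _ _ hp, embF_notin _ _ _ _ hp, add_zero]
  map_smul' c x := by
    refine ext fun p => ?_
    show (embF ι hι (c • x)).fn p = c * (embF ι hι x).fn p
    by_cases hp : p ∈ Set.range ι
    · obtain ⟨q, rfl⟩ := hp
      rw [embF_apply, embF_apply, fn_smul]
    · rw [embF_notin _ _ _ _ hp, embF_notin _ _ _ _ hp, mul_zero]
  norm_map' x := by
    show ‖embF ι hι x‖ = ‖x‖
    rw [← sq_eq_sq₀ (norm_nonneg _) (norm_nonneg _), norm_sq, norm_sq, sq, sq, ← hι.tsum_eq]
    · exact tsum_congr fun p => by rw [embF_apply]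
    · intro p' hp'
      by_contra h
      rw [Function.mem_support, embF_notin _ _ _ _ h] at hp'
      exact hp' (by norm_num)

theorem emb_apply (ι : P → P') (hι : Function.Injective ι) (x : FS P) (q : P) :
    (emb ι hι x).fn (ι q) = x.fn q := embF_apply ι hι x q

theorem emb_notin (ι : P → P') (hι : Function.Injective ι) (x : FS P) (p : P')
    (hp : p ∉ Set.range ι) : (emb ι hι x).fn p = 0 := embF_notin ι hι x p hp

/-- Permutations act by isometries. -/
noncomputable def perm (s : Equiv.Perm P) : FS P ≃ₗᵢ[ℝ] FS P :=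
  { Finsupp.domLCongr (R := ℝ) (M := ℝ) s with
    norm_map' := fun x => by
      have h0 : ∀ y : FS P, 0 ≤ ‖y‖ := fun y => norm_nonneg y
      rw [← sq_eq_sq₀ (norm_nonneg _) (norm_nonneg _), norm_sq, norm_sq]
      show ∑' p, x.fn (s.symm p) ^ 2 = ∑' p, x.fn p ^ 2
      exact s.symm.tsum_eq fun p => x.fn p ^ 2 }

theorem perm_apply (s : Equiv.Perm P) (x : FS P) (p : P) : (perm s x).fn p = x.fn (s⁻¹ p) := rfl

/-- The action of the permutations. -/
noncomputable def act (P : Type) : Equiv.Perm P →* (FS P ≃ₗᵢ[ℝ] FS P) where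
  toFun := perm
  map_one' := by
    ext x
    exact ext fun p => rfl
  map_mul' s t := by
    ext x
    refine ext fun p => ?_
    show x.fn ((s * t)⁻¹ p) = x.fn (t⁻¹ (s⁻¹ p))
    rw [mul_inv_rev]
    rfl

theorem act_apply (s : Equiv.Perm P) (x : FS P) (p : P) : (act P s x).fn p = x.fn (s⁻¹ p) := rfl

/-- The displacement in terms of functions. -/
theorem norm_act_sub (s : Equiv.Perm P) (x : FS P) :
    ‖act P s x - x‖ ^ 2 = ∑' p, (x.fn (s p) - x.fn p) ^ 2 := by
  rw [norm_sq, sq, ← s.tsum_eq]
  refine tsum_congr fun p => ?_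
  rw [fn_sub, act_apply]
  have h : s⁻¹ (s p) = p := s.symm_apply_apply p
  rw [h]
  ring

end FS

end Pool.Agent.helper10.NA
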