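import Pool.Agent.helper10.NA.Level2

set_option autoImplicit false

/-!
# The universal group is not amenable
-/

namespace Pool.Agent.helper10.NA

open Pool.Agent.helper7.UG Filter Topology
open Iface (Forced)

/-- The shifted sequence. -/
def sh (k : ℕ) (τ : ℕ → Finset (Fin 3)) : ℕ → Finset (Fin 3) := fun n => τ (n + k)

theorem tl_sh (k : ℕ) (τ : ℕ → Finset (Fin 3)) : tl (sh k τ) = sh (k + 1) τ := by
  funext n
  show τ (n + 1 + k) = τ (n + (k + 1))
  congr 1
  omega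

theorem forced_sh {τ : ℕ → Finset (Fin 3)} (h : Forced τ) (k : ℕ) : Forced (sh k τ) := by
  induction k with
  | zero => exact h
  | succ k ih =>
    rw [← tl_sh]
    exact forced_tl ih

theorem en_KK_pos (n : ℕ) : ∀ τ : ℕ → Finset (Fin 3), (∀ n, (τ n).Nonempty) →
    0 < en (KK n τ) := by
  induction n with
  | zero => exact fun τ _ => Iface.en_K0_pos
  | succ n ih =>
    intro τ hτ
    obtain ⟨y, hy⟩ := hτ 0
    have h1 := ih (tl τ) fun n => hτ (n + 1)
    have h2 := Iface.en_crude (τ 0) (KK n (tl τ)) y hy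
    rw [KK_succ]
    linarith

theorem en_KK_antitone (τ : ℕ → Finset (Fin 3)) : Antitone fun n => en (KK n τ) :=
  antitone_nat_of_succ_le fun n => Iface.en_anti (Iface.KK_le_succ n τ)

theorem en_KK_tendsto (τ : ℕ → Finset (Fin 3)) (hF : Forced τ)
    (h : HasFolner (F4 ⧸ NL (Set.univ : Set (ℕ → Fin 3)))) :
    Tendsto (fun n => en (KK n τ)) atTop (𝓝 0) := by
  have h1 : en (NL (Lam τ)) ≤ 0 := by
    refine (Iface.en_anti ?_).trans (Iface.en_of_folner _ h)
    intro g hg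
    rw [mem_NL] at hg ⊢
    exact fun ω _ => hg ω (Set.mem_univ ω)
  have h2 : ∀ δ : ℝ, 0 < δ → ∃ n, en (KK n τ) < δ := by
    intro δ hδ
    obtain ⟨n, hn⟩ := Iface.en_limit (NL (Lam τ)) (fun n => KK n τ)
      (fun n => Iface.KK_le_succ n τ) (fun w =>
        ⟨fun hw => Iface.exists_mem_KK τ hF.1 (forced_act hF) w hw,
          fun ⟨n, hn⟩ => Iface.KK_le_NL n τ hn⟩) δ hδ
    exact ⟨n, by linarith⟩
  rw [Metric.tendsto_atTop]
  intro δ hδ
  obtain ⟨m, hm⟩ := h2 δ hδ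
  refine ⟨m, fun n hn => ?_⟩
  rw [Real.dist_eq, sub_zero, abs_of_nonneg (Iface.en_nonneg _)]
  exact (en_KK_antitone τ hn).trans_lt hm

theorem tendsto_sh (τ : ℕ → Finset (Fin 3)) (hF : Forced τ)
    (h : Tendsto (fun n => en (KK n τ)) atTop (𝓝 0)) (k : ℕ) :
    Tendsto (fun n => en (KK n (sh k τ))) atTop (𝓝 0) := by
  induction k with
  | zero => exact h
  | succ k ih =>
    obtain ⟨y, hy⟩ := (forced_sh hF k).1 0
    have h1 : ∀ n, en (KK n (sh (k + 1) τ)) ≤ 12 * en (KK (n + 1) (sh k τ)) := by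
      intro n
      rw [← tl_sh, KK_succ]
      exact Iface.en_crude _ _ y hy
    have h2 : Tendsto (fun n => 12 * en (KK (n + 1) (sh k τ))) atTop (𝓝 0) := by
      have := (ih.comp (tendsto_add_atTop_nat 1)).const_mul 12
      simpa using this
    exact squeeze_zero (fun n => Iface.en_nonneg _) h1 h2

/-- The periodic pattern. -/
def pat (n : ℕ) : Finset (Fin 3) :=
  if n % 9 < 6 then Finset.univ else if n % 9 = 6 then {0} else if n % 9 = 7 then {1} else {2}

theorem pat_forced : Forced pat := by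
  refine ⟨fun n => ?_, fun y m => ?_⟩
  · unfold pat
    split_ifs
    · exact Finset.univ_nonempty
    · exact Finset.singleton_nonempty _
    · exact Finset.singleton_nonempty _
    · exact Finset.singleton_nonempty _
  · refine ⟨9 * m + 6 + y, by omega, ?_⟩
    have h1 : (9 * m + 6 + (y : ℕ)) % 9 = 6 + y := by
      have := y.2
      omega
    unfold pat
    rw [h1]
    fin_cases y <;> simp

theorem sh_pat : sh 9 pat = pat := by
  funext n
  show pat (n + 9) = pat n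
  unfold pat
  rw [Nat.add_mod_right]

theorem result' : ¬ HasFolner (F4 ⧸ NL (Set.univ : Set (ℕ → Fin 3))) := by
  intro h
  have hF := pat_forced
  have hlim := fun k => tendsto_sh pat hF (en_KK_tendsto pat hF h) k
  have hpos : ∀ k n, 0 < en (KK n (sh k pat)) := fun k n => en_KK_pos n _ (forced_sh hF k).1
  have hlev : ∀ (k : ℕ) (c : ℝ), 2 < c * (pat k).card →
      ∀ᶠ n in atTop, en (KK n (sh (k + 1) pat)) ≤ c * en (KK (n + 1) (sh k pat)) := by
    intro k c hc
    rw [← tl_sh]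
    refine level_ineq (sh k pat) (forced_sh hF k) c ?_ (fun n => hpos k (n + 1))
      ((hlim k).comp (tendsto_add_atTop_nat 1))
    show 2 < c * ((pat (0 + k)).card : ℝ)
    rwa [zero_add]
  have hcard : ∀ k, k < 6 → (pat k).card = 3 := by
    intro k hk
    unfold pat
    rw [if_pos (by omega)]
    rfl
  have hcard1 : ∀ k, 6 ≤ k → k < 9 → (pat k).card = 1 := by
    intro k hk hk'
    unfold pat
    rw [if_neg (by omega)]
    split_ifs <;> rfl
  have e : ∀ k, k < 6 → ∀ᶠ n in atTop,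
      en (KK n (sh (k + 1) pat)) ≤ 0.68 * en (KK (n + 1) (sh k pat)) := by
    intro k hk
    refine hlev k 0.68 ?_
    rw [hcard k hk]
    norm_num
  have e' : ∀ k, 6 ≤ k → k < 9 → ∀ᶠ n in atTop,
      en (KK n (sh (k + 1) pat)) ≤ 2.01 * en (KK (n + 1) (sh k pat)) := by
    intro k hk hk'
    refine hlev k 2.01 ?_
    rw [hcard1 k hk hk']
    norm_num
  have s := fun j => tendsto_add_atTop_nat j
  have hall : ∀ᶠ n in atTop,
      en (KK (n + 8) (sh 1 pat)) ≤ 0.68 * en (KK (n + 9) (sh 0 pat)) ∧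
      en (KK (n + 7) (sh 2 pat)) ≤ 0.68 * en (KK (n + 8) (sh 1 pat)) ∧
      en (KK (n + 6) (sh 3 pat)) ≤ 0.68 * en (KK (n + 7) (sh 2 pat)) ∧
      en (KK (n + 5) (sh 4 pat)) ≤ 0.68 * en (KK (n + 6) (sh 3 pat)) ∧
      en (KK (n + 4) (sh 5 pat)) ≤ 0.68 * en (KK (n + 5) (sh 4 pat)) ∧
      en (KK (n + 3) (sh 6 pat)) ≤ 0.68 * en (KK (n + 4) (sh 5 pat)) ∧
      en (KK (n + 2) (sh 7 pat)) ≤ 2.01 * en (KK (n + 3) (sh 6 pat)) ∧
      en (KK (n + 1) (sh 8 pat)) ≤ 2.01 * en (KK (n + 2) (sh 7 pat)) ∧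
      en (KK n (sh 9 pat)) ≤ 2.01 * en (KK (n + 1) (sh 8 pat)) := by
    filter_upwards [(s 8).eventually (e 0 (by norm_num)), (s 7).eventually (e 1 (by norm_num)),
      (s 6).eventually (e 2 (by norm_num)), (s 5).eventually (e 3 (by norm_num)),
      (s 4).eventually (e 4 (by norm_num)), (s 3).eventually (e 5 (by norm_num)),
      (s 2).eventually (e' 6 (by norm_num) (by norm_num)),
      (s 1).eventually (e' 7 (by norm_num) (by norm_num)),
      e' 8 (by norm_num) (by norm_num)] with n h0 h1 h2 h3 h4 h5 h6 h7 h8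
    exact ⟨h0, h1, h2, h3, h4, h5, h6, h7, h8⟩
  obtain ⟨n, h0, h1, h2, h3, h4, h5, h6, h7, h8⟩ := hall.exists
  rw [sh_pat] at h8
  have h9 : en (KK (n + 9) (sh 0 pat)) ≤ en (KK n pat) :=
    en_KK_antitone pat (Nat.le_add_right n 9)
  have h10 : 0 < en (KK n pat) := hpos 0 n
  have h11 : en (KK (n + 8) (sh 1 pat)) ≤ 0.68 * en (KK n pat) := by linarith
  have h12 : en (KK (n + 7) (sh 2 pat)) ≤ 0.68 ^ 2 * en (KK n pat) := by linarith
  have h13 : en (KK (n + 6) (sh 3 pat)) ≤ 0.68 ^ 3 * en (KK n pat) := by linarith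
  have h14 : en (KK (n + 5) (sh 4 pat)) ≤ 0.68 ^ 4 * en (KK n pat) := by linarith
  have h15 : en (KK (n + 4) (sh 5 pat)) ≤ 0.68 ^ 5 * en (KK n pat) := by linarith
  have h16 : en (KK (n + 3) (sh 6 pat)) ≤ 0.68 ^ 6 * en (KK n pat) := by linarith
  have h17 : en (KK (n + 2) (sh 7 pat)) ≤ 2.01 * 0.68 ^ 6 * en (KK n pat) := by linarith
  have h18 : en (KK (n + 1) (sh 8 pat)) ≤ 2.01 ^ 2 * 0.68 ^ 6 * en (KK n pat) := by linarith
  have h19 : en (KK n pat) ≤ 2.01 ^ 3 * 0.68 ^ 6 * en (KK n pat) := by linarith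
  have h20 : (2.01 : ℝ) ^ 3 * 0.68 ^ 6 < 1 := by norm_num
  have h21 := mul_lt_mul_of_pos_right h20 h10
  linarith

end Pool.Agent.helper10.NA
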