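import Mathlib

set_option autoImplicit false

/-!
# Fixed vectors of isometries and closed convex sets
-/

namespace Pool.Agent.helper10.NA

open Submodule

/-- A closed convex set contains a point fixed by all the contractions which preserve it and fix
the origin. -/
theorem min_fixed {L : Type} [NormedAddCommGroup L] [InnerProductSpace ℝ L] [CompleteSpace L]
    (C : Set L) (hC : IsClosed C) (hconv : Convex ℝ C) (hne : C.Nonempty) (TT : Set (L → L))
    (h1 : ∀ T ∈ TT, ∀ x ∈ C, T x ∈ C) (h2 : ∀ T ∈ TT, ∀ x, ‖T x‖ ≤ ‖x‖) :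
    ∃ u ∈ C, ∀ T ∈ TT, T u = u := by
  obtain ⟨u, hu, hmin⟩ := exists_norm_eq_iInf_of_complete_convex hne hC.isComplete hconv 0
  have hle : ∀ w ∈ C, ‖u‖ ≤ ‖w‖ := by
    intro w hw
    have h3 : (⨅ w : C, ‖(0 : L) - w‖) ≤ ‖(0 : L) - w‖ :=
      ciInf_le ⟨0, Set.forall_mem_range.2 fun _ => norm_nonneg _⟩ (⟨w, hw⟩ : C)
    rw [← hmin] at h3
    simpa using h3
  refine ⟨u, hu, fun T hT => ?_⟩
  have h4 : T u ∈ C := h1 T hT u hu
  have h5 : ‖T u‖ ≤ ‖u‖ := h2 T hT u
  have h6 : (1 / 2 : ℝ) • u + (1 / 2 : ℝ) • T u ∈ C :=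
    hconv hu h4 (by norm_num) (by norm_num) (by norm_num)
  have h7 := hle _ h6
  have h8 : (1 / 2 : ℝ) • u + (1 / 2 : ℝ) • T u = (1 / 2 : ℝ) • (u + T u) := by
    rw [smul_add]
  rw [h8, norm_smul, Real.norm_of_nonneg (by norm_num : (0 : ℝ) ≤ 1 / 2)] at h7
  have h9 := parallelogram_law_with_norm ℝ u (T u)
  have h10 : ‖u - T u‖ ^ 2 ≤ 0 := by
    have h11 : (2 * ‖u‖) ^ 2 ≤ ‖u + T u‖ ^ 2 :=
      pow_le_pow_left₀ (by positivity) (by linarith) 2
    have h12 : ‖T u‖ ^ 2 ≤ ‖u‖ ^ 2 := pow_le_pow_left₀ (norm_nonneg _) h5 2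
    nlinarith
  have h13 : ‖u - T u‖ = 0 := by
    have := sq_nonneg ‖u - T u‖
    exact pow_eq_zero_iff (two_ne_zero) |>.1 (le_antisymm h10 this)
  exact (sub_eq_zero.1 (norm_eq_zero.1 h13)).symm

variable {K : Type} [NormedAddCommGroup K] [InnerProductSpace ℝ K]

/-- The vectors fixed by a set of isometries. -/
def fixS (TT : Set (K ≃ₗᵢ[ℝ] K)) : Submodule ℝ K where
  carrier := {v | ∀ T ∈ TT, T v = v}
  add_mem' := by
    intro u v hu hv T hT
    rw [map_add, hu T hT, hv T hT]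
  zero_mem' := fun T _ => map_zero T
  smul_mem' := by
    intro c v hv T hT
    rw [map_smul, hv T hT]

theorem mem_fixS {TT : Set (K ≃ₗᵢ[ℝ] K)} {v : K} : v ∈ fixS TT ↔ ∀ T ∈ TT, T v = v := Iff.rfl

theorem isClosed_fixS (TT : Set (K ≃ₗᵢ[ℝ] K)) : IsClosed (fixS TT : Set K) := by
  have : (fixS TT : Set K) = ⋂ T ∈ TT, {v | T v = v} := by
    ext v
    simp [mem_fixS]
  rw [this]
  exact isClosed_biInter fun T _ => isClosed_eq T.continuous continuous_id

theorem fixS_orthogonal_inv {TT : Set (K ≃ₗᵢ[ℝ] K)} {T : K ≃ₗᵢ[ℝ] K} (hT : T ∈ TT) {v : K}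
    (hv : v ∈ (fixS TT)ᗮ) : T v ∈ (fixS TT)ᗮ := by
  rw [mem_orthogonal] at hv ⊢
  intro f hf
  have h1 : T f = f := hf T hT
  rw [← h1, T.inner_map_map]
  exact hv f hf

variable [CompleteSpace K]

instance fixS_complete (TT : Set (K ≃ₗᵢ[ℝ] K)) : CompleteSpace (fixS TT) :=
  (isClosed_fixS TT).completeSpace_coe

/-- Alaoglu–Birkhoff for tuples: a closed convex set of tuples which is invariant under the
diagonal action contains the projections of its elements to the fixed vectors. -/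
theorem erg_tuple {ι : Type} [Fintype ι] (TT : Set (K ≃ₗᵢ[ℝ] K)) (C : Set (PiLp 2 fun _ : ι => K))
    (hC : IsClosed C) (hconv : Convex ℝ C)
    (h1 : ∀ T ∈ TT, ∀ x ∈ C, WithLp.toLp 2 (fun i => T (x i)) ∈ C)
    (d : PiLp 2 fun _ : ι => K) (hd : d ∈ C) :
    WithLp.toLp 2 (fun i => (fixS TT).starProjection (d i)) ∈ C := by
  set F : Submodule ℝ K := fixS TT with hF
  set C' : Set (PiLp 2 fun _ : ι => K) :=
    {v | v ∈ C ∧ ∀ i, v i - F.starProjection (d i) ∈ Fᗮ} with hC'
  have hcl : IsClosed C' := by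
    have : C' = C ∩ ⋂ i, {v | v i - F.starProjection (d i) ∈ Fᗮ} := by
      ext v
      simp [hC']
    rw [this]
    refine hC.inter (isClosed_iInter fun i => ?_)
    exact F.isClosed_orthogonal.preimage (((PiLp.continuous_apply 2 _ i)).sub continuous_const)
  have hcv : Convex ℝ C' := by
    rintro x ⟨hx, hx'⟩ y ⟨hy, hy'⟩ s t hs ht hst
    refine ⟨hconv hx hy hs ht hst, fun i => ?_⟩
    have h3 : (s • x + t • y) i - F.starProjection (d i) =
        s • (x i - F.starProjection (d i)) + t • (y i - F.starProjection (d i)) := by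
      have : F.starProjection (d i) = s • F.starProjection (d i) + t • F.starProjection (d i) := by
        rw [← add_smul, hst, one_smul]
      rw [smul_sub, smul_sub]
      nth_rewrite 1 [this]
      simp only [PiLp.add_apply, PiLp.smul_apply]
      abel
    rw [h3]
    exact Fᗮ.add_mem (Fᗮ.smul_mem _ (hx' i)) (Fᗮ.smul_mem _ (hy' i))
  obtain ⟨u, ⟨hu, hu'⟩, hfix⟩ := min_fixed C' hcl hcv ⟨d, hd, fun i => by
      exact F.sub_starProjection_mem_orthogonal (d i)⟩
    ((fun T : K ≃ₗᵢ[ℝ] K => fun x : PiLp 2 (fun _ : ι => K) => WithLp.toLp 2 (fun i => T (x i)))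
      '' TT) (by
      rintro _ ⟨T, hT, rfl⟩ x ⟨hx, hx'⟩
      refine ⟨h1 T hT x hx, fun i => ?_⟩
      have h4 : T (F.starProjection (d i)) = F.starProjection (d i) :=
        mem_fixS.1 (F.starProjection_apply_mem (d i)) T hT
      show T (x i) - F.starProjection (d i) ∈ Fᗮ
      rw [← h4, ← map_sub]
      exact fixS_orthogonal_inv hT (hx' i)) (by
      rintro _ ⟨T, hT, rfl⟩ x
      refine le_of_eq ?_
      rw [PiLp.norm_eq_of_L2, PiLp.norm_eq_of_L2]
      simp)
  have h5 : ∀ i, u i ∈ F := by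
    intro i
    rw [hF, mem_fixS]
    intro T hT
    have h6 := hfix _ ⟨T, hT, rfl⟩
    exact congrArg (fun v : PiLp 2 (fun _ : ι => K) => v i) h6
  have h6 : u = WithLp.toLp 2 (fun i => F.starProjection (d i)) := by
    ext i
    show u i = F.starProjection (d i)
    have h7 : u i - F.starProjection (d i) ∈ F := F.sub_mem (h5 i) (F.starProjection_apply_mem _)
    have h8 := F.inf_orthogonal_eq_bot ▸ (mem_inf.2 ⟨h7, hu' i⟩ : _ ∈ F ⊓ Fᗮ)
    exact sub_eq_zero.1 ((mem_bot ℝ).1 h8)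
  rw [← h6]
  exact hu

/-- Alaoglu–Birkhoff: a closed submodule preserved by the isometries is preserved by the
projection to the fixed vectors. -/
theorem erg_one (TT : Set (K ≃ₗᵢ[ℝ] K)) (C : Submodule ℝ K) (hC : IsClosed (C : Set K))
    (h1 : ∀ T ∈ TT, ∀ x ∈ C, T x ∈ C) (d : K) (hd : d ∈ C) :
    (fixS TT).starProjection d ∈ C := by
  have h2 := erg_tuple (ι := Unit) TT {v | v () ∈ C}
    (hC.preimage (PiLp.continuous_apply 2 _ ())) (by
      intro x hx y hy s t _ _ _
      show (s • x + t • y) () ∈ C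
      simp only [PiLp.add_apply, PiLp.smul_apply]
      exact C.add_mem (C.smul_mem _ hx) (C.smul_mem _ hy)) (fun T hT x hx => h1 T hT _ hx)
    (WithLp.toLp 2 fun _ => d) hd
  exact h2

/-- An isometry which preserves a closed submodule commutes with the projection. -/
theorem map_starProjection (M : Submodule ℝ K) [M.HasOrthogonalProjection] (T : K ≃ₗᵢ[ℝ] K)
    (hT : ∀ v, v ∈ M ↔ T v ∈ M) (v : K) : T (M.starProjection v) = M.starProjection (T v) := by
  refine (M.eq_starProjection_of_mem_orthogonal ((hT _).1 (M.starProjection_apply_mem v)) ?_).symm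
  rw [← map_sub, mem_orthogonal]
  intro f hf
  have h1 : T (T.symm f) = f := T.apply_symm_apply f
  rw [← h1, T.inner_map_map]
  exact (mem_orthogonal _ _).1 (M.sub_starProjection_mem_orthogonal v) _
    ((hT _).2 (by rw [h1]; exact hf))

/-- An isometry which carries one closed submodule to another intertwines the projections. -/
theorem map_starProjection' (M M' : Submodule ℝ K) [M.HasOrthogonalProjection]
    [M'.HasOrthogonalProjection] (T : K ≃ₗᵢ[ℝ] K)
    (hT : ∀ v, v ∈ M ↔ T v ∈ M') (v : K) : T (M.starProjection v) = M'.starProjection (T v) := by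
  refine (M'.eq_starProjection_of_mem_orthogonal ((hT _).1 (M.starProjection_apply_mem v)) ?_).symm
  rw [← map_sub, mem_orthogonal]
  intro f hf
  have h1 : T (T.symm f) = f := T.apply_symm_apply f
  rw [← h1, T.inner_map_map]
  exact (mem_orthogonal _ _).1 (M.sub_starProjection_mem_orthogonal v) _
    ((hT _).2 (by rw [h1]; exact hf))

end Pool.Agent.helper10.NA
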