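import Pool.Agent.helper10.NA.Defs
import Pool.Agent.helper11.NA.A
import Pool.Agent.helper22.NA.Ultra
import Pool.Agent.helper31.NA.C
import Pool.Agent.helper67.NA.E
import Pool.Agent.helper71.NA.PingPong
import Pool.Agent.helper90.NA.Torsion

set_option autoImplicit false

/-!
The modules of the team, collected under one name.
-/

namespace Pool.Agent.helper10.NA.Iface

open Pool.Agent.helper7.UG Pool.Agent.helper10.NA

/-! ### MODULE A: recursion, contraction -/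

theorem Kx_normal (S : Finset (Fin 3)) (K : Subgroup F4) (hK : K.Normal) : (Kx S K).Normal :=
  Pool.Agent.helper11.NA.Kx_normal S K hK

theorem KK_normal (n : ℕ) (τ : ℕ → Finset (Fin 3)) : (KK n τ).Normal :=
  Pool.Agent.helper11.NA.KK_normal n τ

theorem KK_le_succ (n : ℕ) (τ : ℕ → Finset (Fin 3)) : KK n τ ≤ KK (n + 1) τ :=
  Pool.Agent.helper11.NA.KK_le_succ n τ

theorem KK_le_NL (n : ℕ) (τ : ℕ → Finset (Fin 3)) : KK n τ ≤ NL (Lam τ) :=
  Pool.Agent.helper11.NA.KK_le_NL n τ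

theorem mem_NL_Lam (τ : ℕ → Finset (Fin 3)) (hne : ∀ n, (τ n).Nonempty) (w : F4) :
    w ∈ NL (Lam τ) ↔ (Psi w).right = 1 ∧ ∀ e, ∀ y ∈ τ 0, (Psi w).left e y ∈ NL (Lam (tl τ)) :=
  Pool.Agent.helper11.NA.mem_NL_Lam τ hne w

/-- Contraction: the kernel is the union of the approximations. -/
theorem exists_mem_KK (τ : ℕ → Finset (Fin 3)) (hne : ∀ n, (τ n).Nonempty)
    (hact : ∀ i : Fin 4, i ≠ 0 → ∀ m, ∃ n, m ≤ n ∧ ∃ y ∈ τ n, act i y = true)
    (w : F4) (h : w ∈ NL (Lam τ)) : ∃ n, w ∈ KK n τ :=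
  Pool.Agent.helper11.NA.exists_mem_KK τ hne hact w h

/-- Sections of even words are onto. -/
theorem exists_section (e : Bool) (y : Fin 3) (w : F4) :
    ∃ h : F4, (Psi h).right = 1 ∧ (Psi h).left e y = w :=
  Pool.Agent.helper11.NA.exists_section e y w

/-! ### MODULE B: torsion -/

/-- Every letter is forced infinitely often. -/
def Forced (τ : ℕ → Finset (Fin 3)) : Prop :=
  (∀ n, (τ n).Nonempty) ∧ ∀ y : Fin 3, ∀ m, ∃ n, m ≤ n ∧ τ n = {y}

theorem exists_pow_mem (τ : ℕ → Finset (Fin 3)) (h : Forced τ) (w : F4) :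
    ∃ k, 0 < k ∧ w ^ k ∈ NL (Lam τ) :=
  Pool.Agent.helper90.NA.exists_pow_mem τ h w

theorem derivedSeries_finiteIndex (G : Type) [Group G] [Group.FG G]
    (h : ∀ g : G, ∃ k : ℕ, 0 < k ∧ g ^ k = 1) (n : ℕ) : (derivedSeries G n).FiniteIndex :=
  Pool.Agent.helper90.NA.derivedSeries_finiteIndex G h n

/-! ### MODULE C: branching -/

/-- The preimage in `F4` of the sixth derived subgroup of `F4 ⧸ NL (Lam τ)`. -/
def BB (τ : ℕ → Finset (Fin 3)) : Subgroup F4 :=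
  (derivedSeries (F4 ⧸ NL (Lam τ)) 6).comap (QuotientGroup.mk' (NL (Lam τ)))

theorem branch (τ : ℕ → Finset (Fin 3)) (b : F4) (hb : b ∈ BB (tl τ)) (e0 : Bool) (y0 : Fin 3)
    (hy0 : y0 ∈ τ 0) :
    ∃ w : F4, (Psi w).right = 1 ∧ b⁻¹ * (Psi w).left e0 y0 ∈ NL (Lam (tl τ)) ∧
      ∀ e, ∀ y ∈ τ 0, (e, y) ≠ (e0, y0) → (Psi w).left e y ∈ NL (Lam (tl τ)) :=
  Pool.Agent.helper31.NA.branch τ b hb e0 y0 hy0

/-! ### MODULE D: energies I -/

theorem en_nonneg (K : Subgroup F4) : 0 ≤ en K := Pool.Agent.helper71.NA.en_nonneg K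

theorem gap_en (K : Subgroup F4) : Gap K (en K) := Pool.Agent.helper71.NA.gap_en K

theorem exists_near (K : Subgroup F4) (δ : ℝ) (hδ : 0 < δ) :
    ∃ f : F4 ⧸ K → ℝ, f.support.Finite ∧ sq f = 1 ∧ En (lm K) f < en K + δ :=
  Pool.Agent.helper71.NA.exists_near K δ hδ

/-- The energy decreases under quotients. -/
theorem en_anti {K K' : Subgroup F4} (h : K ≤ K') : en K' ≤ en K :=
  Pool.Agent.helper71.NA.en_anti h

theorem en_crude (S : Finset (Fin 3)) (K : Subgroup F4) (y : Fin 3) (hy : y ∈ S) :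
    en K ≤ 12 * en ((Kx S K).comap Psi) := Pool.Agent.helper71.NA.en_crude S K y hy

/-- `Z/2 * V` is not amenable. -/
theorem en_K0_pos : 0 < en K0 := Pool.Agent.helper71.NA.en_K0_pos

/-! ### MODULE E: energies II -/

theorem en_of_folner (R : Subgroup F4) [R.Normal] (h : HasFolner (F4 ⧸ R)) : en R ≤ 0 :=
  Pool.Agent.helper67.NA.en_of_folner R h

theorem en_limit (R : Subgroup F4) (K : ℕ → Subgroup F4) (hmono : ∀ n, K n ≤ K (n + 1))
    (hK : ∀ w, w ∈ R ↔ ∃ n, w ∈ K n) (δ : ℝ) (hδ : 0 < δ) : ∃ n, en (K n) < en R + δ :=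
  Pool.Agent.helper67.NA.en_limit R K hmono hK δ hδ

theorem gap_free {P : Type} [MulAction F4 P] (K : Subgroup F4)
    (hst : ∀ p : P, MulAction.stabilizer F4 p = K) (r : ℝ) (h : Gap K r) (f : P → ℝ)
    (hf : f.support.Finite) : r * sq f ≤ En (fun i p => FreeGroup.of i • p) f :=
  Pool.Agent.helper67.NA.gap_free K hst r h f hf

/-! ### MODULE F: ultraproducts of inner product spaces -/

open Filter Topology

/-- Bounded sequences. -/
def Bdd {E : ℕ → Type} [∀ n, NormedAddCommGroup (E n)] (x : ∀ n, E n) : Prop :=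
  ∃ C : ℝ, ∀ n, ‖x n‖ ≤ C

theorem exists_ultra {Γ : Type} [Group Γ] (E : ℕ → Type) [∀ n, NormedAddCommGroup (E n)]
    [∀ n, InnerProductSpace ℝ (E n)] (ρ : ∀ n, Γ →* (E n ≃ₗᵢ[ℝ] E n)) (𝒰 : Ultrafilter ℕ) :
    ∃ (H : Type) (_ : NormedAddCommGroup H) (_ : InnerProductSpace ℝ H) (_ : CompleteSpace H)
      (σ : Γ →* (H ≃ₗᵢ[ℝ] H)) (π : (∀ n, E n) → H),
      (∀ x y, Bdd x → Bdd y → π (x + y) = π x + π y) ∧
      (∀ (c : ℝ) x, Bdd x → π (c • x) = c • π x) ∧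
      (∀ x y, Bdd x → Bdd y →
        Tendsto (fun n => inner ℝ (x n) (y n)) 𝒰 (𝓝 (inner ℝ (π x) (π y)))) ∧
      (∀ g x, Bdd x → π (fun n => ρ n g (x n)) = σ g (π x)) ∧
      (∀ v : H, ∀ δ : ℝ, 0 < δ → ∃ x, Bdd x ∧ ‖π x - v‖ < δ) :=
  Pool.Agent.helper22.NA.exists_ultra E ρ 𝒰

end Pool.Agent.helper10.NA.Iface
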