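import Pool.Agent.helper10.NA.Sector3

set_option autoImplicit false
set_option linter.unusedSectionVars false

/-!
# The one-level inequality: summing over the coordinates
-/

namespace Pool.Agent.helper10.NA

open Submodule
open scoped Classical

section

variable {Γ 𝓐 𝓚 N : Type} [Group Γ] [AddCommGroup 𝓐] [NormedAddCommGroup 𝓚]
  [InnerProductSpace ℝ 𝓚] [CompleteSpace 𝓚] [Group N]

/-- The swap of the first coordinate. -/
def swp (z : Bool × Fin 3) : Bool × Fin 3 := (!z.1, z.2)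

theorem level_total (S : Sys Γ 𝓐 𝓚) (base : (Bool × Fin 3 → N) →* Γ) (B : Subgroup N)
    (hc : Coord S base B) {g : Fin 4 → Γ} {v : Fin 4 → Bool × Fin 3 → N}
    (hg : Gens S base swp g v) (s : Fin 4 → N) (Y : Finset (Fin 3))
    (hv0 : ∀ y ∈ Y, ∃ i : Fin 4, i ≠ 0 ∧ v i (false, y) = s 0)
    (hv : ∀ i, i ≠ 0 → ∀ y, v i (true, y) = s i) (ha : g 0 * g 0 = 1) (r : ℝ)
    (hgap : ∀ y ∈ Y, GapAt S (fun i => base (Pi.mulSingle (false, y) (s i))) r) :
    r / 2 * Y.card ≤ ∑ i, wt' i * ‖S.c (g i)‖ ^ 2 := by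
  have hfin : B.FiniteIndex := hc.finite
  letI : Fintype (N ⧸ B) := Subgroup.fintypeQuotientOfFiniteIndex
  have h1 : ∀ y ∈ Y, r / 2 ≤ ∑ i, wt' i * (‖Q S base B (false, y) (S.c (g i))‖ ^ 2 +
      ‖Q S base B (true, y) (S.c (g i))‖ ^ 2) := by
    intro y hy
    obtain ⟨i0, hi0, hvi0⟩ := hv0 y hy
    exact pair_energy S base B hc hg (false, y) s i0 hi0 hvi0 (fun i hi => hv i hi y) ha r
      (hgap y hy)
  have h2 : ∀ i, ∑ y ∈ Y, (‖Q S base B (false, y) (S.c (g i))‖ ^ 2 +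
      ‖Q S base B (true, y) (S.c (g i))‖ ^ 2) ≤ ‖S.c (g i)‖ ^ 2 := by
    intro i
    refine le_trans ?_ (bessel S base B (S.c (g i)) Finset.univ)
    rw [Fintype.sum_prod_type, Fintype.sum_bool, ← Finset.sum_add_distrib]
    refine (Finset.sum_le_univ_sum_of_nonneg (s := Y) fun y => ?_).trans
      (le_of_eq (Finset.sum_congr rfl fun y _ => add_comm _ _))
    positivity
  calc r / 2 * Y.card = ∑ y ∈ Y, r / 2 := by
        rw [Finset.sum_const, nsmul_eq_mul, mul_comm]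
    _ ≤ ∑ y ∈ Y, ∑ i, wt' i * (‖Q S base B (false, y) (S.c (g i))‖ ^ 2 +
        ‖Q S base B (true, y) (S.c (g i))‖ ^ 2) := Finset.sum_le_sum h1
    _ = ∑ i, wt' i * ∑ y ∈ Y, (‖Q S base B (false, y) (S.c (g i))‖ ^ 2 +
        ‖Q S base B (true, y) (S.c (g i))‖ ^ 2) := by
        rw [Finset.sum_comm]
        exact Finset.sum_congr rfl fun i _ => (Finset.mul_sum _ _ _).symm
    _ ≤ ∑ i, wt' i * ‖S.c (g i)‖ ^ 2 :=
        Finset.sum_le_sum fun i _ => mul_le_mul_of_nonneg_left (h2 i) (wt'_nonneg i)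

end

end Pool.Agent.helper10.NA
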