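import Pool.Agent.helper10.NA.Sector3

set_option autoImplicit false
set_option linter.unusedSectionVars false

/-!
# Asymptotic systems from ultraproducts
-/

namespace Pool.Agent.helper10.NA

open Filter Topology

/-- Bounded sequences. -/
def Bd {E : ℕ → Type} [∀ n, NormedAddCommGroup (E n)] (x : ∀ n, E n) : Prop :=
  ∃ C : ℝ, ∀ n, ‖x n‖ ≤ C

/-- An ultraproduct of inner product spaces with an action. -/
structure UData (Γ : Type) [Group Γ] (E : ℕ → Type) [∀ n, NormedAddCommGroup (E n)]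
    [∀ n, InnerProductSpace ℝ (E n)] (ρ : ∀ n, Γ →* (E n ≃ₗᵢ[ℝ] E n)) (𝒰 : Ultrafilter ℕ)
    (𝓚 : Type) [NormedAddCommGroup 𝓚] [InnerProductSpace ℝ 𝓚] where
  σ : Γ →* (𝓚 ≃ₗᵢ[ℝ] 𝓚)
  π : (∀ n, E n) → 𝓚
  π_add : ∀ x y, Bd x → Bd y → π (x + y) = π x + π y
  π_smul : ∀ (c : ℝ) x, Bd x → π (c • x) = c • π x
  π_inner : ∀ x y, Bd x → Bd y →
    Tendsto (fun n => inner ℝ (x n) (y n)) 𝒰 (𝓝 (inner ℝ (π x) (π y)))
  π_act : ∀ g x, Bd x → π (fun n => ρ n g (x n)) = σ g (π x)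
  π_dense : ∀ v : 𝓚, ∀ δ : ℝ, 0 < δ → ∃ x, Bd x ∧ ‖π x - v‖ < δ

section

variable {Γ : Type} [Group Γ] {E : ℕ → Type} [∀ n, NormedAddCommGroup (E n)]
  [∀ n, InnerProductSpace ℝ (E n)] {ρ : ∀ n, Γ →* (E n ≃ₗᵢ[ℝ] E n)} {𝒰 : Ultrafilter ℕ}
  {𝓚 : Type} [NormedAddCommGroup 𝓚] [InnerProductSpace ℝ 𝓚]

theorem Bd.add {x y : ∀ n, E n} (hx : Bd x) (hy : Bd y) : Bd (x + y) := by
  obtain ⟨C, hC⟩ := hx
  obtain ⟨D, hD⟩ := hy
  exact ⟨C + D, fun n => (norm_add_le _ _).trans (add_le_add (hC n) (hD n))⟩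

theorem Bd.neg {x : ∀ n, E n} (hx : Bd x) : Bd (-x) := by
  obtain ⟨C, hC⟩ := hx
  exact ⟨C, fun n => by rw [Pi.neg_apply, norm_neg]; exact hC n⟩

theorem Bd.sub {x y : ∀ n, E n} (hx : Bd x) (hy : Bd y) : Bd (x - y) := by
  rw [sub_eq_add_neg]
  exact hx.add hy.neg

theorem Bd.zero : Bd (0 : ∀ n, E n) := ⟨0, fun n => by simp⟩

theorem Bd.smul {x : ∀ n, E n} (c : ℝ) (hx : Bd x) : Bd (c • x) := by
  obtain ⟨C, hC⟩ := hx
  refine ⟨|c| * C, fun n => ?_⟩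
  rw [Pi.smul_apply, norm_smul, Real.norm_eq_abs]
  exact mul_le_mul_of_nonneg_left (hC n) (abs_nonneg c)

theorem Bd.act {x : ∀ n, E n} (g : Γ) (hx : Bd x) : Bd (fun n => ρ n g (x n)) := by
  obtain ⟨C, hC⟩ := hx
  exact ⟨C, fun n => by rw [LinearIsometryEquiv.norm_map]; exact hC n⟩

/-- A sequence which is eventually bounded is bounded. -/
theorem Bd.of_eventually {x : ∀ n, E n} {C : ℝ} (h : ∀ᶠ n in atTop, ‖x n‖ ≤ C) : Bd x := by
  obtain ⟨m, hm⟩ := eventually_atTop.1 h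
  refine ⟨|C| + ∑ n ∈ Finset.range m, ‖x n‖, fun n => ?_⟩
  have h0 : 0 ≤ ∑ n ∈ Finset.range m, ‖x n‖ := Finset.sum_nonneg fun _ _ => norm_nonneg _
  by_cases hn : m ≤ n
  · have := hm n hn
    have := le_abs_self C
    linarith
  · have h1 : ‖x n‖ ≤ ∑ n ∈ Finset.range m, ‖x n‖ :=
      Finset.single_le_sum (f := fun n => ‖x n‖) (fun _ _ => norm_nonneg _)
        (Finset.mem_range.2 (not_le.1 hn))
    have := abs_nonneg C
    linarith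

namespace UData

theorem π_zero (U : UData Γ E ρ 𝒰 𝓚) : U.π 0 = 0 := by
  have := U.π_smul 0 0 Bd.zero
  rwa [zero_smul, zero_smul] at this

theorem π_neg (U : UData Γ E ρ 𝒰 𝓚) {x : ∀ n, E n} (hx : Bd x) : U.π (-x) = -U.π x := by
  have := U.π_smul (-1) x hx
  rwa [neg_one_smul, neg_one_smul] at this

theorem π_sub (U : UData Γ E ρ 𝒰 𝓚) {x y : ∀ n, E n} (hx : Bd x) (hy : Bd y) :
    U.π (x - y) = U.π x - U.π y := by
  rw [sub_eq_add_neg, U.π_add _ _ hx hy.neg, U.π_neg hy, sub_eq_add_neg]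

theorem π_norm (U : UData Γ E ρ 𝒰 𝓚) {x : ∀ n, E n} (hx : Bd x) :
    Tendsto (fun n => ‖x n‖ ^ 2) 𝒰 (𝓝 (‖U.π x‖ ^ 2)) := by
  have h := U.π_inner x x hx hx
  simp only [real_inner_self_eq_norm_sq] at h
  exact h

theorem π_eq_zero (U : UData Γ E ρ 𝒰 𝓚) {x : ∀ n, E n} (hx : Bd x)
    (h : ∀ᶠ n in (𝒰 : Filter ℕ), x n = 0) : U.π x = 0 := by
  have h1 := U.π_norm hx
  have h2 : Tendsto (fun n => ‖x n‖ ^ 2) 𝒰 (𝓝 0) := by
    refine tendsto_const_nhds.congr' ?_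
    filter_upwards [h] with n hn
    rw [hn, norm_zero]
    norm_num
  have h3 := tendsto_nhds_unique h1 h2
  exact norm_eq_zero.1 (pow_eq_zero_iff two_ne_zero |>.1 h3)

theorem π_eq_zero' (U : UData Γ E ρ 𝒰 𝓚) {x : ∀ n, E n} (hx : Bd x)
    (h : Tendsto (fun n => ‖x n‖) 𝒰 (𝓝 0)) : U.π x = 0 := by
  have h1 := U.π_norm hx
  have h2 := h.pow 2
  have h3 := tendsto_nhds_unique h1 h2
  exact norm_eq_zero.1 (pow_eq_zero_iff two_ne_zero |>.1 (h3.trans (by norm_num)))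

theorem π_congr (U : UData Γ E ρ 𝒰 𝓚) {x y : ∀ n, E n} (hx : Bd x) (hy : Bd y)
    (h : ∀ᶠ n in (𝒰 : Filter ℕ), x n = y n) : U.π x = U.π y := by
  have h1 := U.π_eq_zero (hx.sub hy) (by
    filter_upwards [h] with n hn
    rw [Pi.sub_apply, hn, sub_self])
  rw [U.π_sub hx hy] at h1
  exact sub_eq_zero.1 h1

theorem π_sum (U : UData Γ E ρ 𝒰 𝓚) {J : Type} (F : Finset J) (x : J → ∀ n, E n)
    (hx : ∀ j, Bd (x j)) : Bd (∑ j ∈ F, x j) ∧ U.π (∑ j ∈ F, x j) = ∑ j ∈ F, U.π (x j) := by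
  classical
  induction F using Finset.induction_on with
  | empty =>
    simp only [Finset.sum_empty]
    exact ⟨Bd.zero, U.π_zero⟩
  | insert j F hj ih =>
    rw [Finset.sum_insert hj, Finset.sum_insert hj]
    refine ⟨(hx j).add ih.1, ?_⟩
    rw [U.π_add _ _ (hx j) ih.1, ih.2]

end UData

/-- The action on all sequences. -/
def seqAct (ρ : ∀ n, Γ →* (E n ≃ₗᵢ[ℝ] E n)) : Γ →* AddMonoid.End (∀ n, E n) where
  toFun g :=
    { toFun := fun x n => ρ n g (x n)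
      map_zero' := by
        funext n
        exact map_zero _
      map_add' := by
        intro x y
        funext n
        exact map_add _ _ _ }
  map_one' := by
    ext x n
    show ρ n 1 (x n) = x n
    rw [map_one]
    rfl
  map_mul' g h := by
    ext x n
    show ρ n (g * h) (x n) = ρ n g (ρ n h (x n))
    rw [map_mul]
    rfl

theorem seqAct_apply (ρ : ∀ n, Γ →* (E n ≃ₗᵢ[ℝ] E n)) (g : Γ) (x : ∀ n, E n) (n : ℕ) :
    seqAct ρ g x n = ρ n g (x n) := rfl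

/-- The sequences of size `O(ε)`. -/
def smallSeq (E : ℕ → Type) [∀ n, NormedAddCommGroup (E n)] [∀ n, InnerProductSpace ℝ (E n)]
    (ε : ℕ → ℝ) : AddSubgroup (∀ n, E n) where
  carrier := {x | Bd fun n => (ε n)⁻¹ • x n}
  zero_mem' := by
    refine ⟨0, fun n => ?_⟩
    simp
  add_mem' := by
    intro x y hx hy
    have : (fun n => (ε n)⁻¹ • (x + y) n) =
        (fun n => (ε n)⁻¹ • x n) + fun n => (ε n)⁻¹ • y n := by
      funext n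
      simp
    show Bd _
    rw [this]
    exact Bd.add hx hy
  neg_mem' := by
    intro x hx
    have : (fun n => (ε n)⁻¹ • (-x) n) = -(fun n => (ε n)⁻¹ • x n) := by
      funext n
      simp
    show Bd _
    rw [this]
    exact Bd.neg hx

theorem mem_smallSeq {ε : ℕ → ℝ} {x : ∀ n, E n} :
    x ∈ smallSeq E ε ↔ Bd fun n => (ε n)⁻¹ • x n := Iff.rfl

/-- The closed subspace of the limits of sequences in the submodules `Sub n`. -/
def limSub (U : UData Γ E ρ 𝒰 𝓚) (Sub : ∀ n, Submodule ℝ (E n)) : Submodule ℝ 𝓚 where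
  carrier := {v | ∃ x, Bd x ∧ (∀ᶠ n in (𝒰 : Filter ℕ), x n ∈ Sub n) ∧ U.π x = v}
  zero_mem' := ⟨0, Bd.zero, Eventually.of_forall fun n => (Sub n).zero_mem, U.π_zero⟩
  add_mem' := by
    rintro _ _ ⟨x, hx, hx', rfl⟩ ⟨y, hy, hy', rfl⟩
    refine ⟨x + y, hx.add hy, ?_, U.π_add _ _ hx hy⟩
    filter_upwards [hx', hy'] with n h1 h2
    exact (Sub n).add_mem h1 h2
  smul_mem' := by
    rintro c _ ⟨x, hx, hx', rfl⟩
    refine ⟨c • x, hx.smul c, ?_, U.π_smul c x hx⟩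
    filter_upwards [hx'] with n h1
    exact (Sub n).smul_mem c h1

/-- The asymptotic system of an ultraproduct. -/
noncomputable def mkSys (U : UData Γ E ρ 𝒰 𝓚) (ε : ℕ → ℝ) (Sub : ∀ n, Submodule ℝ (E n))
    (H : Subgroup Γ)
    (hH : ∀ h ∈ H, ∀ᶠ n in (𝒰 : Filter ℕ), ∀ x ∈ Sub n, ρ n h x ∈ Sub n)
    (horth : ∀ g, g ∉ H → ∀ n, ∀ x ∈ Sub n, ∀ y ∈ Sub n, inner ℝ (ρ n g x) y = 0)
    (ξ : ∀ n, E n) (hξS : ∀ n, ξ n ∈ Sub n)
    (hξH : ∀ h ∈ H, Bd fun n => (ε n)⁻¹ • (ρ n h (ξ n) - ξ n)) : Sys Γ (∀ n, E n) 𝓚 where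
  A := seqAct ρ
  ρ := U.σ
  A0 := smallSeq E ε
  A0_inv := by
    intro g x hx
    have h1 : (fun n => (ε n)⁻¹ • seqAct ρ g x n) = fun n => ρ n g ((ε n)⁻¹ • x n) := by
      funext n
      rw [seqAct_apply, map_smul]
    show Bd _
    rw [h1]
    exact Bd.act g hx
  δ := fun x => U.π fun n => (ε n)⁻¹ • x n
  δ_add := by
    intro x hx y hy
    have h1 : (fun n => (ε n)⁻¹ • (x + y) n) =
        (fun n => (ε n)⁻¹ • x n) + fun n => (ε n)⁻¹ • y n := by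
      funext n
      simp
    show U.π _ = _
    rw [h1, U.π_add _ _ hx hy]
  δ_act := by
    intro g x hx
    have h1 : (fun n => (ε n)⁻¹ • seqAct ρ g x n) = fun n => ρ n g ((ε n)⁻¹ • x n) := by
      funext n
      rw [seqAct_apply, map_smul]
    show U.π _ = _
    rw [h1, U.π_act g _ hx]
  H := H
  Hc := (limSub U Sub).topologicalClosure
  Hc_closed := (limSub U Sub).isClosed_topologicalClosure
  Hc_inv := by
    intro h hh v hv
    have h1 : ∀ v ∈ (limSub U Sub : Set 𝓚), U.σ h v ∈ (limSub U Sub : Set 𝓚) := by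
      rintro _ ⟨x, hx, hx', rfl⟩
      refine ⟨fun n => ρ n h (x n), hx.act h, ?_, U.π_act h x hx⟩
      filter_upwards [hx', hH h hh] with n h2 h3
      exact h3 _ h2
    exact map_mem_closure (U.σ h).continuous hv h1
  Hc_orth := by
    intro g hg v hv v' hv'
    have h1 : ∀ v ∈ (limSub U Sub : Set 𝓚), ∀ v' ∈ (limSub U Sub : Set 𝓚),
        inner ℝ (U.σ g v) v' = 0 := by
      rintro _ ⟨x, hx, hx', rfl⟩ _ ⟨y, hy, hy', rfl⟩
      have h2 := U.π_inner (fun n => ρ n g (x n)) y (hx.act g) hy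
      rw [U.π_act g x hx] at h2
      refine tendsto_nhds_unique h2 (tendsto_const_nhds.congr' ?_)
      filter_upwards [hx', hy'] with n h3 h4
      exact (horth g hg n _ h3 _ h4).symm
    have h2 : ∀ v ∈ closure (limSub U Sub : Set 𝓚), ∀ v' ∈ (limSub U Sub : Set 𝓚),
        inner ℝ (U.σ g v) v' = 0 := by
      intro v hv v' hv'
      have hcl : IsClosed {v : 𝓚 | inner ℝ (U.σ g v) v' = 0} :=
        isClosed_eq ((U.σ g).continuous.inner continuous_const) continuous_const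
      exact closure_minimal (fun v hv => h1 v hv v' hv') hcl hv
    have hcl : IsClosed {v' : 𝓚 | inner ℝ (U.σ g v) v' = 0} :=
      isClosed_eq (continuous_const.inner continuous_id) continuous_const
    exact closure_minimal (fun v' hv' => h2 v hv v' hv') hcl hv'
  ξ := ξ
  ξ_A0 := fun h hh => hξH h hh
  ξ_Hc := by
    intro h hh
    refine subset_closure ⟨_, hξH h hh, ?_, rfl⟩
    filter_upwards [hH h hh] with n hn
    exact (Sub n).smul_mem _ ((Sub n).sub_mem (hn _ (hξS n)) (hξS n))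

/-- The hypotheses on the approximations. -/
structure SysHyp (ρ : ∀ n, Γ →* (E n ≃ₗᵢ[ℝ] E n)) (𝒰 : Ultrafilter ℕ) (ε : ℕ → ℝ)
    (Sub : ∀ n, Submodule ℝ (E n)) (H : Subgroup Γ) (ξ : ∀ n, E n) : Prop where
  hH : ∀ h ∈ H, ∀ᶠ n in (𝒰 : Filter ℕ), ∀ x ∈ Sub n, ρ n h x ∈ Sub n
  horth : ∀ g, g ∉ H → ∀ n, ∀ x ∈ Sub n, ∀ y ∈ Sub n, inner ℝ (ρ n g x) y = 0
  hξS : ∀ n, ξ n ∈ Sub n
  hξH : ∀ h ∈ H, Bd fun n => (ε n)⁻¹ • (ρ n h (ξ n) - ξ n)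
  hε0 : ∀ n, 0 < ε n
  hεM : ∃ M, ∀ n, ε n ≤ M
  hεlim : Tendsto ε 𝒰 (𝓝 0)
  hξ1 : ∀ n, ‖ξ n‖ = 1

/-- The asymptotic system. -/
noncomputable def mkS (U : UData Γ E ρ 𝒰 𝓚) {ε : ℕ → ℝ} {Sub : ∀ n, Submodule ℝ (E n)}
    {H : Subgroup Γ} {ξ : ∀ n, E n} (hyp : SysHyp ρ 𝒰 ε Sub H ξ) : Sys Γ (∀ n, E n) 𝓚 :=
  mkSys U ε Sub H hyp.hH hyp.horth ξ hyp.hξS hyp.hξH

theorem Bd_ξ {ε : ℕ → ℝ} {Sub : ∀ n, Submodule ℝ (E n)} {H : Subgroup Γ} {ξ : ∀ n, E n}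
    (hyp : SysHyp ρ 𝒰 ε Sub H ξ) : Bd ξ := ⟨1, fun n => (hyp.hξ1 n).le⟩

theorem σ_πξ (U : UData Γ E ρ 𝒰 𝓚) {ε : ℕ → ℝ} {Sub : ∀ n, Submodule ℝ (E n)}
    {H : Subgroup Γ} {ξ : ∀ n, E n} (hyp : SysHyp ρ 𝒰 ε Sub H ξ) (h : Γ) (hh : h ∈ H) :
    U.σ h (U.π ξ) = U.π ξ := by
  have hξ := Bd_ξ hyp
  rw [← U.π_act h ξ hξ, ← sub_eq_zero, ← U.π_sub (hξ.act h) hξ]
  refine U.π_eq_zero' ((hξ.act h).sub hξ) ?_
  obtain ⟨C, hC⟩ := hyp.hξH h hh
  have h1 : ∀ n, ‖((fun n => ρ n h (ξ n)) - ξ) n‖ ≤ C * ε n := by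
    intro n
    have h2 := hC n
    rw [norm_smul, norm_inv, Real.norm_of_nonneg (hyp.hε0 n).le,
      inv_mul_le_iff₀ (hyp.hε0 n)] at h2
    rw [mul_comm]
    exact h2
  have h3 : Tendsto (fun n => C * ε n) 𝒰 (𝓝 0) := by
    simpa using hyp.hεlim.const_mul C
  exact squeeze_zero (fun n => norm_nonneg _) h1 h3

theorem norm_πξ (U : UData Γ E ρ 𝒰 𝓚) {ε : ℕ → ℝ} {Sub : ∀ n, Submodule ℝ (E n)}
    {H : Subgroup Γ} {ξ : ∀ n, E n} (hyp : SysHyp ρ 𝒰 ε Sub H ξ) : ‖U.π ξ‖ ^ 2 = 1 := by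
  have h1 := U.π_norm (Bd_ξ hyp)
  have h2 : (fun n => ‖ξ n‖ ^ 2) = fun _ => (1 : ℝ) := by
    funext n
    rw [hyp.hξ1 n]
    norm_num
  rw [h2] at h1
  exact tendsto_nhds_unique h1 tendsto_const_nhds |>.symm ▸ rfl

open scoped Classical in
theorem norm_sum_πξ (U : UData Γ E ρ 𝒰 𝓚) {ε : ℕ → ℝ} {Sub : ∀ n, Submodule ℝ (E n)}
    {H : Subgroup Γ} {ξ : ∀ n, E n} (hyp : SysHyp ρ 𝒰 ε Sub H ξ) {J : Type} [Fintype J]
    (t : J → Γ) : ‖∑ j, U.σ (t j) (U.π ξ)‖ ^ 2 = cnt2 H t := by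
  have hmem : U.π ξ ∈ (mkS U hyp).Hc :=
    subset_closure ⟨ξ, Bd_ξ hyp, Eventually.of_forall hyp.hξS, rfl⟩
  rw [← real_inner_self_eq_norm_sq, sum_inner, cnt2]
  refine Finset.sum_congr rfl fun j _ => ?_
  rw [inner_sum]
  refine Finset.sum_congr rfl fun k _ => ?_
  have h1 : inner ℝ (U.σ (t j) (U.π ξ)) (U.σ (t k) (U.π ξ)) =
      inner ℝ (U.π ξ) (U.σ ((t j)⁻¹ * t k) (U.π ξ)) := by
    have h2 : U.σ (t k) (U.π ξ) = U.σ (t j) (U.σ ((t j)⁻¹ * t k) (U.π ξ)) := by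
      have := (mkS U hyp).ρ_mul (t j) ((t j)⁻¹ * t k) (U.π ξ)
      rw [mul_inv_cancel_left] at this
      exact this
    rw [h2, LinearIsometryEquiv.inner_map_map]
  rw [h1]
  split_ifs with h
  · rw [σ_πξ U hyp _ h, real_inner_self_eq_norm_sq, norm_πξ U hyp]
  · rw [real_inner_comm]
    exact (mkS U hyp).Hc_orth _ h _ hmem _ hmem

theorem mkS_gap (U : UData Γ E ρ 𝒰 𝓚) {ε : ℕ → ℝ} {Sub : ∀ n, Submodule ℝ (E n)}
    {H : Subgroup Γ} {ξ : ∀ n, E n} (hyp : SysHyp ρ 𝒰 ε Sub H ξ) (s : Fin 4 → Γ) (r : ℝ)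
    (hgap : ∀ᶠ n in (𝒰 : Filter ℕ), ∀ x : E n,
      r * (ε n) ^ 2 * ‖x‖ ^ 2 ≤ ∑ i, wt' i * ‖ρ n (s i) x - x‖ ^ 2) :
    GapAt (mkS U hyp) s r := by
  intro J _ t hSt x
  set S := mkS U hyp with hS
  set η : ∀ n, E n := ∑ j, S.A (t j) S.ξ with hη
  have hcl : IsClosed {x : 𝓚 | r * cnt2 S.H t ≤ ∑ i, wt' i * ‖S.ρ (s i) x - x + S.D η (s i)‖ ^ 2} := by
    refine isClosed_le continuous_const (continuous_finsetSum _ fun i _ => ?_)
    refine continuous_const.mul (Continuous.pow (Continuous.norm ?_) 2)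
    exact (((S.ρ (s i)).continuous.sub continuous_id).add continuous_const)
  have hdense : Dense {v : 𝓚 | ∃ y, Bd y ∧ U.π y = v} := by
    rw [Metric.dense_iff]
    intro v δ hδ
    obtain ⟨y, hy, hy'⟩ := U.π_dense v δ hδ
    refine ⟨U.π y, ?_, y, hy, rfl⟩
    rw [Metric.mem_ball, dist_eq_norm]
    exact hy'
  have hsub : {v : 𝓚 | ∃ y, Bd y ∧ U.π y = v} ⊆
      {x : 𝓚 | r * cnt2 S.H t ≤ ∑ i, wt' i * ‖S.ρ (s i) x - x + S.D η (s i)‖ ^ 2} := by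
    rintro _ ⟨y, hy, rfl⟩
    show r * cnt2 S.H t ≤ ∑ i, wt' i * ‖S.ρ (s i) (U.π y) - U.π y + S.D η (s i)‖ ^ 2
    have hξ := Bd_ξ hyp
    have hηB : Bd η := by
      rw [hη]
      exact (U.π_sum Finset.univ (fun j => S.A (t j) S.ξ) fun j => hξ.act (t j)).1
    have hηπ : U.π η = ∑ j, U.σ (t j) (U.π ξ) := by
      rw [hη, (U.π_sum Finset.univ (fun j => S.A (t j) S.ξ) fun j => hξ.act (t j)).2]
      exact Finset.sum_congr rfl fun j _ => U.π_act (t j) ξ hξ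
    obtain ⟨M, hM⟩ := hyp.hεM
    obtain ⟨C, hC⟩ := hy
    have hεy : Bd fun n => ε n • y n := by
      refine ⟨M * C, fun n => ?_⟩
      rw [norm_smul, Real.norm_of_nonneg (hyp.hε0 n).le]
      exact mul_le_mul (hM n) (hC n) (norm_nonneg _) ((hyp.hε0 n).le.trans (hM n))
    have hεy0 : U.π (fun n => ε n • y n) = 0 := by
      refine U.π_eq_zero' hεy ?_
      have h1 : ∀ n, ‖ε n • y n‖ ≤ C * ε n := by
        intro n
        rw [norm_smul, Real.norm_of_nonneg (hyp.hε0 n).le, mul_comm]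
        exact mul_le_mul_of_nonneg_right (hC n) (hyp.hε0 n).le
      have h3 : Tendsto (fun n => C * ε n) 𝒰 (𝓝 0) := by
        simpa using hyp.hεlim.const_mul C
      exact squeeze_zero (fun n => norm_nonneg _) h1 h3
    have hyB : Bd y := ⟨C, hC⟩
    have hz := U.π_norm (hηB.add hεy)
    rw [U.π_add _ _ hηB hεy, hεy0, add_zero, hηπ, norm_sum_πξ U hyp t] at hz
    have hd : ∀ i, Bd (fun n => (ε n)⁻¹ • (seqAct ρ (s i) η - η) n) := fun i => hSt i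
    have hyd : ∀ i, Bd ((fun n => ρ n (s i) (y n)) - y) := fun i => (hyB.act (s i)).sub hyB
    have hi : ∀ i, Tendsto (fun n => ‖(((fun n => ρ n (s i) (y n)) - y) +
        (fun n => (ε n)⁻¹ • (seqAct ρ (s i) η - η) n)) n‖ ^ 2) 𝒰
        (𝓝 (‖S.ρ (s i) (U.π y) - U.π y + S.D η (s i)‖ ^ 2)) := by
      intro i
      have h1 := U.π_norm ((hyd i).add (hd i))
      rw [U.π_add _ _ (hyd i) (hd i), U.π_sub (hyB.act (s i)) hyB, U.π_act _ _ hyB] at h1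
      exact h1
    have hsum := tendsto_finsetSum (Finset.univ : Finset (Fin 4)) fun i _ =>
      (hi i).const_mul (wt' i)
    refine le_of_tendsto_of_tendsto (hz.const_mul r) hsum ?_
    filter_upwards [hgap] with n hn
    have h1 := hn (η n + ε n • y n)
    have hε := hyp.hε0 n
    have h2 : ∀ i, ‖ρ n (s i) (η n + ε n • y n) - (η n + ε n • y n)‖ ^ 2 = (ε n) ^ 2 *
        ‖(((fun n => ρ n (s i) (y n)) - y) +
          (fun n => (ε n)⁻¹ • (seqAct ρ (s i) η - η) n)) n‖ ^ 2 := by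
      intro i
      have h3 : ρ n (s i) (η n + ε n • y n) - (η n + ε n • y n) = ε n •
          ((((fun n => ρ n (s i) (y n)) - y) +
          (fun n => (ε n)⁻¹ • (seqAct ρ (s i) η - η) n)) n) := by
        simp only [Pi.add_apply, Pi.sub_apply, seqAct_apply, smul_add, smul_sub, map_add, map_smul]
        rw [smul_smul, smul_smul, mul_inv_cancel₀ hε.ne', one_smul, one_smul]
        abel
      rw [h3, norm_smul, mul_pow, Real.norm_of_nonneg hε.le]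
    simp only [h2] at h1
    have h4 : ∑ i, wt' i * ((ε n) ^ 2 * ‖(((fun n => ρ n (s i) (y n)) - y) +
          (fun n => (ε n)⁻¹ • (seqAct ρ (s i) η - η) n)) n‖ ^ 2) =
        (ε n) ^ 2 * ∑ i, wt' i * ‖(((fun n => ρ n (s i) (y n)) - y) +
          (fun n => (ε n)⁻¹ • (seqAct ρ (s i) η - η) n)) n‖ ^ 2 := by
      rw [Finset.mul_sum]
      exact Finset.sum_congr rfl fun i _ => by ring
    rw [h4] at h1
    have h5 : (0 : ℝ) < (ε n) ^ 2 := by positivity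
    have h6 : (ε n) ^ 2 * (r * ‖(η + fun n => ε n • y n) n‖ ^ 2) ≤ (ε n) ^ 2 *
        ∑ i, wt' i * ‖(((fun n => ρ n (s i) (y n)) - y) +
          (fun n => (ε n)⁻¹ • (seqAct ρ (s i) η - η) n)) n‖ ^ 2 := by
      refine le_trans (le_of_eq ?_) h1
      simp only [Pi.add_apply]
      ring
    exact le_of_mul_le_mul_left h6 h5
  exact closure_minimal hsub hcl (hdense x)

/-- The energy of the cocycle. -/
theorem mkS_energy (U : UData Γ E ρ 𝒰 𝓚) {ε : ℕ → ℝ} {Sub : ∀ n, Submodule ℝ (E n)}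
    {H : Subgroup Γ} {ξ : ∀ n, E n} (hyp : SysHyp ρ 𝒰 ε Sub H ξ) (g : Fin 4 → Γ)
    (hg : ∀ i, g i ∈ H) (hU : (𝒰 : Filter ℕ) ≤ atTop)
    (hen : ∀ n, ∑ i, wt' i * ‖ρ n (g i) (ξ n) - ξ n‖ ^ 2 ≤ (1 + 1 / ((n : ℝ) + 1)) * (ε n) ^ 2) :
    ∑ i, wt' i * ‖(mkS U hyp).c (g i)‖ ^ 2 ≤ 1 := by
  have hi : ∀ i, Tendsto (fun n => ‖(ε n)⁻¹ • (ρ n (g i) (ξ n) - ξ n)‖ ^ 2) 𝒰
      (𝓝 (‖(mkS U hyp).c (g i)‖ ^ 2)) := fun i => U.π_norm (hyp.hξH (g i) (hg i))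
  have hsum := tendsto_finsetSum (Finset.univ : Finset (Fin 4)) fun i _ => (hi i).const_mul (wt' i)
  have hlim : Tendsto (fun n : ℕ => 1 + 1 / ((n : ℝ) + 1)) 𝒰 (𝓝 (1 + 0)) :=
    (tendsto_const_nhds.add tendsto_one_div_add_atTop_nhds_zero_nat).mono_left hU
  rw [add_zero] at hlim
  refine le_of_tendsto_of_tendsto hsum hlim (Eventually.of_forall fun n => ?_)
  have h1 := hen n
  have hε := hyp.hε0 n
  have h5 : (0 : ℝ) < (ε n) ^ 2 := by positivity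
  have h2 : ∑ i, wt' i * ‖(ε n)⁻¹ • (ρ n (g i) (ξ n) - ξ n)‖ ^ 2 =
      ((ε n) ^ 2)⁻¹ * ∑ i, wt' i * ‖ρ n (g i) (ξ n) - ξ n‖ ^ 2 := by
    rw [Finset.mul_sum]
    refine Finset.sum_congr rfl fun i _ => ?_
    rw [norm_smul, mul_pow, Real.norm_of_nonneg (inv_nonneg.2 hε.le), inv_pow]
    ring
  show ∑ i, wt' i * ‖(ε n)⁻¹ • (ρ n (g i) (ξ n) - ξ n)‖ ^ 2 ≤ 1 + 1 / ((n : ℝ) + 1)
  rw [h2, inv_mul_le_iff₀ h5, mul_comm ((ε n) ^ 2)]
  exact h1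

/-- Elements which eventually act trivially are trivial in the limit. -/
theorem mkS_triv (U : UData Γ E ρ 𝒰 𝓚) {ε : ℕ → ℝ} {Sub : ∀ n, Submodule ℝ (E n)}
    {H : Subgroup Γ} {ξ : ∀ n, E n} (hyp : SysHyp ρ 𝒰 ε Sub H ξ)
    (hU : (𝒰 : Filter ℕ) ≤ atTop) (g : Γ) (hg : ∀ᶠ n in atTop, ∀ x : E n, ρ n g x = x) :
    (∀ v, (mkS U hyp).ρ g v = v) ∧ ∀ η, (mkS U hyp).A g η - η ∈ (mkS U hyp).A0 ∧
      (mkS U hyp).δ ((mkS U hyp).A g η - η) = 0 := by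
  have h0 : ∀ η : ∀ n, E n, ∀ᶠ n in atTop, (ε n)⁻¹ • (seqAct ρ g η - η) n = 0 := by
    intro η
    filter_upwards [hg] with n hn
    rw [Pi.sub_apply, seqAct_apply, hn, sub_self, smul_zero]
  have h1 : ∀ η : ∀ n, E n, Bd fun n => (ε n)⁻¹ • (seqAct ρ g η - η) n := by
    intro η
    refine Bd.of_eventually (C := 0) ?_
    filter_upwards [h0 η] with n hn
    rw [hn, norm_zero]
  refine ⟨?_, fun η => ⟨h1 η, U.π_eq_zero (h1 η) (hU (h0 η))⟩⟩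
  have hcl : IsClosed {v : 𝓚 | U.σ g v = v} := isClosed_eq (U.σ g).continuous continuous_id
  have hdense : Dense {v : 𝓚 | ∃ y, Bd y ∧ U.π y = v} := by
    rw [Metric.dense_iff]
    intro v δ hδ
    obtain ⟨y, hy, hy'⟩ := U.π_dense v δ hδ
    refine ⟨U.π y, ?_, y, hy, rfl⟩
    rw [Metric.mem_ball, dist_eq_norm]
    exact hy'
  intro v
  refine closure_minimal ?_ hcl (hdense v)
  rintro _ ⟨y, hy, rfl⟩
  show U.σ g (U.π y) = U.π y
  rw [← U.π_act g y hy]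
  refine U.π_congr (hy.act g) hy (hU ?_)
  filter_upwards [hg] with n hn
  exact hn (y n)

/-- The elements which move `ξ` by `O(ε)`. -/
def StSub (ρ : ∀ n, Γ →* (E n ≃ₗᵢ[ℝ] E n)) (ε : ℕ → ℝ) (ξ : ∀ n, E n) : Subgroup Γ where
  carrier := {g | Bd fun n => (ε n)⁻¹ • (ρ n g (ξ n) - ξ n)}
  one_mem' := by
    refine ⟨0, fun n => ?_⟩
    have : ρ n 1 (ξ n) = ξ n := by rw [map_one]; rfl
    show ‖(ε n)⁻¹ • (ρ n 1 (ξ n) - ξ n)‖ ≤ 0
    rw [this, sub_self, smul_zero, norm_zero]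
  mul_mem' := by
    intro g h hg hh
    have h1 : (fun n => (ε n)⁻¹ • (ρ n (g * h) (ξ n) - ξ n)) =
        (fun n => ρ n g ((ε n)⁻¹ • (ρ n h (ξ n) - ξ n))) +
          fun n => (ε n)⁻¹ • (ρ n g (ξ n) - ξ n) := by
      funext n
      have h2 : ρ n (g * h) (ξ n) = ρ n g (ρ n h (ξ n)) := by rw [map_mul]; rfl
      rw [Pi.add_apply, h2, map_smul, map_sub, ← smul_add]
      congr 1
      abel
    show Bd _
    rw [h1]
    exact Bd.add (Bd.act g hh) hg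
  inv_mem' := by
    intro g hg
    have h1 : (fun n => (ε n)⁻¹ • (ρ n g⁻¹ (ξ n) - ξ n)) =
        -(fun n => ρ n g⁻¹ ((ε n)⁻¹ • (ρ n g (ξ n) - ξ n))) := by
      funext n
      have h2 : ρ n g⁻¹ (ρ n g (ξ n)) = ξ n := by
        have : ρ n (g⁻¹ * g) (ξ n) = ρ n g⁻¹ (ρ n g (ξ n)) := by rw [map_mul]; rfl
        rw [← this, inv_mul_cancel, map_one]
        rfl
      rw [Pi.neg_apply, map_smul, map_sub, h2, ← smul_neg]
      congr 1
      abel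
    show Bd _
    rw [h1]
    exact Bd.neg (Bd.act g⁻¹ hg)

theorem mem_StSub {ε : ℕ → ℝ} {ξ : ∀ n, E n} {g : Γ} :
    g ∈ StSub ρ ε ξ ↔ Bd fun n => (ε n)⁻¹ • (ρ n g (ξ n) - ξ n) := Iff.rfl

end

end Pool.Agent.helper10.NA
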