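import Pool.Agent.helper10.NA.Iface
import Pool.Agent.helper10.NA.FS
import Pool.Agent.helper10.NA.UltraSys
import Pool.Agent.helper10.NA.Total

set_option autoImplicit false
set_option linter.unusedSectionVars false

/-!
# The one-level inequality for the approximations
-/

namespace Pool.Agent.helper10.NA

open Pool.Agent.helper7.UG Filter Topology
open Iface (Forced BB)

/-- The base of the wreath product. -/
def base : (Bool × Fin 3 → F4) →* Wr where
  toFun q := ⟨fun e y => q (e, y), 1⟩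
  map_one' := rfl
  map_mul' q q' := by
    refine SemidirectProduct.ext ?_ ?_
    · funext e y
      rw [mul_left_apply]
      rfl
    · rw [mul_right_apply]
      rfl

theorem base_left (q : Bool × Fin 3 → F4) (e : Bool) (y : Fin 3) : (base q).left e y = q (e, y) :=
  rfl

theorem base_right (q : Bool × Fin 3 → F4) : (base q).right = 1 := rfl

theorem wr_ext {g h : Wr} (h1 : ∀ e y, g.left e y = h.left e y) (h2 : g.right = h.right) : g = h :=
  SemidirectProduct.ext (funext fun e => funext fun y => h1 e y) h2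

section

variable (S0 : Finset (Fin 3)) (K : Subgroup F4)

/-- The quotient of the wreath product. -/
abbrev PP : Type := Wr ⧸ Kx S0 K

/-- The action on functions. -/
noncomputable def rho : Wr →* (FS (PP S0 K) ≃ₗᵢ[ℝ] FS (PP S0 K)) :=
  (FS.act (PP S0 K)).comp (MulAction.toPermHom Wr (PP S0 K))

theorem rho_apply (g : Wr) (x : FS (PP S0 K)) (p : PP S0 K) :
    (rho S0 K g x).fn p = x.fn (g⁻¹ • p) := rfl

theorem rho_disp (g : Wr) (x : FS (PP S0 K)) :
    ‖rho S0 K g x - x‖ ^ 2 = ∑' p, (x.fn (g • p) - x.fn p) ^ 2 :=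
  FS.norm_act_sub (MulAction.toPermHom Wr (PP S0 K) g) x

theorem smul_of_mem (hK : (Kx S0 K).Normal) (k : Wr) (hk : k ∈ Kx S0 K) (p : PP S0 K) :
    k • p = p := by
  obtain ⟨g, rfl⟩ := QuotientGroup.mk_surjective p
  show (QuotientGroup.mk (k * g) : PP S0 K) = QuotientGroup.mk g
  rw [QuotientGroup.eq]
  have h1 : (k * g)⁻¹ * g = g⁻¹ * k⁻¹ * g := by group
  rw [h1]
  have := hK.conj_mem _ ((Kx S0 K).inv_mem hk) g⁻¹
  simpa using this

theorem rho_of_mem (hK : (Kx S0 K).Normal) (k : Wr) (hk : k ∈ Kx S0 K) (x : FS (PP S0 K)) :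
    rho S0 K k x = x := by
  refine FS.ext fun p => ?_
  rw [rho_apply, smul_of_mem S0 K hK _ ((Kx S0 K).inv_mem hk)]

/-- The cosets of the words. -/
def iot : F4 ⧸ (Kx S0 K).comap Psi → PP S0 K :=
  Quotient.map' Psi fun a b h => by
    rw [QuotientGroup.leftRel_apply] at h ⊢
    rw [Subgroup.mem_comap, map_mul, map_inv] at h
    exact h

theorem iot_mk (w : F4) : iot S0 K (QuotientGroup.mk w) = QuotientGroup.mk (Psi w) := rfl

theorem iot_injective : Function.Injective (iot S0 K) := by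
  intro a b h
  obtain ⟨u, rfl⟩ := QuotientGroup.mk_surjective a
  obtain ⟨v, rfl⟩ := QuotientGroup.mk_surjective b
  rw [iot_mk, iot_mk, QuotientGroup.eq] at h
  rw [QuotientGroup.eq, Subgroup.mem_comap, map_mul, map_inv]
  exact h

theorem iot_smul (w : F4) (q : F4 ⧸ (Kx S0 K).comap Psi) :
    iot S0 K (w • q) = Psi w • iot S0 K q := by
  obtain ⟨u, rfl⟩ := QuotientGroup.mk_surjective q
  show (QuotientGroup.mk (Psi (w * u)) : PP S0 K) = QuotientGroup.mk (Psi w * Psi u)
  rw [map_mul]

/-- The functions supported on the cosets of the words. -/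
def SubW : Submodule ℝ (FS (PP S0 K)) where
  carrier := {x | ∀ p, p ∉ Set.range (iot S0 K) → x.fn p = 0}
  zero_mem' := fun _ _ => rfl
  add_mem' := by
    intro x y hx hy p hp
    rw [FS.fn_add, hx p hp, hy p hp, add_zero]
  smul_mem' := by
    intro c x hx p hp
    rw [FS.fn_smul, hx p hp, mul_zero]

theorem mem_SubW {x : FS (PP S0 K)} :
    x ∈ SubW S0 K ↔ ∀ p, p ∉ Set.range (iot S0 K) → x.fn p = 0 := Iff.rfl

/-- The displacement of an extended function. -/
theorem disp_emb (x : FS (F4 ⧸ (Kx S0 K).comap Psi)) (i : Fin 4) :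
    ‖rho S0 K (Psi (FreeGroup.of i)) (FS.emb (iot S0 K) (iot_injective S0 K) x) -
      FS.emb (iot S0 K) (iot_injective S0 K) x‖ ^ 2 =
      ∑' q, (x.fn (lm _ i q) - x.fn q) ^ 2 := by
  rw [rho_disp, ← (iot_injective S0 K).tsum_eq]
  · refine tsum_congr fun q => ?_
    rw [← iot_smul, FS.emb_apply, FS.emb_apply]
    rfl
  · intro p hp
    by_contra h
    have h1 : Psi (FreeGroup.of i) • p ∉ Set.range (iot S0 K) := by
      rintro ⟨q, hq⟩
      refine h ⟨(FreeGroup.of i)⁻¹ • q, ?_⟩
      rw [iot_smul, map_inv, hq, inv_smul_smul]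
    rw [Function.mem_support, FS.emb_notin _ _ _ _ h, FS.emb_notin _ _ _ _ h1] at hp
    exact hp (by norm_num)

/-- The gap at a coordinate. -/
theorem gap_coord (hK : (Kx S0 K).Normal) (e : Bool) (y : Fin 3) (hy : y ∈ S0) (r : ℝ)
    (hr : Gap K r) (x : FS (PP S0 K)) :
    r * ‖x‖ ^ 2 ≤ ∑ i, wt' i *
      ‖rho S0 K (base (Pi.mulSingle (e, y) (FreeGroup.of i))) x - x‖ ^ 2 := by
  letI : MulAction F4 (PP S0 K) := MulAction.compHom (PP S0 K)
    (base.comp (MonoidHom.mulSingle (fun _ : Bool × Fin 3 => F4) (e, y)))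
  have hsm : ∀ (s : F4) (p : PP S0 K), s • p = base (Pi.mulSingle (e, y) s) • p := fun _ _ => rfl
  have hst : ∀ p : PP S0 K, MulAction.stabilizer F4 p = K := by
    intro p
    ext s
    rw [MulAction.mem_stabilizer_iff, hsm]
    obtain ⟨g, rfl⟩ := QuotientGroup.mk_surjective p
    have h1 : base (Pi.mulSingle (e, y) s) • (QuotientGroup.mk g : PP S0 K) =
        QuotientGroup.mk (base (Pi.mulSingle (e, y) s) * g) := rfl
    rw [h1, eq_comm, QuotientGroup.eq]
    have h2 : g⁻¹ * (base (Pi.mulSingle (e, y) s) * g) ∈ Kx S0 K ↔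
        base (Pi.mulSingle (e, y) s) ∈ Kx S0 K := by
      constructor
      · intro h
        have := hK.conj_mem _ h g
        simpa [mul_assoc] using this
      · intro h
        have := hK.conj_mem _ h g⁻¹
        simpa [mul_assoc] using this
    rw [h2, mem_Kx]
    constructor
    · intro h
      have := h.2 e y hy
      rw [base_left, Pi.mulSingle_eq_same] at this
      exact this
    · intro h
      refine ⟨rfl, fun e' y' _ => ?_⟩
      rw [base_left]
      by_cases h3 : (e', y') = (e, y)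
      · rw [h3, Pi.mulSingle_eq_same]
        exact h
      · rw [Pi.mulSingle_eq_of_ne h3]
        exact K.one_mem
  have h := Iface.gap_free K hst r hr x.fn x.fn_finite
  rw [FS.norm_sq]
  refine h.trans (le_of_eq ?_)
  unfold En
  refine Finset.sum_congr rfl fun i _ => ?_
  rw [rho_disp]
  rfl

end

/-- The words and the elements which become trivial in the limit. -/
def HH (S0 : Finset (Fin 3)) (R : Subgroup F4) : Subgroup Wr := Psi.range ⊔ Kx S0 R

theorem mem_HH (S0 : Finset (Fin 3)) (R : Subgroup F4) (hR : (Kx S0 R).Normal) (g : Wr) :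
    g ∈ HH S0 R ↔ ∃ w : F4, ∃ k ∈ Kx S0 R, g = Psi w * k := by
  unfold HH
  rw [← SetLike.mem_coe, Subgroup.mul_normal, Set.mem_mul]
  constructor
  · rintro ⟨_, ⟨w, rfl⟩, k, hk, rfl⟩
    exact ⟨w, k, hk, rfl⟩
  · rintro ⟨w, k, hk, rfl⟩
    exact ⟨_, ⟨w, rfl⟩, k, hk, rfl⟩

end Pool.Agent.helper10.NA
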