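import Pool.Agent.helper10.NA.Level

set_option autoImplicit false
set_option linter.unusedSectionVars false

/-!
# The one-level inequality for the approximations, II
-/

namespace Pool.Agent.helper10.NA

open Pool.Agent.helper7.UG Filter Topology
open Iface (Forced BB)

theorem wt_eq (i : Fin 4) : wt i = wt' i := rfl

theorem forced_tl {τ : ℕ → Finset (Fin 3)} (h : Forced τ) : Forced (tl τ) := by
  refine ⟨fun n => h.1 (n + 1), fun y m => ?_⟩
  obtain ⟨n, hn, h1⟩ := h.2 y (m + 1)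
  refine ⟨n - 1, by omega, ?_⟩
  show τ (n - 1 + 1) = {y}
  rw [Nat.sub_add_cancel (by omega), h1]

theorem forced_act {τ : ℕ → Finset (Fin 3)} (h : Forced τ) (i : Fin 4) (hi : i ≠ 0) (m : ℕ) :
    ∃ n, m ≤ n ∧ ∃ y ∈ τ n, act i y = true := by
  have h1 : ∀ i : Fin 4, i ≠ 0 → ∃ y, act i y = true := by decide
  obtain ⟨y, hy⟩ := h1 i hi
  obtain ⟨n, hn, h2⟩ := h.2 y m
  exact ⟨n, hn, y, by rw [h2]; exact Finset.mem_singleton_self y, hy⟩

theorem KK_mono (τ : ℕ → Finset (Fin 3)) : Monotone fun n => KK n τ :=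
  monotone_nat_of_le_succ fun n => Iface.KK_le_succ n τ

theorem BB_finiteIndex (τ : ℕ → Finset (Fin 3)) (h : Forced τ) : (BB τ).FiniteIndex := by
  have h1 : (derivedSeries (F4 ⧸ NL (Lam τ)) 6).FiniteIndex := by
    have : Group.FG F4 := inferInstance
    have : Group.FG (F4 ⧸ NL (Lam τ)) := QuotientGroup.fg (NL (Lam τ))
    refine Iface.derivedSeries_finiteIndex _ (fun g => ?_) 6
    obtain ⟨w, rfl⟩ := QuotientGroup.mk_surjective g
    obtain ⟨k, hk, hk'⟩ := Iface.exists_pow_mem τ h w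
    refine ⟨k, hk, ?_⟩
    rw [← QuotientGroup.mk_pow]
    exact (QuotientGroup.eq_one_iff _).2 hk'
  refine ⟨?_⟩
  unfold BB
  rw [Subgroup.index_comap_of_surjective _ (QuotientGroup.mk'_surjective _)]
  exact h1.index_ne_zero

theorem BB_normal (τ : ℕ → Finset (Fin 3)) : (BB τ).Normal := by
  unfold BB
  infer_instance

theorem Psi_zero_left (e : Bool) (y : Fin 3) : (Psi (FreeGroup.of 0)).left e y = 1 := by
  rw [Psi_of]
  rfl

theorem Psi_zero_right : (Psi (FreeGroup.of 0)).right = Equiv.boolNot := by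
  rw [Psi_of]
  rfl

theorem Psi_zero_sq : Psi (FreeGroup.of 0) * Psi (FreeGroup.of 0) = 1 := by
  refine wr_ext (fun e y => ?_) ?_
  · rw [mul_left_apply, Psi_zero_left, Psi_zero_left]
    rfl
  · rw [mul_right_apply, Psi_zero_right]
    ext b
    cases b <;> rfl

/-- The sections of the generators. -/
def vv (i : Fin 4) (z : Bool × Fin 3) : F4 :=
  if z.1 then FreeGroup.of i else if act i z.2 then FreeGroup.of 0 else 1

theorem Psi_base (i : Fin 4) (hi : i ≠ 0) : Psi (FreeGroup.of i) = base (vv i) := by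
  refine wr_ext (fun e y => ?_) ?_
  · rw [Psi_of, wgen, if_neg hi]
    rfl
  · rw [Psi_of, wgen, if_neg hi]
    rfl

theorem Psi_swap (q : Bool × Fin 3 → F4) :
    Psi (FreeGroup.of 0) * base q = base (fun z => q (swp z)) * Psi (FreeGroup.of 0) := by
  refine wr_ext (fun e y => ?_) ?_
  · rw [mul_left_apply, mul_left_apply, Psi_zero_left, Psi_zero_left, Psi_zero_right, base_left,
      base_left, one_mul, mul_one]
    cases e <;> rfl
  · rw [mul_right_apply, mul_right_apply, base_right, base_right, mul_one, one_mul]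

/-- Relations of `Z/2 * V`. -/
theorem K0_sq (i : Fin 4) : FreeGroup.of i * FreeGroup.of i ∈ K0 :=
  Subgroup.subset_normalClosure (Or.inl ⟨i, rfl⟩)

theorem K0_mul (i j k : Fin 4) (hi : i ≠ 0) (hj : j ≠ 0) (hk : k ≠ 0) (hij : i ≠ j) (hik : i ≠ k)
    (hjk : j ≠ k) : FreeGroup.of i * FreeGroup.of j * (FreeGroup.of k)⁻¹ ∈ K0 := by
  have hN : K0.Normal := Subgroup.normalClosure_normal
  let x : Fin 4 → F4 ⧸ K0 := fun i => QuotientGroup.mk (FreeGroup.of i)
  have hsq : ∀ i, x i * x i = 1 := fun i =>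
    (QuotientGroup.eq_one_iff (FreeGroup.of i * FreeGroup.of i)).2 (K0_sq i)
  have hinv : ∀ i, (x i)⁻¹ = x i := fun i => inv_eq_of_mul_eq_one_left (hsq i)
  have h123 : x 1 * x 2 * x 3 = 1 :=
    (QuotientGroup.eq_one_iff (FreeGroup.of 1 * FreeGroup.of 2 * FreeGroup.of 3)).2
      (Subgroup.subset_normalClosure (Or.inr rfl))
  have h12 : x 1 * x 2 = x 3 := by
    rw [← hinv 3]
    exact eq_inv_of_mul_eq_one_left h123
  have h21 : x 2 * x 1 = x 3 := by
    have := congrArg (fun t => t⁻¹) h12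
    simpa [mul_inv_rev, hinv] using this
  have h13 : x 1 * x 3 = x 2 := by
    rw [← h12, ← mul_assoc, hsq, one_mul]
  have h31 : x 3 * x 1 = x 2 := by
    rw [← h21, mul_assoc, hsq, mul_one]
  have h23 : x 2 * x 3 = x 1 := by
    rw [← h21, ← mul_assoc, hsq, one_mul]
  have h32 : x 3 * x 2 = x 1 := by
    rw [← h12, mul_assoc, hsq, mul_one]
  have key : x i * x j = x k := by
    have hc : ∀ i j k : Fin 4, (i ≠ 0 ∧ j ≠ 0 ∧ k ≠ 0 ∧ i ≠ j ∧ i ≠ k ∧ j ≠ k) →
        (i = 1 ∧ j = 2 ∧ k = 3) ∨ (i = 1 ∧ j = 3 ∧ k = 2) ∨ (i = 2 ∧ j = 1 ∧ k = 3) ∨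
        (i = 2 ∧ j = 3 ∧ k = 1) ∨ (i = 3 ∧ j = 1 ∧ k = 2) ∨ (i = 3 ∧ j = 2 ∧ k = 1) := by decide
    rcases hc i j k ⟨hi, hj, hk, hij, hik, hjk⟩ with ⟨rfl, rfl, rfl⟩ | ⟨rfl, rfl, rfl⟩ | ⟨rfl, rfl, rfl⟩ |
      ⟨rfl, rfl, rfl⟩ | ⟨rfl, rfl, rfl⟩ | ⟨rfl, rfl, rfl⟩
    · exact h12
    · exact h13
    · exact h21
    · exact h23
    · exact h31
    · exact h32
  rw [← QuotientGroup.eq_one_iff]
  show x i * x j * (x k)⁻¹ = 1
  rw [key, mul_inv_cancel]

theorem ev_mem (τ : ℕ → Finset (Fin 3)) (h : Forced τ) (k : Wr)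
    (hk : k ∈ Kx (τ 0) (NL (Lam (tl τ)))) :
    ∀ᶠ n in atTop, k ∈ Kx (τ 0) (KK n (tl τ)) := by
  have h1 : ∀ e, ∀ y ∈ τ 0, ∀ᶠ n in atTop, k.left e y ∈ KK n (tl τ) := by
    intro e y hy
    obtain ⟨m, hm⟩ := Iface.exists_mem_KK (tl τ) (forced_tl h).1 (forced_act (forced_tl h)) _ (hk.2 e y hy)
    filter_upwards [eventually_ge_atTop m] with n hn
    exact KK_mono (tl τ) hn hm
  have h2 : ∀ᶠ n in atTop, ∀ e, ∀ y ∈ τ 0, k.left e y ∈ KK n (tl τ) := by
    rw [eventually_all]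
    intro e
    rw [Finset.eventually_all]
    exact h1 e
  filter_upwards [h2] with n hn
  exact ⟨hk.1, hn⟩

/-- The one-level inequality. -/
theorem level_ineq (τ : ℕ → Finset (Fin 3)) (hF : Forced τ) (c : ℝ) (hcard : 2 < c * (τ 0).card)
    (hpos : ∀ n, 0 < en (KK (n + 1) τ))
    (hlim : Tendsto (fun n => en (KK (n + 1) τ)) atTop (𝓝 0)) :
    ∀ᶠ n in atTop, en (KK n (tl τ)) ≤ c * en (KK (n + 1) τ) := by
  by_contra hcon
  have hfreq : ∃ᶠ n in atTop, n ∈ {n | c * en (KK (n + 1) τ) < en (KK n (tl τ))} := by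
    refine fun h => hcon ?_
    filter_upwards [h] with n hn
    exact not_lt.1 hn
  have hne : NeBot (atTop ⊓ 𝓟 {n | c * en (KK (n + 1) τ) < en (KK n (tl τ))}) :=
    frequently_mem_iff_neBot.1 hfreq
  set 𝒰 : Ultrafilter ℕ := Ultrafilter.of (atTop ⊓ 𝓟 {n | c * en (KK (n + 1) τ) < en (KK n (tl τ))})
    with h𝒰
  have hUle : (𝒰 : Filter ℕ) ≤ atTop ⊓ 𝓟 {n | c * en (KK (n + 1) τ) < en (KK n (tl τ))} :=
    Ultrafilter.of_le _
  have hU : (𝒰 : Filter ℕ) ≤ atTop := hUle.trans inf_le_left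
  have hUs : ∀ᶠ n in (𝒰 : Filter ℕ), c * en (KK (n + 1) τ) < en (KK n (tl τ)) :=
    (hUle.trans inf_le_right) (mem_principal_self _)
  -- the data
  set R := NL (Lam (tl τ)) with hR
  have hRn : R.Normal := inferInstance
  have hKxn : ∀ n, (Kx (τ 0) (KK n (tl τ))).Normal := fun n =>
    Iface.Kx_normal _ _ (Iface.KK_normal n (tl τ))
  have hKxR : (Kx (τ 0) R).Normal := Iface.Kx_normal _ _ hRn
  have hKxle : ∀ n, Kx (τ 0) (KK n (tl τ)) ≤ Kx (τ 0) R := by
    intro n g hg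
    exact ⟨hg.1, fun e y hy => Iface.KK_le_NL n (tl τ) (hg.2 e y hy)⟩
  set ε : ℕ → ℝ := fun n => Real.sqrt (en (KK (n + 1) τ)) with hε
  have hε0 : ∀ n, 0 < ε n := fun n => Real.sqrt_pos.2 (hpos n)
  have hε2 : ∀ n, ε n ^ 2 = en (KK (n + 1) τ) := fun n => Real.sq_sqrt (hpos n).le
  have hδ : ∀ n : ℕ, 0 < en (KK (n + 1) τ) / ((n : ℝ) + 1) := fun n => div_pos (hpos n) (by positivity)
  choose f hf hf1 hfE using fun n => Iface.exists_near (KK (n + 1) τ) _ (hδ n)
  let x0 : ∀ n, FS (F4 ⧸ (Kx (τ 0) (KK n (tl τ))).comap Psi) := fun n => FS.mk (f n) (hf n)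
  let ξ : ∀ n, FS (PP (τ 0) (KK n (tl τ))) := fun n =>
    FS.emb (iot (τ 0) (KK n (tl τ))) (iot_injective _ _) (x0 n)
  have hξ1 : ∀ n, ‖ξ n‖ = 1 := by
    intro n
    show ‖FS.emb _ _ (x0 n)‖ = 1
    rw [LinearIsometry.norm_map, ← sq_eq_sq₀ (norm_nonneg _) zero_le_one, FS.norm_sq]
    show sq (f n) = _
    rw [hf1 n]
    norm_num
  have hξE : ∀ n, ∑ i, wt' i * ‖rho (τ 0) (KK n (tl τ)) (Psi (FreeGroup.of i)) (ξ n) - ξ n‖ ^ 2 ≤
      (1 + 1 / ((n : ℝ) + 1)) * (ε n) ^ 2 := by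
    intro n
    have h1 : ∑ i, wt' i * ‖rho (τ 0) (KK n (tl τ)) (Psi (FreeGroup.of i)) (ξ n) - ξ n‖ ^ 2 =
        En (lm (KK (n + 1) τ)) (f n) := by
      unfold En
      refine Finset.sum_congr rfl fun i _ => ?_
      rw [← wt_eq]
      congr 1
      exact disp_emb (τ 0) (KK n (tl τ)) (x0 n) i
    rw [h1, hε2]
    refine (hfE n).le.trans (le_of_eq ?_)
    ring
  have hξS : ∀ n, ξ n ∈ SubW (τ 0) (KK n (tl τ)) := fun n p hp => FS.emb_notin _ _ _ p hp
  -- the elements of the limit group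
  have hWin : ∀ (n : ℕ) (w : F4), ∀ x ∈ SubW (τ 0) (KK n (tl τ)),
      rho (τ 0) (KK n (tl τ)) (Psi w) x ∈ SubW (τ 0) (KK n (tl τ)) := by
    intro n w x hx p hp
    rw [rho_apply]
    refine hx _ fun h => hp ?_
    obtain ⟨q, hq⟩ := h
    refine ⟨w • q, ?_⟩
    rw [iot_smul, hq, smul_inv_smul]
  have hevtriv : ∀ k ∈ Kx (τ 0) R, ∀ᶠ n in atTop, ∀ x : FS (PP (τ 0) (KK n (tl τ))),
      rho (τ 0) (KK n (tl τ)) k x = x := by
    intro k hk
    filter_upwards [ev_mem τ hF k hk] with n hn x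
    exact rho_of_mem _ _ (hKxn n) k hn x
  have hgenSt : ∀ i, Psi (FreeGroup.of i) ∈
      StSub (fun n => rho (τ 0) (KK n (tl τ))) ε ξ := by
    intro i
    rw [mem_StSub]
    refine ⟨4, fun n => ?_⟩
    rw [norm_smul, norm_inv, Real.norm_of_nonneg (hε0 n).le, inv_mul_le_iff₀ (hε0 n)]
    have h1 := hξE n
    have h2 : wt' i * ‖rho (τ 0) (KK n (tl τ)) (Psi (FreeGroup.of i)) (ξ n) - ξ n‖ ^ 2 ≤
        ∑ i, wt' i * ‖rho (τ 0) (KK n (tl τ)) (Psi (FreeGroup.of i)) (ξ n) - ξ n‖ ^ 2 :=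
      Finset.single_le_sum (f := fun i => wt' i *
        ‖rho (τ 0) (KK n (tl τ)) (Psi (FreeGroup.of i)) (ξ n) - ξ n‖ ^ 2)
        (fun i _ => mul_nonneg (wt'_nonneg i) (sq_nonneg _)) (Finset.mem_univ i)
    have h3 : (1 : ℝ) / 8 ≤ wt' i := by
      unfold wt'
      split_ifs <;> norm_num
    have h4 : (1 + 1 / ((n : ℝ) + 1)) ≤ 2 := by
      have : 1 / ((n : ℝ) + 1) ≤ 1 := by
        rw [div_le_one (by positivity)]
        have : (0 : ℝ) ≤ n := Nat.cast_nonneg n
        linarith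
      linarith
    have h5 : (1 + 1 / ((n : ℝ) + 1)) * ε n ^ 2 ≤ 2 * ε n ^ 2 :=
      mul_le_mul_of_nonneg_right h4 (sq_nonneg _)
    have h6 : 1 / 8 * ‖rho (τ 0) (KK n (tl τ)) (Psi (FreeGroup.of i)) (ξ n) - ξ n‖ ^ 2 ≤
        wt' i * ‖rho (τ 0) (KK n (tl τ)) (Psi (FreeGroup.of i)) (ξ n) - ξ n‖ ^ 2 :=
      mul_le_mul_of_nonneg_right h3 (sq_nonneg _)
    have h7 : ‖rho (τ 0) (KK n (tl τ)) (Psi (FreeGroup.of i)) (ξ n) - ξ n‖ ^ 2 ≤
        (ε n * 4) ^ 2 := by
      linarith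
    exact (sq_le_sq₀ (norm_nonneg _) (by have := hε0 n; positivity)).1 h7
  have hPsiSt : ∀ w, Psi w ∈ StSub (fun n => rho (τ 0) (KK n (tl τ))) ε ξ := by
    intro w
    have h1 : (⊤ : Subgroup F4) ≤
        (StSub (fun n => rho (τ 0) (KK n (tl τ))) ε ξ).comap Psi := by
      rw [← FreeGroup.closure_range_of, Subgroup.closure_le]
      rintro _ ⟨i, rfl⟩
      exact hgenSt i
    exact h1 (Subgroup.mem_top w)
  have hyp : SysHyp (fun n => rho (τ 0) (KK n (tl τ))) 𝒰 ε
      (fun n => SubW (τ 0) (KK n (tl τ))) (HH (τ 0) R) ξ :=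
    { hH := by
        intro h hh
        obtain ⟨w, k, hk, rfl⟩ := (mem_HH _ _ hKxR h).1 hh
        filter_upwards [hU (hevtriv k hk)] with n hn x hx
        have h1 : rho (τ 0) (KK n (tl τ)) (Psi w * k) x =
            rho (τ 0) (KK n (tl τ)) (Psi w) (rho (τ 0) (KK n (tl τ)) k x) := by
          rw [map_mul]
          rfl
        rw [h1, hn x]
        exact hWin n w x hx
      horth := by
        intro g hg n x hx y hy
        rw [FS.inner_def]
        refine (tsum_congr fun p => ?_).trans tsum_zero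
        rw [rho_apply]
        by_cases h1 : p ∈ Set.range (iot (τ 0) (KK n (tl τ)))
        · by_cases h2 : g⁻¹ • p ∈ Set.range (iot (τ 0) (KK n (tl τ)))
          · exfalso
            obtain ⟨q, rfl⟩ := h1
            obtain ⟨q', hq'⟩ := h2
            obtain ⟨w, rfl⟩ := QuotientGroup.mk_surjective q
            obtain ⟨w', rfl⟩ := QuotientGroup.mk_surjective q'
            rw [iot_mk, iot_mk] at hq'
            have h3 : (QuotientGroup.mk (Psi w') : PP (τ 0) (KK n (tl τ))) =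
                QuotientGroup.mk (g⁻¹ * Psi w) := hq'
            rw [QuotientGroup.eq] at h3
            have h4 : (Psi w')⁻¹ * (g⁻¹ * Psi w) ∈ Kx (τ 0) R := hKxle n h3
            refine hg ?_
            have h5 : g⁻¹ ∈ HH (τ 0) R := by
              have h6 : g⁻¹ = Psi w' * ((Psi w')⁻¹ * (g⁻¹ * Psi w)) * (Psi w)⁻¹ := by group
              rw [h6]
              unfold HH
              refine Subgroup.mul_mem _ (Subgroup.mul_mem _ ?_ ?_) ?_
              · exact Subgroup.mem_sup_left ⟨w', rfl⟩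
              · exact Subgroup.mem_sup_right h4
              · exact Subgroup.inv_mem _ (Subgroup.mem_sup_left ⟨w, rfl⟩)
            have := (HH (τ 0) R).inv_mem h5
            rwa [inv_inv] at this
          · rw [hx _ h2, zero_mul]
        · rw [hy _ h1, mul_zero]
      hξS := hξS
      hξH := by
        intro h hh
        obtain ⟨w, k, hk, rfl⟩ := (mem_HH _ _ hKxR h).1 hh
        have h1 : k ∈ StSub (fun n => rho (τ 0) (KK n (tl τ))) ε ξ := by
          rw [mem_StSub]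
          refine Bd.of_eventually (C := 0) ?_
          filter_upwards [hevtriv k hk] with n hn
          rw [hn, sub_self, smul_zero, norm_zero]
        exact (StSub (fun n => rho (τ 0) (KK n (tl τ))) ε ξ).mul_mem (hPsiSt w) h1
      hε0 := hε0
      hεM := by
        obtain ⟨M, hM⟩ := hlim.bddAbove_range
        refine ⟨Real.sqrt M, fun n => Real.sqrt_le_sqrt (hM ⟨n, rfl⟩)⟩
      hεlim := by
        have h1 : Tendsto ε atTop (𝓝 (Real.sqrt 0)) :=
          (Real.continuous_sqrt.tendsto 0).comp hlim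
        rw [Real.sqrt_zero] at h1
        exact h1.mono_left hU
      hξ1 := hξ1 }
  -- the ultraproduct
  obtain ⟨𝓚, _, _, _, σ, π, hadd, hsmul, hinner, hact, hdense⟩ :=
    Iface.exists_ultra (fun n => FS (PP (τ 0) (KK n (tl τ))))
      (fun n => rho (τ 0) (KK n (tl τ))) 𝒰
  let U : UData Wr (fun n => FS (PP (τ 0) (KK n (tl τ))))
      (fun n => rho (τ 0) (KK n (tl τ))) 𝒰 𝓚 :=
    { σ := σ, π := π, π_add := hadd, π_smul := hsmul, π_inner := hinner, π_act := hact,
      π_dense := hdense }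
  have hK0triv : ∀ u ∈ K0, ∀ᶠ n in atTop, ∀ x : FS (PP (τ 0) (KK n (tl τ))),
      rho (τ 0) (KK n (tl τ)) (Psi u) x = x := by
    intro u hu
    refine Eventually.of_forall fun n x => ?_
    have h1 : u ∈ KK (n + 1) τ := KK_mono τ (Nat.zero_le (n + 1)) hu
    exact rho_of_mem _ _ (hKxn n) _ h1 x
  have htriv := fun g hg => mkS_triv U hyp hU g hg
  have hmemPsi : ∀ w, Psi w ∈ (mkS U hyp).H := fun w => Subgroup.mem_sup_left ⟨w, rfl⟩
  have hctriv : ∀ u ∈ K0, (mkS U hyp).c (Psi u) = 0 := fun u hu =>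
    ((htriv (Psi u) (hK0triv u hu)).2 _).2
  have hcoord : Coord (mkS U hyp) base (BB (tl τ)) :=
    { normal := BB_normal _
      finite := BB_finiteIndex _ (forced_tl hF)
      mem := by
        rintro ⟨e0, y0⟩ b hb
        by_cases hy0 : y0 ∈ τ 0
        · obtain ⟨w, hw1, hw2, hw3⟩ := Iface.branch τ b hb e0 y0 hy0
          refine (mem_HH _ _ hKxR _).2 ⟨w, (Psi w)⁻¹ * base (Pi.mulSingle (e0, y0) b), ?_, by group⟩
          have hbase : base (fun z => (Psi w).left z.1 z.2) = Psi w :=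
            wr_ext (fun e y => rfl) hw1.symm
          rw [← hbase, ← map_inv, ← map_mul]
          refine ⟨rfl, fun e y hy => ?_⟩
          rw [base_left]
          show ((Psi w).left e y)⁻¹ * (Pi.mulSingle (e0, y0) b : Bool × Fin 3 → F4) (e, y) ∈ R
          by_cases h : (e, y) = (e0, y0)
          · rw [h, Pi.mulSingle_eq_same]
            have h1 : e = e0 := congrArg Prod.fst h
            have h2 : y = y0 := congrArg Prod.snd h
            rw [h1, h2]
            have := R.inv_mem hw2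
            simpa using this
          · rw [Pi.mulSingle_eq_of_ne h, mul_one]
            exact R.inv_mem (hw3 e y hy h)
        · refine Subgroup.mem_sup_right ⟨rfl, fun e y hy => ?_⟩
          rw [base_left, Pi.mulSingle_eq_of_ne]
          · exact R.one_mem
          · intro h
            have : y = y0 := congrArg Prod.snd h
            rw [this] at hy
            exact hy0 hy
      tors := by
        rintro ⟨e0, y0⟩ b hb
        obtain ⟨k, hk, hk'⟩ := Iface.exists_pow_mem (tl τ) (forced_tl hF) b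
        refine ⟨k, hk, htriv _ (hevtriv _ ⟨rfl, fun e y hy => ?_⟩)⟩
        rw [base_left]
        by_cases h : (e, y) = (e0, y0)
        · rw [h, Pi.mulSingle_eq_same]
          exact hk'
        · rw [Pi.mulSingle_eq_of_ne h]
          exact R.one_mem
      lift := by
        rintro ⟨e0, y0⟩ u
        obtain ⟨h, h1, h2⟩ := Iface.exists_section e0 y0 u
        refine ⟨fun z => (Psi h).left z.1 z.2, ?_, h2⟩
        have hbase : base (fun z => (Psi h).left z.1 z.2) = Psi h :=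
          wr_ext (fun e y => rfl) h1.symm
        rw [hbase]
        exact hmemPsi h }
  have hgens : Gens (mkS U hyp) base swp (fun i => Psi (FreeGroup.of i)) vv :=
    { mem := fun i => hmemPsi _
      swap := Psi_swap
      sw_sw := by
        rintro ⟨e, y⟩
        cases e <;> rfl
      g_base := Psi_base
      sq_ρ := by
        intro i x
        rw [← (mkS U hyp).ρ_mul, ← map_mul]
        exact (htriv _ (hK0triv _ (K0_sq i))).1 x
      sq_c := by
        intro i
        rw [← (mkS U hyp).c_mul (hmemPsi _) (hmemPsi _), ← map_mul]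
        exact hctriv _ (K0_sq i)
      mul_ρ := by
        intro i j k h1 h2 h3 h4 h5 h6 x
        have h7 := (htriv _ (hK0triv _ (K0_mul i j k h1 h2 h3 h4 h5 h6))).1
          ((mkS U hyp).ρ (Psi (FreeGroup.of k)) x)
        rw [← (mkS U hyp).ρ_mul, ← map_mul, inv_mul_cancel_right, map_mul,
          (mkS U hyp).ρ_mul] at h7
        exact h7
      mul_c := by
        intro i j k h1 h2 h3 h4 h5 h6
        have h8 := K0_mul i j k h1 h2 h3 h4 h5 h6
        have h9 : Psi (FreeGroup.of i) * Psi (FreeGroup.of j) =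
            Psi (FreeGroup.of i * FreeGroup.of j * (FreeGroup.of k)⁻¹) * Psi (FreeGroup.of k) := by
          rw [← map_mul, ← map_mul, inv_mul_cancel_right]
        rw [← (mkS U hyp).c_mul (hmemPsi _) (hmemPsi _), h9,
          (mkS U hyp).c_mul (hmemPsi _) (hmemPsi _), hctriv _ h8, zero_add]
        exact (htriv _ (hK0triv _ h8)).1 _ }
  have hgap : ∀ y ∈ τ 0, GapAt (mkS U hyp)
      (fun i => base (Pi.mulSingle (false, y) (FreeGroup.of i))) c := by
    intro y hy
    refine mkS_gap U hyp _ c ?_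
    filter_upwards [hUs] with n hn x
    have h1 := gap_coord (τ 0) (KK n (tl τ)) (hKxn n) false y hy _
      (Iface.gap_en (KK n (tl τ))) x
    refine le_trans ?_ h1
    rw [hε2]
    exact mul_le_mul_of_nonneg_right hn.le (sq_nonneg _)
  have htot := level_total (mkS U hyp) base (BB (tl τ)) hcoord hgens FreeGroup.of (τ 0)
    (by
      intro y _
      have h1 : ∀ y : Fin 3, ∃ i : Fin 4, i ≠ 0 ∧ act i y = true := by decide
      obtain ⟨i, hi, hy⟩ := h1 y
      refine ⟨i, hi, ?_⟩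
      simp [vv, hy])
    (by
      intro i _ y
      simp [vv]) Psi_zero_sq c hgap
  have hen := mkS_energy U hyp (fun i => Psi (FreeGroup.of i)) (fun i => hmemPsi _) hU hξE
  have : c / 2 * ((τ 0).card : ℝ) ≤ 1 := htot.trans hen
  linarith

end Pool.Agent.helper10.NA
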