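import Pool.Agent.helper10.NA.Hilb

set_option autoImplicit false
set_option linter.unusedSectionVars false

/-!
# Asymptotic systems and their sectors
-/

namespace Pool.Agent.helper10.NA

open Submodule

/-- An asymptotic system: `𝓐` are the asymptotic vectors, `A0` those of size `O(ε)`, `δ` divides
by `ε` and takes the limit in the Hilbert space `𝓚`. -/
structure Sys (Γ 𝓐 𝓚 : Type) [Group Γ] [AddCommGroup 𝓐] [NormedAddCommGroup 𝓚]
    [InnerProductSpace ℝ 𝓚] where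
  A : Γ →* AddMonoid.End 𝓐
  ρ : Γ →* (𝓚 ≃ₗᵢ[ℝ] 𝓚)
  A0 : AddSubgroup 𝓐
  A0_inv : ∀ g, ∀ x ∈ A0, A g x ∈ A0
  δ : 𝓐 → 𝓚
  δ_add : ∀ x ∈ A0, ∀ y ∈ A0, δ (x + y) = δ x + δ y
  δ_act : ∀ g, ∀ x ∈ A0, δ (A g x) = ρ g (δ x)
  H : Subgroup Γ
  Hc : Submodule ℝ 𝓚
  Hc_closed : IsClosed (Hc : Set 𝓚)
  Hc_inv : ∀ h ∈ H, ∀ v ∈ Hc, ρ h v ∈ Hc
  Hc_orth : ∀ g, g ∉ H → ∀ v ∈ Hc, ∀ v' ∈ Hc, inner ℝ (ρ g v) v' = 0
  ξ : 𝓐
  ξ_A0 : ∀ h ∈ H, A h ξ - ξ ∈ A0
  ξ_Hc : ∀ h ∈ H, δ (A h ξ - ξ) ∈ Hc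

namespace Sys

variable {Γ 𝓐 𝓚 : Type} [Group Γ] [AddCommGroup 𝓐] [NormedAddCommGroup 𝓚]
  [InnerProductSpace ℝ 𝓚]

theorem δ_zero (S : Sys Γ 𝓐 𝓚) : S.δ 0 = 0 := by
  have h := S.δ_add 0 S.A0.zero_mem 0 S.A0.zero_mem
  rw [add_zero] at h
  exact (left_eq_add.1 h)

theorem δ_sum (S : Sys Γ 𝓐 𝓚) {J : Type} (F : Finset J) (x : J → 𝓐) (hx : ∀ j, x j ∈ S.A0) :
    (∑ j ∈ F, x j) ∈ S.A0 ∧ S.δ (∑ j ∈ F, x j) = ∑ j ∈ F, S.δ (x j) := by
  classical
  induction F using Finset.induction_on with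
  | empty =>
    simp only [Finset.sum_empty]
    exact ⟨S.A0.zero_mem, S.δ_zero⟩
  | insert j F hj ih =>
    rw [Finset.sum_insert hj, Finset.sum_insert hj]
    refine ⟨S.A0.add_mem (hx j) ih.1, ?_⟩
    rw [S.δ_add _ (hx j) _ ih.1, ih.2]

theorem A_mul (S : Sys Γ 𝓐 𝓚) (g h : Γ) (x : 𝓐) : S.A (g * h) x = S.A g (S.A h x) := by
  rw [map_mul]
  rfl

theorem A_one (S : Sys Γ 𝓐 𝓚) (x : 𝓐) : S.A 1 x = x := by
  rw [map_one]
  rfl

theorem ρ_mul (S : Sys Γ 𝓐 𝓚) (g h : Γ) (x : 𝓚) : S.ρ (g * h) x = S.ρ g (S.ρ h x) := by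
  rw [map_mul]
  rfl

theorem ρ_one (S : Sys Γ 𝓐 𝓚) (x : 𝓚) : S.ρ 1 x = x := by
  rw [map_one]
  rfl

theorem ρ_inv (S : Sys Γ 𝓐 𝓚) (g : Γ) (x : 𝓚) : S.ρ g⁻¹ (S.ρ g x) = x := by
  rw [← ρ_mul, inv_mul_cancel, ρ_one]

theorem ρ_inv' (S : Sys Γ 𝓐 𝓚) (g : Γ) (x : 𝓚) : S.ρ g (S.ρ g⁻¹ x) = x := by
  rw [← ρ_mul, mul_inv_cancel, ρ_one]

/-- The displacement of an asymptotic vector. -/
def D (S : Sys Γ 𝓐 𝓚) (η : 𝓐) (g : Γ) : 𝓚 := S.δ (S.A g η - η)

/-- The group elements which move an asymptotic vector by `O(ε)`. -/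
def St (S : Sys Γ 𝓐 𝓚) (η : 𝓐) : Subgroup Γ where
  carrier := {g | S.A g η - η ∈ S.A0}
  one_mem' := by
    show S.A 1 η - η ∈ S.A0
    rw [S.A_one, sub_self]
    exact S.A0.zero_mem
  mul_mem' := by
    intro g h hg hh
    show S.A (g * h) η - η ∈ S.A0
    have : S.A (g * h) η - η = S.A g (S.A h η - η) + (S.A g η - η) := by
      rw [S.A_mul, map_sub]
      abel
    rw [this]
    exact S.A0.add_mem (S.A0_inv _ _ hh) hg
  inv_mem' := by
    intro g hg
    show S.A g⁻¹ η - η ∈ S.A0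
    have : S.A g⁻¹ η - η = -(S.A g⁻¹ (S.A g η - η)) := by
      rw [map_sub, ← S.A_mul, inv_mul_cancel, S.A_one]
      abel
    rw [this]
    exact S.A0.neg_mem (S.A0_inv _ _ hg)

theorem mem_St {S : Sys Γ 𝓐 𝓚} {η : 𝓐} {g : Γ} : g ∈ S.St η ↔ S.A g η - η ∈ S.A0 := Iff.rfl

theorem D_mul (S : Sys Γ 𝓐 𝓚) {η : 𝓐} {g h : Γ} (hg : g ∈ S.St η) (hh : h ∈ S.St η) :
    S.D η (g * h) = S.D η g + S.ρ g (S.D η h) := by
  have : S.A (g * h) η - η = (S.A g η - η) + S.A g (S.A h η - η) := by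
    rw [S.A_mul, map_sub]
    abel
  rw [D, this, S.δ_add _ hg _ (S.A0_inv _ _ hh), S.δ_act _ _ hh]
  rfl

theorem D_one (S : Sys Γ 𝓐 𝓚) (η : 𝓐) : S.D η 1 = 0 := by
  rw [D, S.A_one, sub_self, S.δ_zero]

theorem H_le_St (S : Sys Γ 𝓐 𝓚) : S.H ≤ S.St S.ξ := fun h hh => S.ξ_A0 h hh

/-- The cocycle. -/
def c (S : Sys Γ 𝓐 𝓚) (g : Γ) : 𝓚 := S.D S.ξ g

theorem c_mul (S : Sys Γ 𝓐 𝓚) {g h : Γ} (hg : g ∈ S.H) (hh : h ∈ S.H) :
    S.c (g * h) = S.c g + S.ρ g (S.c h) := S.D_mul (S.H_le_St hg) (S.H_le_St hh)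

theorem c_one (S : Sys Γ 𝓐 𝓚) : S.c 1 = 0 := S.D_one _

theorem c_mem (S : Sys Γ 𝓐 𝓚) {g : Γ} (hg : g ∈ S.H) : S.c g ∈ S.Hc := S.ξ_Hc g hg

/-- If `g` acts trivially on the values of `P` composed with the cocycle then powers add up. -/
theorem D_pow (S : Sys Γ 𝓐 𝓚) {η : 𝓐} {g : Γ} (hg : g ∈ S.St η) (P : 𝓚 →L[ℝ] 𝓚)
    (hP : ∀ v, P (S.ρ g v) = P v) (k : ℕ) : P (S.D η (g ^ k)) = (k : ℝ) • P (S.D η g) := by
  induction k with
  | zero => rw [pow_zero, D_one, map_zero, Nat.cast_zero, zero_smul]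
  | succ k ih =>
    rw [pow_succ', S.D_mul hg ((S.St η).pow_mem hg k), map_add, hP, ih, Nat.cast_succ, add_smul,
      one_smul, add_comm]

end Sys

section Sector

variable {Γ 𝓐 𝓚 N X : Type} [Group Γ] [AddCommGroup 𝓐] [NormedAddCommGroup 𝓚]
  [InnerProductSpace ℝ 𝓚] [CompleteSpace 𝓚] [Group N] [Fintype X] [DecidableEq X]

/-- The hypotheses on the coordinates. -/
structure Coord (S : Sys Γ 𝓐 𝓚) (base : (X → N) →* Γ) (B : Subgroup N) : Prop where
  normal : B.Normal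
  finite : B.FiniteIndex
  mem : ∀ z, ∀ b ∈ B, base (Pi.mulSingle z b) ∈ S.H
  tors : ∀ z, ∀ b ∈ B, ∃ k : ℕ, 0 < k ∧ (∀ v, S.ρ (base (Pi.mulSingle z (b ^ k))) v = v) ∧
    ∀ η, S.A (base (Pi.mulSingle z (b ^ k))) η - η ∈ S.A0 ∧
      S.δ (S.A (base (Pi.mulSingle z (b ^ k))) η - η) = 0
  lift : ∀ z, ∀ u : N, ∃ h : X → N, base h ∈ S.H ∧ h z = u

/-- The elements with trivial `z` coordinate. -/
def Sz (N : Type) [Group N] {X : Type} (z : X) : Subgroup (X → N) where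
  carrier := {q | q z = 1}
  one_mem' := rfl
  mul_mem' := by
    intro a b ha hb
    show a z * b z = 1
    rw [show a z = 1 from ha, show b z = 1 from hb, one_mul]
  inv_mem' := by
    intro a ha
    show (a z)⁻¹ = 1
    rw [show a z = 1 from ha, inv_one]

/-- The elements with trivial `z` coordinate and with the other coordinates in `B`. -/
def Wz (B : Subgroup N) (z : X) : Subgroup (X → N) where
  carrier := {q | q z = 1 ∧ ∀ z', q z' ∈ B}
  one_mem' := ⟨rfl, fun _ => B.one_mem⟩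
  mul_mem' := by
    intro a b ha hb
    refine ⟨?_, fun z' => B.mul_mem (ha.2 z') (hb.2 z')⟩
    show a z * b z = 1
    rw [ha.1, hb.1, one_mul]
  inv_mem' := by
    intro a ha
    refine ⟨?_, fun z' => B.inv_mem (ha.2 z')⟩
    show (a z)⁻¹ = 1
    rw [ha.1, inv_one]

omit [Fintype X] [DecidableEq X] in
theorem mem_Wz {B : Subgroup N} {z : X} {q : X → N} : q ∈ Wz B z ↔ q z = 1 ∧ ∀ z', q z' ∈ B :=
  Iff.rfl

omit [Fintype X] [DecidableEq X] in
theorem mem_Sz {z : X} {q : X → N} : q ∈ Sz N z ↔ q z = 1 := Iff.rfl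

/-- The isometries given by `B` at the coordinate `z`. -/
def TB (S : Sys Γ 𝓐 𝓚) (base : (X → N) →* Γ) (B : Subgroup N) (z : X) : Set (𝓚 ≃ₗᵢ[ℝ] 𝓚) :=
  {T | ∃ b ∈ B, T = S.ρ (base (Pi.mulSingle z b))}

/-- The isometries given by `B` at the other coordinates. -/
def TW (S : Sys Γ 𝓐 𝓚) (base : (X → N) →* Γ) (B : Subgroup N) (z : X) : Set (𝓚 ≃ₗᵢ[ℝ] 𝓚) :=
  {T | ∃ w ∈ Wz B z, T = S.ρ (base w)}

/-- The sector of the coordinate `z`. -/
noncomputable def Sec (S : Sys Γ 𝓐 𝓚) (base : (X → N) →* Γ) (B : Subgroup N) (z : X) : Submodule ℝ 𝓚 :=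
  fixS (TW S base B z) ⊓ (fixS (TB S base B z))ᗮ

variable (S : Sys Γ 𝓐 𝓚) (base : (X → N) →* Γ) (B : Subgroup N)

omit [Fintype X] in
theorem isClosed_Sec (z : X) : IsClosed (Sec S base B z : Set 𝓚) :=
  (isClosed_fixS _).inter (isClosed_orthogonal _)

instance Sec_complete (z : X) : CompleteSpace (Sec S base B z) :=
  (isClosed_Sec S base B z).completeSpace_coe

/-- The projection to the sector. -/
noncomputable def Q (z : X) : 𝓚 →L[ℝ] 𝓚 := (Sec S base B z).starProjection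

theorem Q_mem (z : X) (v : 𝓚) : Q S base B z v ∈ Sec S base B z :=
  (Sec S base B z).starProjection_apply_mem v

theorem Q_of_mem (z : X) {v : 𝓚} (hv : v ∈ Sec S base B z) : Q S base B z v = v :=
  (Sec S base B z).starProjection_eq_self_iff.2 hv

omit [Fintype X] [CompleteSpace 𝓚] in
theorem fixB_inv (hB : B.Normal) (z : X) (q : X → N) (v : 𝓚) (hv : v ∈ fixS (TB S base B z)) :
    S.ρ (base q) v ∈ fixS (TB S base B z) := by
  rw [mem_fixS] at hv ⊢
  rintro _ ⟨b, hb, rfl⟩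
  have h1 : Pi.mulSingle z b * q = q * Pi.mulSingle z ((q z)⁻¹ * b * q z) := by
    funext z'
    by_cases h : z' = z
    · subst h
      simp [mul_assoc]
    · simp [h]
  have h2 : (q z)⁻¹ * b * q z ∈ B := by
    have := hB.conj_mem b hb (q z)⁻¹
    simpa using this
  rw [← S.ρ_mul, ← map_mul, h1, map_mul, S.ρ_mul]
  rw [hv _ ⟨_, h2, rfl⟩]

omit [Fintype X] [DecidableEq X] in
theorem Wz_conj (hB : B.Normal) (z : X) (q w : X → N) (hw : w ∈ Wz B z) :
    q * w * q⁻¹ ∈ Wz B z := by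
  refine ⟨?_, fun z' => hB.conj_mem _ (hw.2 z') (q z')⟩
  show q z * w z * (q z)⁻¹ = 1
  rw [hw.1, mul_one, mul_inv_cancel]

omit [Fintype X] [DecidableEq X] [CompleteSpace 𝓚] in
theorem fixW_inv (hB : B.Normal) (z : X) (q : X → N) (v : 𝓚) (hv : v ∈ fixS (TW S base B z)) :
    S.ρ (base q) v ∈ fixS (TW S base B z) := by
  rw [mem_fixS] at hv ⊢
  rintro _ ⟨w, hw, rfl⟩
  have h1 : w * q = q * (q⁻¹ * w * q) := by
    rw [mul_assoc, mul_inv_cancel_left]
  have h2 : q⁻¹ * w * q ∈ Wz B z := by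
    have := Wz_conj B hB z q⁻¹ w hw
    simpa using this
  rw [← S.ρ_mul, ← map_mul, h1, map_mul, S.ρ_mul]
  rw [hv _ ⟨_, h2, rfl⟩]

omit [Fintype X] [CompleteSpace 𝓚] in
theorem fixB_iff (hB : B.Normal) (z : X) (q : X → N) (v : 𝓚) :
    v ∈ fixS (TB S base B z) ↔ S.ρ (base q) v ∈ fixS (TB S base B z) := by
  refine ⟨fixB_inv S base B hB z q v, fun h => ?_⟩
  have := fixB_inv S base B hB z q⁻¹ _ h
  rwa [map_inv, S.ρ_inv] at this

omit [Fintype X] [CompleteSpace 𝓚] in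
theorem fixBo_inv (hB : B.Normal) (z : X) (q : X → N) (v : 𝓚) (hv : v ∈ (fixS (TB S base B z))ᗮ) :
    S.ρ (base q) v ∈ (fixS (TB S base B z))ᗮ := by
  rw [mem_orthogonal] at hv ⊢
  intro f hf
  have h1 : S.ρ (base q) (S.ρ (base q)⁻¹ f) = f := S.ρ_inv' _ _
  rw [← h1, LinearIsometryEquiv.inner_map_map]
  refine hv _ ?_
  rw [← map_inv]
  exact fixB_inv S base B hB z q⁻¹ f hf

omit [Fintype X] [CompleteSpace 𝓚] in
theorem Sec_inv (hB : B.Normal) (z : X) (q : X → N) (v : 𝓚) (hv : v ∈ Sec S base B z) :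
    S.ρ (base q) v ∈ Sec S base B z :=
  ⟨fixW_inv S base B hB z q v hv.1, fixBo_inv S base B hB z q v hv.2⟩

omit [Fintype X] [CompleteSpace 𝓚] in
theorem Sec_iff (hB : B.Normal) (z : X) (q : X → N) (v : 𝓚) :
    v ∈ Sec S base B z ↔ S.ρ (base q) v ∈ Sec S base B z := by
  refine ⟨Sec_inv S base B hB z q v, fun h => ?_⟩
  have := Sec_inv S base B hB z q⁻¹ _ h
  rwa [map_inv, S.ρ_inv] at this

theorem Q_comm (hB : B.Normal) (z : X) (q : X → N) (v : 𝓚) :
    S.ρ (base q) (Q S base B z v) = Q S base B z (S.ρ (base q) v) :=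
  map_starProjection _ _ (Sec_iff S base B hB z q) v

theorem PB_comm (hB : B.Normal) (z : X) (q : X → N) (v : 𝓚) :
    S.ρ (base q) ((fixS (TB S base B z)).starProjection v) =
      (fixS (TB S base B z)).starProjection (S.ρ (base q) v) :=
  map_starProjection _ _ (fixB_iff S base B hB z q) v

/-- The projection to the sector in two steps. -/
theorem Q_eq (hB : B.Normal) (z : X) (d : 𝓚) (hd : d ∈ (fixS (TB S base B z))ᗮ) :
    (fixS (TW S base B z)).starProjection d = Q S base B z d := by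
  symm
  refine (Sec S base B z).eq_starProjection_of_mem_orthogonal ⟨?_, ?_⟩ ?_
  · exact (fixS (TW S base B z)).starProjection_apply_mem d
  · refine erg_one _ _ (isClosed_orthogonal _) ?_ d hd
    rintro _ ⟨w, _, rfl⟩ x hx
    exact fixBo_inv S base B hB z w x hx
  · have h1 : d - (fixS (TW S base B z)).starProjection d ∈ (fixS (TW S base B z))ᗮ :=
      sub_starProjection_mem_orthogonal d
    exact orthogonal_le (inf_le_left) h1

theorem Q_sub (z : X) (v : 𝓚) :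
    Q S base B z (v - (fixS (TB S base B z)).starProjection v) = Q S base B z v := by
  have h1 : Q S base B z ((fixS (TB S base B z)).starProjection v) = 0 := by
    refine (Sec S base B z).starProjection_apply_eq_zero_iff.2 ?_
    have h2 : (fixS (TB S base B z)).starProjection v ∈ fixS (TB S base B z) :=
      starProjection_apply_mem _ _
    have h3 : fixS (TB S base B z) ≤ (Sec S base B z)ᗮ := by
      refine (le_orthogonal_orthogonal _).trans (orthogonal_le inf_le_right)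
    exact h3 h2
  rw [map_sub, h1, sub_zero]

/-- The projection to the sector preserves `Hc`. -/
theorem Q_Hc (hc : Coord S base B) (z : X) (v : 𝓚) (hv : v ∈ S.Hc) : Q S base B z v ∈ S.Hc := by
  have hW : ∀ w ∈ Wz B z, base w ∈ S.H := by
    intro w hw
    have : w ∈ S.H.comap base := by
      refine Subgroup.pi_mem_of_mulSingle_mem w fun z' => ?_
      exact hc.mem z' _ (hw.2 z')
    exact this
  have h1 : (fixS (TB S base B z)).starProjection v ∈ S.Hc := by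
    refine erg_one _ _ S.Hc_closed ?_ v hv
    rintro _ ⟨b, hb, rfl⟩ x hx
    exact S.Hc_inv _ (hc.mem z b hb) x hx
  have h2 : v - (fixS (TB S base B z)).starProjection v ∈ S.Hc := S.Hc.sub_mem hv h1
  have h3 := Q_eq S base B hc.normal z (v - (fixS (TB S base B z)).starProjection v)
    (sub_starProjection_mem_orthogonal v)
  rw [Q_sub] at h3
  rw [← h3]
  refine erg_one _ _ S.Hc_closed ?_ _ h2
  rintro _ ⟨w, hw, rfl⟩ x hx
  exact S.Hc_inv _ (hW w hw) x hx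

omit [CompleteSpace 𝓚] in
theorem W_mem_H (hc : Coord S base B) (z : X) (w : X → N) (hw : w ∈ Wz B z) : base w ∈ S.H := by
  have : w ∈ S.H.comap base := by
    refine Subgroup.pi_mem_of_mulSingle_mem w fun z' => ?_
    exact hc.mem z' _ (hw.2 z')
  exact this

omit [Fintype X] [CompleteSpace 𝓚] in
theorem Sec_W (z : X) (w : X → N) (hw : w ∈ Wz B z) (v : 𝓚) (hv : v ∈ Sec S base B z) :
    S.ρ (base w) v = v := hv.1 _ ⟨w, hw, rfl⟩

theorem Q_W (hB : B.Normal) (z : X) (w : X → N) (hw : w ∈ Wz B z) (v : 𝓚) :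
    Q S base B z (S.ρ (base w) v) = Q S base B z v := by
  rw [← Q_comm S base B hB z w v]
  exact Sec_W S base B z w hw _ (Q_mem S base B z v)

/-- The cocycle of `W` vanishes in the sector. -/
theorem Q_c_W (hc : Coord S base B) (z : X) (w : X → N) (hw : w ∈ Wz B z) :
    Q S base B z (S.c (base w)) = 0 := by
  have hB := hc.normal
  let J : Subgroup (X → N) :=
    { carrier := {w | base w ∈ S.H ∧ (∀ v, Q S base B z (S.ρ (base w) v) = Q S base B z v) ∧
        Q S base B z (S.c (base w)) = 0}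
      one_mem' := by
        refine ⟨?_, ?_, ?_⟩
        · rw [map_one]
          exact S.H.one_mem
        · intro v
          rw [map_one, S.ρ_one]
        · rw [map_one, S.c_one, map_zero]
      mul_mem' := by
        rintro u v ⟨h1, h2, h3⟩ ⟨h4, h5, h6⟩
        refine ⟨?_, ?_, ?_⟩
        · rw [map_mul]
          exact S.H.mul_mem h1 h4
        · intro x
          rw [map_mul, S.ρ_mul, h2, h5]
        · rw [map_mul, S.c_mul h1 h4, map_add, h3, h2, h6, add_zero]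
      inv_mem' := by
        rintro u ⟨h1, h2, h3⟩
        have h4 : ∀ x, Q S base B z (S.ρ (base u⁻¹) x) = Q S base B z x := by
          intro x
          rw [← h2 (S.ρ (base u⁻¹) x), map_inv, S.ρ_inv']
        refine ⟨?_, h4, ?_⟩
        · rw [map_inv]
          exact S.H.inv_mem h1
        · have h5 : base u⁻¹ ∈ S.H := by
            rw [map_inv]
            exact S.H.inv_mem h1
          have h6 := S.c_mul h5 h1
          rw [← map_mul, inv_mul_cancel, map_one, S.c_one] at h6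
          have h7 := congrArg (Q S base B z) h6
          rw [map_zero, map_add, h4, h3, add_zero] at h7
          exact h7.symm }
  have : w ∈ J := by
    refine Subgroup.pi_mem_of_mulSingle_mem w fun z' => ?_
    have h1 : base (Pi.mulSingle z' (w z')) ∈ S.H := hc.mem z' _ (hw.2 z')
    have h0 : Pi.mulSingle z' (w z') ∈ Wz B z := by
      refine ⟨?_, fun z'' => ?_⟩
      · by_cases h : z = z'
        · subst h
          simp [hw.1]
        · simp [h]
      · by_cases h : z'' = z'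
        · subst h
          simpa using hw.2 z''
        · simp [h, B.one_mem]
    have h2 : ∀ v, Q S base B z (S.ρ (base (Pi.mulSingle z' (w z'))) v) = Q S base B z v :=
      Q_W S base B hB z _ h0
    refine ⟨h1, h2, ?_⟩
    obtain ⟨k, hk, _, h3⟩ := hc.tors z' _ (hw.2 z')
    have h4 := S.D_pow (S.H_le_St h1) (Q S base B z) h2 k
    have h5 : base (Pi.mulSingle z' (w z')) ^ k = base (Pi.mulSingle z' (w z' ^ k)) := by
      rw [← map_pow, ← Pi.mulSingle_pow]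
    rw [h5] at h4
    have h6 : S.D S.ξ (base (Pi.mulSingle z' (w z' ^ k))) = 0 := (h3 S.ξ).2
    rw [h6, map_zero] at h4
    have h7 : (k : ℝ) ≠ 0 := by exact_mod_cast hk.ne'
    exact (smul_eq_zero.1 h4.symm).resolve_left h7
  exact this.2.2

end Sector

end Pool.Agent.helper10.NA
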