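import Pool.Agent.helper10.NA.Sector

set_option autoImplicit false
set_option linter.unusedSectionVars false

/-!
# The energy of a sector is bounded below at every point
-/

namespace Pool.Agent.helper10.NA

open Submodule
open scoped Classical

/-- Weights of the generators in the energy. -/
noncomputable def wt' (i : Fin 4) : ℝ := if i = 0 then 1 / 4 else 1 / 8

theorem wt'_nonneg (i : Fin 4) : 0 ≤ wt' i := by
  unfold wt'
  split_ifs <;> norm_num

section

variable {Γ 𝓐 𝓚 N X : Type} [Group Γ] [AddCommGroup 𝓐] [NormedAddCommGroup 𝓚]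
  [InnerProductSpace ℝ 𝓚] [CompleteSpace 𝓚] [Group N] [Fintype X] [DecidableEq X]

/-- The number of pairs in the same coset. -/
noncomputable def cnt2 {J : Type} [Fintype J] (H : Subgroup Γ) (t : J → Γ) : ℝ :=
  ∑ j, ∑ k, if (t j)⁻¹ * t k ∈ H then (1 : ℝ) else 0

theorem cnt2_pos {J : Type} [Fintype J] [Nonempty J] (H : Subgroup Γ) (t : J → Γ) :
    0 < cnt2 H t := by
  obtain ⟨j0⟩ := ‹Nonempty J›
  have h1 : ∀ j k, (0 : ℝ) ≤ if (t j)⁻¹ * t k ∈ H then (1 : ℝ) else 0 := by
    intro j k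
    split_ifs <;> norm_num
  have h2 : (1 : ℝ) ≤ ∑ k, if (t j0)⁻¹ * t k ∈ H then (1 : ℝ) else 0 := by
    refine le_trans ?_ (Finset.single_le_sum (fun k _ => h1 j0 k) (Finset.mem_univ j0))
    rw [inv_mul_cancel, if_pos H.one_mem]
  have h3 : (1 : ℝ) ≤ cnt2 H t :=
    h2.trans (Finset.single_le_sum (f := fun j => ∑ k, if (t j)⁻¹ * t k ∈ H then (1 : ℝ) else 0)
      (fun j _ => Finset.sum_nonneg fun k _ => h1 j k) (Finset.mem_univ j0))
  linarith

/-- The gap hypothesis along the elements `s`. -/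
def GapAt (S : Sys Γ 𝓐 𝓚) (s : Fin 4 → Γ) (r : ℝ) : Prop :=
  ∀ (J : Type) [Fintype J] (t : J → Γ), (∀ i, s i ∈ S.St (∑ j, S.A (t j) S.ξ)) →
    ∀ x : 𝓚, r * cnt2 S.H t ≤
      ∑ i, wt' i * ‖S.ρ (s i) x - x + S.D (∑ j, S.A (t j) S.ξ) (s i)‖ ^ 2

/-- Classes modulo `Wz`. -/
abbrev JJ (B : Subgroup N) (z : X) : Type := {z' : X // z' ≠ z} → N ⧸ B

/-- Representatives. -/
noncomputable def rep (B : Subgroup N) (z : X) (j : JJ B z) : X → N :=
  fun z' => if h : z' = z then 1 else (j ⟨z', h⟩).out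

/-- The class. -/
def cl (B : Subgroup N) (z : X) (q : X → N) : JJ B z := fun z' => (q z' : N ⧸ B)

theorem rep_mem (B : Subgroup N) (z : X) (j : JJ B z) : rep B z j ∈ Sz N z := by
  show rep B z j z = 1
  simp [rep]

theorem rep_apply (B : Subgroup N) (z : X) (j : JJ B z) (z' : {z' : X // z' ≠ z}) :
    rep B z j z' = (j z').out := by
  simp [rep, z'.2]

theorem rep_cl (B : Subgroup N) (z : X) (q : X → N) (hq : q ∈ Sz N z) :
    (rep B z (cl B z q))⁻¹ * q ∈ Wz B z := by
  have h0 : ((rep B z (cl B z q))⁻¹ * q) z = 1 := by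
    show (rep B z (cl B z q) z)⁻¹ * q z = 1
    rw [show rep B z (cl B z q) z = 1 from rep_mem B z _, show q z = 1 from hq, inv_one, one_mul]
  refine ⟨h0, fun z' => ?_⟩
  by_cases h : z' = z
  · subst h
    rw [h0]
    exact B.one_mem
  · show (rep B z (cl B z q) z')⁻¹ * q z' ∈ B
    have h1 := rep_apply B z (cl B z q) ⟨z', h⟩
    simp only at h1
    rw [h1, ← QuotientGroup.eq]
    simp [cl]

/-- The permutation of the classes. -/
noncomputable def pi1 (B : Subgroup N) (z : X) (u h : X → N) (j : JJ B z) : JJ B z :=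
  cl B z (u * (h * rep B z j * h⁻¹))

theorem pi1_injective (B : Subgroup N) (hB : B.Normal) (z : X) (u h : X → N) :
    Function.Injective (pi1 B z u h) := by
  intro j j' hjj
  funext z'
  have h1 := congrFun hjj z'
  have h2 : ((u * (h * rep B z j * h⁻¹)) z' : N ⧸ B) = ((u * (h * rep B z j' * h⁻¹)) z' : N ⧸ B) :=
    h1
  rw [QuotientGroup.eq] at h2
  have h3 : ((u * (h * rep B z j * h⁻¹)) z')⁻¹ * (u * (h * rep B z j' * h⁻¹)) z' =
      h z' * ((rep B z j z')⁻¹ * rep B z j' z') * (h z')⁻¹ := by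
    simp only [Pi.mul_apply, Pi.inv_apply]
    group
  rw [h3] at h2
  have h4 := hB.conj_mem _ h2 (h z')⁻¹
  have h5 : (h z')⁻¹ * (h z' * ((rep B z j z')⁻¹ * rep B z j' z') * (h z')⁻¹) * (h z')⁻¹⁻¹ =
      (rep B z j z')⁻¹ * rep B z j' z' := by group
  rw [h5, rep_apply, rep_apply, ← QuotientGroup.eq] at h4
  simpa using h4

/-- The correction in `Wz`. -/
noncomputable def wj (B : Subgroup N) (z : X) (u h : X → N) (j : JJ B z) : X → N :=
  (rep B z (pi1 B z u h j))⁻¹ * (u * (h * rep B z j * h⁻¹))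

theorem wj_mem (B : Subgroup N) (z : X) (u h : X → N) (hu : u ∈ Sz N z) (j : JJ B z) :
    wj B z u h j ∈ Wz B z := by
  refine rep_cl B z _ ((Sz N z).mul_mem hu ?_)
  show h z * rep B z j z * (h z)⁻¹ = 1
  rw [show rep B z j z = 1 from rep_mem B z j, mul_one, mul_inv_cancel]

theorem mul_rep (B : Subgroup N) (z : X) (u h : X → N) (j : JJ B z) :
    u * h * rep B z j = rep B z (pi1 B z u h j) * (wj B z u h j * h) := by
  unfold wj
  group

variable (S : Sys Γ 𝓐 𝓚) (base : (X → N) →* Γ) (B : Subgroup N)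

/-- The asymptotic vector. -/
noncomputable def Xi [Fintype (N ⧸ B)] (z : X) : 𝓐 := ∑ j : JJ B z, S.A (base (rep B z j)) S.ξ

/-- The map `k`. -/
noncomputable def kh [Fintype (N ⧸ B)] (z : X) (v : 𝓚) : 𝓚 :=
  ∑ j : JJ B z, S.ρ (base (rep B z j)) v

variable [Fintype (N ⧸ B)]

theorem kh_add (z : X) (v w : 𝓚) : kh S base B z (v + w) = kh S base B z v + kh S base B z w := by
  unfold kh
  rw [← Finset.sum_add_distrib]
  exact Finset.sum_congr rfl fun j _ => map_add _ _ _

theorem kh_sub (z : X) (v w : 𝓚) : kh S base B z (v - w) = kh S base B z v - kh S base B z w := by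
  unfold kh
  rw [← Finset.sum_sub_distrib]
  exact Finset.sum_congr rfl fun j _ => map_sub _ _ _

theorem sum_pi1 (hB : B.Normal) (z : X) (u h : X → N) {M : Type} [AddCommMonoid M]
    (f : JJ B z → M) : ∑ j, f (pi1 B z u h j) = ∑ j, f j :=
  (Finite.injective_iff_bijective.1 (pi1_injective B hB z u h)).sum_comp f

theorem disp_eq (hB : B.Normal) (z : X) (u h : X → N) :
    S.A (base (u * h)) (Xi S base B z) - Xi S base B z =
      ∑ j : JJ B z, S.A (base (rep B z (pi1 B z u h j)))
        (S.A (base (wj B z u h j * h)) S.ξ - S.ξ) := by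
  have h1 : Xi S base B z = ∑ j : JJ B z, S.A (base (rep B z (pi1 B z u h j))) S.ξ :=
    (sum_pi1 B hB z u h fun j => S.A (base (rep B z j)) S.ξ).symm
  nth_rewrite 2 [h1]
  rw [Xi, map_sum, ← Finset.sum_sub_distrib]
  refine Finset.sum_congr rfl fun j _ => ?_
  rw [map_sub, ← S.A_mul, ← S.A_mul, ← map_mul, ← map_mul, mul_rep]

theorem disp_St (hc : Coord S base B) (z : X) (u h : X → N) (hu : u ∈ Sz N z)
    (hh : base h ∈ S.H) : base (u * h) ∈ S.St (Xi S base B z) := by
  rw [Sys.mem_St, disp_eq S base B hc.normal]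
  refine (S.δ_sum _ _ fun j => S.A0_inv _ _ (S.ξ_A0 _ ?_)).1
  rw [map_mul]
  exact S.H.mul_mem (W_mem_H S base B hc z _ (wj_mem B z u h hu j)) hh

theorem disp_D (hc : Coord S base B) (z : X) (u h : X → N) (hu : u ∈ Sz N z)
    (hh : base h ∈ S.H) : S.D (Xi S base B z) (base (u * h)) =
      ∑ j : JJ B z, S.ρ (base (rep B z (pi1 B z u h j))) (S.c (base (wj B z u h j * h))) := by
  have hH : ∀ j, base (wj B z u h j * h) ∈ S.H := by
    intro j
    rw [map_mul]
    exact S.H.mul_mem (W_mem_H S base B hc z _ (wj_mem B z u h hu j)) hh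
  rw [Sys.D, disp_eq S base B hc.normal]
  rw [(S.δ_sum _ _ fun j => S.A0_inv _ _ (S.ξ_A0 _ (hH j))).2]
  exact Finset.sum_congr rfl fun j _ => S.δ_act _ _ (S.ξ_A0 _ (hH j))

theorem Q_disp (hc : Coord S base B) (z : X) (u h : X → N) (hu : u ∈ Sz N z)
    (hh : base h ∈ S.H) : Q S base B z (S.D (Xi S base B z) (base (u * h))) =
      kh S base B z (Q S base B z (S.c (base h))) := by
  have hB := hc.normal
  rw [disp_D S base B hc z u h hu hh, map_sum, kh,
    ← sum_pi1 B hB z u h fun j => S.ρ (base (rep B z j)) (Q S base B z (S.c (base h)))]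
  refine Finset.sum_congr rfl fun j _ => ?_
  have hw := wj_mem B z u h hu j
  rw [← Q_comm S base B hB]
  congr 1
  rw [map_mul, S.c_mul (W_mem_H S base B hc z _ hw) hh, map_add, Q_c_W S base B hc z _ hw,
    Q_W S base B hB z _ hw, zero_add]

theorem kh_act (hc : Coord S base B) (z : X) (u h : X → N) (hu : u ∈ Sz N z) (ζ : 𝓚)
    (hζ : ζ ∈ Sec S base B z) : S.ρ (base (u * h)) (kh S base B z ζ) =
      kh S base B z (S.ρ (base h) ζ) := by
  have hB := hc.normal
  rw [kh, map_sum, kh, ← sum_pi1 B hB z u h fun j => S.ρ (base (rep B z j)) (S.ρ (base h) ζ)]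
  refine Finset.sum_congr rfl fun j _ => ?_
  have hw := wj_mem B z u h hu j
  rw [← S.ρ_mul, ← map_mul, mul_rep, map_mul, S.ρ_mul, map_mul, S.ρ_mul,
    Sec_W S base B z _ hw _ (Sec_inv S base B hB z h ζ hζ)]

theorem kh_mem (hB : B.Normal) (z : X) (ζ : 𝓚) (hζ : ζ ∈ Sec S base B z) :
    kh S base B z ζ ∈ Sec S base B z :=
  Submodule.sum_mem _ fun _ _ => Sec_inv S base B hB z _ ζ hζ

theorem kh_norm (z : X) (v : 𝓚) (hv : v ∈ S.Hc) :
    ‖kh S base B z v‖ ^ 2 ≤ cnt2 S.H (fun j : JJ B z => base (rep B z j)) * ‖v‖ ^ 2 := by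
  rw [← real_inner_self_eq_norm_sq, kh, sum_inner, cnt2, Finset.sum_mul]
  refine Finset.sum_le_sum fun j _ => ?_
  rw [inner_sum, Finset.sum_mul]
  refine Finset.sum_le_sum fun k _ => ?_
  have h1 : inner ℝ (S.ρ (base (rep B z j)) v) (S.ρ (base (rep B z k)) v) =
      inner ℝ v (S.ρ ((base (rep B z j))⁻¹ * base (rep B z k)) v) := by
    rw [← (S.ρ (base (rep B z j))).inner_map_map v, ← S.ρ_mul, mul_inv_cancel_left]
  rw [h1]
  split_ifs with h
  · rw [one_mul]
    refine (real_inner_le_norm _ _).trans ?_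
    rw [LinearIsometryEquiv.norm_map, sq]
  · rw [zero_mul, real_inner_comm, S.Hc_orth _ h v hv v hv]

theorem mulSingle_decomp (z : X) (s : N) (h : X → N) (hs : h z = s) :
    ∃ u ∈ Sz N z, Pi.mulSingle z s = u * h := by
  refine ⟨Pi.mulSingle z s * h⁻¹, ?_, by rw [inv_mul_cancel_right]⟩
  show (Pi.mulSingle z s : X → N) z * (h z)⁻¹ = 1
  rw [Pi.mulSingle_eq_same, hs, mul_inv_cancel]

theorem single_St (hc : Coord S base B) (z : X) (s : N) :
    base (Pi.mulSingle z s) ∈ S.St (Xi S base B z) := by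
  obtain ⟨h, hh, hs⟩ := hc.lift z s
  obtain ⟨u, hu, h1⟩ := mulSingle_decomp z s h hs
  rw [h1]
  exact disp_St S base B hc z u h hu hh

/-- The component of the cocycle fixed by `B` at `z` has a fixed point. -/
theorem exists_f0 (hc : Coord S base B) (z : X) :
    ∃ f0 ∈ fixS (TB S base B z), ∀ s : N, S.ρ (base (Pi.mulSingle z s)) f0 - f0 +
      (fixS (TB S base B z)).starProjection (S.D (Xi S base B z) (base (Pi.mulSingle z s))) = 0 := by
  have hB := hc.normal
  set P := (fixS (TB S base B z)).starProjection with hP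
  set D0 : N → 𝓚 := fun u => P (S.D (Xi S base B z) (base (Pi.mulSingle z u))) with hD0
  have hmul : ∀ u v, D0 (u * v) = D0 u + S.ρ (base (Pi.mulSingle z u)) (D0 v) := by
    intro u v
    simp only [hD0]
    rw [hP, PB_comm S base B hB z, ← map_add, Pi.mulSingle_mul, map_mul,
      S.D_mul (single_St S base B hc z u) (single_St S base B hc z v)]
  have hB0 : ∀ b ∈ B, D0 b = 0 := by
    intro b hb
    obtain ⟨k, hk, _, h3⟩ := hc.tors z b hb
    have h2 : ∀ v, P (S.ρ (base (Pi.mulSingle z b)) v) = P v := by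
      intro v
      rw [hP, ← PB_comm S base B hB z]
      exact mem_fixS.1 (starProjection_apply_mem _ v) _ ⟨b, hb, rfl⟩
    have h4 := S.D_pow (single_St S base B hc z b) P h2 k
    have h5 : base (Pi.mulSingle z b) ^ k = base (Pi.mulSingle z (b ^ k)) := by
      rw [← map_pow, ← Pi.mulSingle_pow]
    rw [h5] at h4
    have h6 : S.D (Xi S base B z) (base (Pi.mulSingle z (b ^ k))) = 0 := (h3 _).2
    rw [h6, map_zero] at h4
    have h7 : (k : ℝ) ≠ 0 := by exact_mod_cast hk.ne'
    exact (smul_eq_zero.1 h4.symm).resolve_left h7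
  have hD0mem : ∀ u, D0 u ∈ fixS (TB S base B z) := fun u => starProjection_apply_mem _ _
  have hm : (0 : ℝ) < Fintype.card (N ⧸ B) := by
    exact_mod_cast Fintype.card_pos
  refine ⟨(Fintype.card (N ⧸ B) : ℝ)⁻¹ • ∑ q : N ⧸ B, D0 q.out,
    Submodule.smul_mem _ _ (Submodule.sum_mem _ fun q _ => hD0mem _), fun s => ?_⟩
  have h1 : ∀ q : N ⧸ B, D0 (s • q).out = D0 s + S.ρ (base (Pi.mulSingle z s)) (D0 q.out) := by
    intro q
    rw [← hmul]
    have h2 : (s * q.out)⁻¹ * (s • q).out ∈ B := by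
      rw [← QuotientGroup.eq]
      rw [QuotientGroup.out_eq']
      show ((s • q.out : N) : N ⧸ B) = s • q
      conv_rhs => rw [← QuotientGroup.out_eq' q]
      rfl
    have h3 : (s • q).out = (s * q.out) * ((s * q.out)⁻¹ * (s • q).out) := by group
    rw [h3, hmul, hB0 _ h2, map_zero, add_zero]
  have h2 : ∑ q : N ⧸ B, D0 (s • q).out = ∑ q : N ⧸ B, D0 q.out :=
    (MulAction.bijective s).sum_comp fun q : N ⧸ B => D0 q.out
  simp only [h1] at h2
  rw [Finset.sum_add_distrib, Finset.sum_const, Finset.card_univ, ← map_sum] at h2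
  rw [map_smul]
  have h3 : S.ρ (base (Pi.mulSingle z s)) (∑ q : N ⧸ B, D0 q.out) =
      ∑ q : N ⧸ B, D0 q.out - (Fintype.card (N ⧸ B) : ℝ) • D0 s := by
    rw [Nat.cast_smul_eq_nsmul]
    exact eq_sub_of_add_eq' h2
  rw [h3, smul_sub, smul_smul, inv_mul_cancel₀ hm.ne', one_smul]
  show _ - D0 s - _ + D0 s = 0
  abel

/-- The energy of the affine action in a sector is bounded below by the gap, at every point. -/
theorem sector_energy (hc : Coord S base B) (z : X) (s : Fin 4 → N) (h : Fin 4 → X → N)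
    (hh : ∀ i, base (h i) ∈ S.H) (hs : ∀ i, h i z = s i) (r : ℝ)
    (hgap : GapAt S (fun i => base (Pi.mulSingle z (s i))) r) (ζ : 𝓚)
    (hζ : ζ ∈ Sec S base B z) (hζ' : ζ ∈ S.Hc) :
    r ≤ ∑ i, wt' i * ‖S.ρ (base (h i)) ζ - ζ + Q S base B z (S.c (base (h i)))‖ ^ 2 := by
  have hB := hc.normal
  have hgapX := hgap (JJ B z) (fun j => base (rep B z j))
    (fun i => single_St S base B hc z (s i))
  choose u hu hdec using fun i => mulSingle_decomp z (s i) (h i) (hs i)
  obtain ⟨f0, hf0, hf0'⟩ := exists_f0 S base B hc z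
  set CC : Fin 4 → 𝓚 := fun i => S.D (Xi S base B z) (base (Pi.mulSingle z (s i))) with hCC
  set φ : 𝓚 → PiLp 2 (fun _ : Fin 4 => 𝓚) := fun x =>
    WithLp.toLp 2 fun i => S.ρ (base (Pi.mulSingle z (s i))) x - x + CC i with hφ
  set x := kh S base B z ζ + f0 with hx
  have hkS : kh S base B z ζ ∈ Sec S base B z := kh_mem S base B hB z ζ hζ
  -- the set of displacements
  have hconv : Convex ℝ (Set.range φ) := by
    rintro _ ⟨a, rfl⟩ _ ⟨b, rfl⟩ p q hp hq hpq
    refine ⟨p • a + q • b, ?_⟩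
    ext i
    simp only [hφ, PiLp.add_apply, PiLp.smul_apply, map_add, map_smul]
    have h1 : CC i = p • CC i + q • CC i := by rw [← add_smul, hpq, one_smul]
    rw [smul_add, smul_add, smul_sub, smul_sub]
    nth_rewrite 1 [h1]
    abel
  have hinv : ∀ T ∈ TW S base B z, ∀ y ∈ Set.range φ,
      WithLp.toLp 2 (fun i => T (y i)) ∈ Set.range φ := by
    rintro _ ⟨w, hw, rfl⟩ _ ⟨a, rfl⟩
    have hwSt : base w ∈ S.St (Xi S base B z) := by
      have := disp_St S base B hc z w 1 hw.1 (by rw [map_one]; exact S.H.one_mem)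
      rwa [mul_one] at this
    refine ⟨S.ρ (base w) a + S.D (Xi S base B z) (base w), ?_⟩
    ext i
    simp only [hφ, map_add, map_sub]
    have hcomm : (Pi.mulSingle z (s i)) * w = w * Pi.mulSingle z (s i) := by
      funext z'
      by_cases h : z' = z
      · subst h
        simp [hw.1]
      · simp [h]
    have h1 := S.D_mul (single_St S base B hc z (s i)) hwSt
    have h2 := S.D_mul hwSt (single_St S base B hc z (s i))
    rw [← map_mul, hcomm] at h1
    rw [← map_mul] at h2
    rw [h1] at h2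
    have h3 : S.ρ (base (Pi.mulSingle z (s i))) (S.ρ (base w) a) =
        S.ρ (base w) (S.ρ (base (Pi.mulSingle z (s i))) a) := by
      rw [← S.ρ_mul, ← S.ρ_mul, ← map_mul, ← map_mul, hcomm]
    rw [h3]
    have h4 : S.ρ (base (Pi.mulSingle z (s i))) (S.D (Xi S base B z) (base w)) =
        S.D (Xi S base B z) (base w) + S.ρ (base w) (CC i) - CC i := by
      rw [← h2]
      simp only [hCC]
      abel
    rw [h4]
    abel
  have hinv' : ∀ T ∈ TW S base B z, ∀ y ∈ closure (Set.range φ),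
      WithLp.toLp 2 (fun i => T (y i)) ∈ closure (Set.range φ) := by
    intro T hT y hy
    have hcont : Continuous fun y : PiLp 2 (fun _ : Fin 4 => 𝓚) =>
        (WithLp.toLp 2 (fun i => T (y i)) : PiLp 2 (fun _ : Fin 4 => 𝓚)) := by
      refine (PiLp.continuous_toLp 2 _).comp (continuous_pi fun i => ?_)
      exact T.continuous.comp (PiLp.continuous_apply 2 _ i)
    exact map_mem_closure (f := fun y : PiLp 2 (fun _ : Fin 4 => 𝓚) =>
      (WithLp.toLp 2 (fun i => T (y i)) : PiLp 2 (fun _ : Fin 4 => 𝓚))) hcont hy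
      fun y hy => hinv T hT y hy
  have hmem := erg_tuple (TW S base B z) (closure (Set.range φ)) isClosed_closure hconv.closure
    hinv' (φ x) (subset_closure ⟨x, rfl⟩)
  -- the gap on the closure
  have hge : ∀ y ∈ closure (Set.range φ), r * cnt2 S.H (fun j : JJ B z => base (rep B z j)) ≤
      ∑ i, wt' i * ‖y i‖ ^ 2 := by
    intro y hy
    have hclosed : IsClosed {y : PiLp 2 (fun _ : Fin 4 => 𝓚) |
        r * cnt2 S.H (fun j : JJ B z => base (rep B z j)) ≤ ∑ i, wt' i * ‖y i‖ ^ 2} := by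
      refine isClosed_le continuous_const (continuous_finsetSum _ fun i _ => ?_)
      exact continuous_const.mul (((PiLp.continuous_apply 2 _ i).norm).pow 2)
    refine closure_minimal ?_ hclosed hy
    rintro _ ⟨a, rfl⟩
    exact hgapX a
  have hfin := hge _ hmem
  -- computation of the projections
  have hcomp : ∀ i, (fixS (TW S base B z)).starProjection ((φ x) i) =
      kh S base B z (S.ρ (base (h i)) ζ - ζ + Q S base B z (S.c (base (h i)))) := by
    intro i
    have hd : (φ x) i ∈ (fixS (TB S base B z))ᗮ := by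
      rw [← Submodule.starProjection_apply_eq_zero_iff]
      show (fixS (TB S base B z)).starProjection
        (S.ρ (base (Pi.mulSingle z (s i))) x - x + CC i) = 0
      rw [map_add, map_sub, ← PB_comm S base B hB z]
      have h1 : (fixS (TB S base B z)).starProjection x = f0 := by
        rw [hx, map_add, (starProjection_apply_eq_zero_iff _).2 hkS.2,
          starProjection_eq_self_iff.2 hf0, zero_add]
      rw [h1]
      exact hf0' (s i)
    rw [Q_eq S base B hB z _ hd]
    show Q S base B z (S.ρ (base (Pi.mulSingle z (s i))) x - x + CC i) = _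
    have h2 : Q S base B z x = kh S base B z ζ := by
      rw [hx, map_add, Q_of_mem S base B z hkS]
      have h3 : Q S base B z f0 = 0 := by
        refine (Sec S base B z).starProjection_apply_eq_zero_iff.2 ?_
        have h4 : fixS (TB S base B z) ≤ (Sec S base B z)ᗮ :=
          (le_orthogonal_orthogonal _).trans (orthogonal_le inf_le_right)
        exact h4 hf0
      rw [h3, add_zero]
    have h3 : Q S base B z (CC i) = kh S base B z (Q S base B z (S.c (base (h i)))) := by
      simp only [hCC]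
      rw [hdec i]
      exact Q_disp S base B hc z (u i) (h i) (hu i) (hh i)
    rw [map_add, map_sub, ← Q_comm S base B hB z, h2, h3, kh_add, kh_sub]
    rw [hdec i, kh_act S base B hc z (u i) (h i) (hu i) ζ hζ]
  have hfin2 : r * cnt2 S.H (fun j : JJ B z => base (rep B z j)) ≤
      ∑ i, wt' i * ‖kh S base B z
        (S.ρ (base (h i)) ζ - ζ + Q S base B z (S.c (base (h i))))‖ ^ 2 := by
    refine hfin.trans (le_of_eq ?_)
    refine Finset.sum_congr rfl fun i _ => ?_
    rw [← hcomp i]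
  have hnorm : ∀ i, ‖kh S base B z
      (S.ρ (base (h i)) ζ - ζ + Q S base B z (S.c (base (h i))))‖ ^ 2 ≤
      cnt2 S.H (fun j : JJ B z => base (rep B z j)) *
        ‖S.ρ (base (h i)) ζ - ζ + Q S base B z (S.c (base (h i)))‖ ^ 2 := by
    intro i
    refine kh_norm S base B z _ ?_
    refine S.Hc.add_mem (S.Hc.sub_mem (S.Hc_inv _ (hh i) _ hζ') hζ') ?_
    exact Q_Hc S base B hc z _ (S.c_mem (hh i))
  have hpos := cnt2_pos S.H (fun j : JJ B z => base (rep B z j))
  have h5 : r * cnt2 S.H (fun j : JJ B z => base (rep B z j)) ≤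
      (∑ i, wt' i * ‖S.ρ (base (h i)) ζ - ζ + Q S base B z (S.c (base (h i)))‖ ^ 2) *
        cnt2 S.H (fun j : JJ B z => base (rep B z j)) := by
    refine hfin2.trans ?_
    rw [Finset.sum_mul]
    refine Finset.sum_le_sum fun i _ => ?_
    have := mul_le_mul_of_nonneg_left (hnorm i) (wt'_nonneg i)
    linarith
  exact le_of_mul_le_mul_right h5 hpos

end

end Pool.Agent.helper10.NA
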