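import Pool.Agent.helper10.NA.Sector2

set_option autoImplicit false
set_option linter.unusedSectionVars false

/-!
# The one-level inequality for asymptotic systems
-/

namespace Pool.Agent.helper10.NA

open Submodule
open scoped Classical

section

variable {𝓚 : Type} [NormedAddCommGroup 𝓚] [InnerProductSpace ℝ 𝓚]

theorem four_term {u : 𝓚} (R1 R2 R3 : 𝓚 ≃ₗᵢ[ℝ] 𝓚) (h11 : ∀ v, R1 (R1 v) = v)
    (h22 : ∀ v, R2 (R2 v) = v) (h12 : ∀ v, R1 (R2 v) = R3 v) (h13 : ∀ v, R1 (R3 v) = R2 v)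
    (h23 : ∀ v, R2 (R3 v) = R1 v) :
    1 / 8 * (‖R1 u - u‖ ^ 2 + ‖R2 u - u‖ ^ 2 + ‖R3 u - u‖ ^ 2) ≤ ‖u‖ ^ 2 := by
  have e1 : ∀ R : 𝓚 ≃ₗᵢ[ℝ] 𝓚, ‖R u - u‖ ^ 2 = 2 * ‖u‖ ^ 2 - 2 * inner ℝ (R u) u := by
    intro R
    rw [norm_sub_sq_real, R.norm_map]
    ring
  have e2 : 0 ≤ ‖u + R1 u + R2 u + R3 u‖ ^ 2 := sq_nonneg _
  have e3 : ‖u + R1 u + R2 u + R3 u‖ ^ 2 = 4 * ‖u‖ ^ 2 + 2 * (inner ℝ (R1 u) u +
      inner ℝ (R2 u) u + inner ℝ (R3 u) u) + 2 * (inner ℝ (R1 u) (R2 u) + inner ℝ (R1 u) (R3 u) +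
      inner ℝ (R2 u) (R3 u)) := by
    rw [← real_inner_self_eq_norm_sq, ← real_inner_self_eq_norm_sq]
    simp only [inner_add_left, inner_add_right, R1.inner_map_map, R2.inner_map_map,
      R3.inner_map_map]
    rw [real_inner_comm u (R1 u), real_inner_comm u (R2 u), real_inner_comm u (R3 u),
      real_inner_comm (R1 u) (R2 u), real_inner_comm (R1 u) (R3 u), real_inner_comm (R2 u) (R3 u)]
    ring
  have e4 : inner ℝ (R1 u) (R2 u) = inner ℝ (R3 u) u := by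
    rw [← R1.inner_map_map, h11, h12, real_inner_comm]
  have e5 : inner ℝ (R1 u) (R3 u) = inner ℝ (R2 u) u := by
    rw [← R1.inner_map_map, h11, h13, real_inner_comm]
  have e6 : inner ℝ (R2 u) (R3 u) = inner ℝ (R1 u) u := by
    rw [← R2.inner_map_map, h22, h23, real_inner_comm]
  rw [e3, e4, e5, e6] at e2
  rw [e1, e1, e1]
  linarith

theorem barycenter {C1 C2 C3 : 𝓚} (T1 T2 T3 : 𝓚 ≃ₗᵢ[ℝ] 𝓚) (h11 : T1 C1 = -C1)
    (h22 : T2 C2 = -C2) (h33 : T3 C3 = -C3) (h12 : C1 + T1 C2 = C3) (h13 : C1 + T1 C3 = C2)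
    (h21 : C2 + T2 C1 = C3) (h23 : C2 + T2 C3 = C1) (h31 : C3 + T3 C1 = C2)
    (h32 : C3 + T3 C2 = C1) :
    (T1 ((1 / 4 : ℝ) • (C1 + C2 + C3)) + C1 = (1 / 4 : ℝ) • (C1 + C2 + C3)) ∧
    (T2 ((1 / 4 : ℝ) • (C1 + C2 + C3)) + C2 = (1 / 4 : ℝ) • (C1 + C2 + C3)) ∧
    (T3 ((1 / 4 : ℝ) • (C1 + C2 + C3)) + C3 = (1 / 4 : ℝ) • (C1 + C2 + C3)) ∧
    ‖(1 / 4 : ℝ) • (C1 + C2 + C3)‖ ^ 2 = 1 / 8 * (‖C1‖ ^ 2 + ‖C2‖ ^ 2 + ‖C3‖ ^ 2) := by
  have f1 : T1 ((1 / 4 : ℝ) • (C1 + C2 + C3)) + C1 = (1 / 4 : ℝ) • (C1 + C2 + C3) := by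
    rw [map_smul, map_add, map_add, h11, eq_sub_of_add_eq' h12, eq_sub_of_add_eq' h13]
    module
  have f2 : T2 ((1 / 4 : ℝ) • (C1 + C2 + C3)) + C2 = (1 / 4 : ℝ) • (C1 + C2 + C3) := by
    rw [map_smul, map_add, map_add, h22, eq_sub_of_add_eq' h21, eq_sub_of_add_eq' h23]
    module
  have f3 : T3 ((1 / 4 : ℝ) • (C1 + C2 + C3)) + C3 = (1 / 4 : ℝ) • (C1 + C2 + C3) := by
    rw [map_smul, map_add, map_add, h33, eq_sub_of_add_eq' h31, eq_sub_of_add_eq' h32]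
    module
  refine ⟨f1, f2, f3, ?_⟩
  set q := (1 / 4 : ℝ) • (C1 + C2 + C3) with hq
  have g : ∀ (T : 𝓚 ≃ₗᵢ[ℝ] 𝓚) (C : 𝓚), T q + C = q → ‖C‖ ^ 2 = 2 * inner ℝ q C := by
    intro T C h
    have h1 : T q = q - C := eq_sub_of_add_eq h
    have h2 : ‖q - C‖ ^ 2 = ‖q‖ ^ 2 := by rw [← h1, T.norm_map]
    rw [norm_sub_sq_real] at h2
    linarith
  have g1 := g T1 C1 f1
  have g2 := g T2 C2 f2
  have g3 := g T3 C3 f3
  have g4 : inner ℝ q C1 + inner ℝ q C2 + inner ℝ q C3 = 4 * ‖q‖ ^ 2 := by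
    rw [← inner_add_right, ← inner_add_right, ← real_inner_self_eq_norm_sq]
    have : C1 + C2 + C3 = (4 : ℝ) • q := by
      rw [hq, smul_smul]
      norm_num
    rw [this, inner_smul_right]
  linarith

end

section

variable {Γ 𝓐 𝓚 N X : Type} [Group Γ] [AddCommGroup 𝓐] [NormedAddCommGroup 𝓚]
  [InnerProductSpace ℝ 𝓚] [CompleteSpace 𝓚] [Group N] [Fintype X] [DecidableEq X]

/-- The generators of a level. -/
structure Gens (S : Sys Γ 𝓐 𝓚) (base : (X → N) →* Γ) (sw : X → X) (g : Fin 4 → Γ)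
    (v : Fin 4 → X → N) : Prop where
  mem : ∀ i, g i ∈ S.H
  swap : ∀ q : X → N, g 0 * base q = base (fun z => q (sw z)) * g 0
  sw_sw : ∀ z, sw (sw z) = z
  g_base : ∀ i, i ≠ 0 → g i = base (v i)
  sq_ρ : ∀ i, ∀ x, S.ρ (g i) (S.ρ (g i) x) = x
  sq_c : ∀ i, S.c (g i) + S.ρ (g i) (S.c (g i)) = 0
  mul_ρ : ∀ i j k : Fin 4, i ≠ 0 → j ≠ 0 → k ≠ 0 → i ≠ j → i ≠ k → j ≠ k →
    ∀ x, S.ρ (g i) (S.ρ (g j) x) = S.ρ (g k) x
  mul_c : ∀ i j k : Fin 4, i ≠ 0 → j ≠ 0 → k ≠ 0 → i ≠ j → i ≠ k → j ≠ k →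
    S.c (g i) + S.ρ (g i) (S.c (g j)) = S.c (g k)

variable (S : Sys Γ 𝓐 𝓚) (base : (X → N) →* Γ) (B : Subgroup N) [Fintype (N ⧸ B)]

theorem Sec_swap (sw : X → X) (hsw : ∀ z, sw (sw z) = z) (a : Γ)
    (ha : ∀ q : X → N, a * base q = base (fun z => q (sw z)) * a) (z : X) (x : 𝓚)
    (hx : x ∈ Sec S base B (sw z)) : S.ρ a x ∈ Sec S base B z := by
  have hinv : ∀ z1 z2 : X, sw z1 = sw z2 ↔ z1 = z2 := fun z1 z2 =>
    ⟨fun h => by rw [← hsw z1, h, hsw], fun h => by rw [h]⟩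
  have hsingle : ∀ b : N, (fun z' => (Pi.mulSingle z b : X → N) (sw z')) =
      Pi.mulSingle (sw z) b := by
    intro b
    funext z'
    by_cases h : sw z' = z
    · have h' : z' = sw z := by rw [← h, hsw]
      subst h'
      rw [h]
      simp
    · have h' : z' ≠ sw z := fun h'' => h (by rw [h'', hsw])
      simp [h, h']
  have hcov : ∀ q : X → N, a * base (fun z' => q (sw z')) = base q * a := by
    intro q
    rw [ha]
    congr 2
    funext z'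
    rw [hsw]
  refine Submodule.mem_inf.2 ⟨?_, ?_⟩
  · rw [mem_fixS]
    rintro _ ⟨w, hw, rfl⟩
    have h1 : (fun z' => w (sw z')) ∈ Wz B (sw z) :=
      ⟨by show w (sw (sw z)) = 1; rw [hsw]; exact hw.1, fun z' => hw.2 _⟩
    rw [← S.ρ_mul, ← hcov, S.ρ_mul]
    rw [Sec_W S base B (sw z) _ h1 x hx]
  · rw [mem_orthogonal]
    intro f hf
    have h1 : S.ρ a (S.ρ a⁻¹ f) = f := S.ρ_inv' _ _
    rw [← h1, LinearIsometryEquiv.inner_map_map]
    refine (mem_orthogonal _ _).1 hx.2 _ ?_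
    rw [mem_fixS]
    rintro _ ⟨b, hb, rfl⟩
    have h2 : base (Pi.mulSingle (sw z) b) * a⁻¹ = a⁻¹ * base (Pi.mulSingle z b) := by
      rw [eq_inv_mul_iff_mul_eq, ← mul_assoc, ← hsingle, hcov, mul_inv_cancel_right]
    rw [← S.ρ_mul, h2, S.ρ_mul]
    rw [mem_fixS.1 hf _ ⟨b, hb, rfl⟩]

theorem Q_swap {sw : X → X} {g : Fin 4 → Γ} {v : Fin 4 → X → N}
    (hg : Gens S base sw g v) (z : X) (x : 𝓚) :
    S.ρ (g 0) (Q S base B (sw z) x) = Q S base B z (S.ρ (g 0) x) := by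
  refine map_starProjection' _ _ _ (fun y => ⟨?_, fun h => ?_⟩) x
  · exact Sec_swap S base B sw hg.sw_sw (g 0) hg.swap z y
  · have h1 : sw (sw z) = z := hg.sw_sw z
    have h2 := Sec_swap S base B sw hg.sw_sw (g 0) hg.swap (sw z) (S.ρ (g 0) y)
      (by rw [h1]; exact h)
    rwa [hg.sq_ρ] at h2

/-- One pair of coordinates. -/
theorem pair_energy (hc : Coord S base B) {sw : X → X} {g : Fin 4 → Γ} {v : Fin 4 → X → N}
    (hg : Gens S base sw g v) (z : X) (s : Fin 4 → N) (i0 : Fin 4) (hi0 : i0 ≠ 0)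
    (hv0 : v i0 z = s 0) (hv : ∀ i, i ≠ 0 → v i (sw z) = s i) (ha : g 0 * g 0 = 1) (r : ℝ)
    (hgap : GapAt S (fun i => base (Pi.mulSingle z (s i))) r) :
    r / 2 ≤ ∑ i, wt' i * (‖Q S base B z (S.c (g i))‖ ^ 2 + ‖Q S base B (sw z) (S.c (g i))‖ ^ 2) := by
  have hB := hc.normal
  -- the lifts
  set h : Fin 4 → X → N := fun i => if i = 0 then v i0 else fun z' => v i (sw z') with hh
  have hbase0 : base (h 0) = g i0 := by simp only [hh, if_pos]; exact (hg.g_base i0 hi0).symm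
  have hbase : ∀ i, i ≠ 0 → base (h i) = g 0 * g i * g 0 := by
    intro i hi
    simp only [hh, if_neg hi]
    rw [hg.g_base i hi, hg.swap, mul_assoc, ha, mul_one]
  have hmem : ∀ i, base (h i) ∈ S.H := by
    intro i
    by_cases hi : i = 0
    · subst hi
      rw [hbase0]
      exact hg.mem i0
    · rw [hbase i hi]
      exact S.H.mul_mem (S.H.mul_mem (hg.mem 0) (hg.mem i)) (hg.mem 0)
  have hhz : ∀ i, h i z = s i := by
    intro i
    by_cases hi : i = 0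
    · subst hi
      simp only [hh, if_pos]
      exact hv0
    · simp only [hh, if_neg hi]
      exact hv i hi
  -- notation
  set T : Fin 4 → 𝓚 ≃ₗᵢ[ℝ] 𝓚 := fun i => S.ρ (g i) with hT
  have hQ0 : ∀ i, i ≠ 0 → ∀ x, T i (Q S base B z x) = Q S base B z (T i x) := by
    intro i hi x
    simp only [hT]
    rw [hg.g_base i hi]
    exact Q_comm S base B hB z _ x
  have hQ1 : ∀ i, i ≠ 0 → ∀ x, T i (Q S base B (sw z) x) = Q S base B (sw z) (T i x) := by
    intro i hi x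
    simp only [hT]
    rw [hg.g_base i hi]
    exact Q_comm S base B hB (sw z) _ x
  have hswap : ∀ x, T 0 (Q S base B (sw z) x) = Q S base B z (T 0 x) :=
    Q_swap S base B hg z
  have hTT : ∀ i x, T i (T i x) = x := hg.sq_ρ
  have hswap' : ∀ x, T 0 (Q S base B z x) = Q S base B (sw z) (T 0 x) := by
    intro x
    have := hswap (T 0 x)
    rw [hTT] at this
    rw [← this, hTT]
  -- barycenters in both sectors
  have bary : ∀ P : 𝓚 →L[ℝ] 𝓚, (∀ i, i ≠ 0 → ∀ x, T i (P x) = P (T i x)) →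
      ∃ q : 𝓚, q = (1 / 4 : ℝ) • (P (S.c (g 1)) + P (S.c (g 2)) + P (S.c (g 3))) ∧
        (∀ i, i ≠ 0 → T i q + P (S.c (g i)) = q) ∧
        ‖q‖ ^ 2 = 1 / 8 * (‖P (S.c (g 1))‖ ^ 2 + ‖P (S.c (g 2))‖ ^ 2 + ‖P (S.c (g 3))‖ ^ 2) := by
    intro P hP
    have hsq : ∀ i, i ≠ 0 → T i (P (S.c (g i))) = -P (S.c (g i)) := by
      intro i hi
      rw [hP i hi, eq_neg_iff_add_eq_zero, add_comm, ← map_add]
      have := hg.sq_c i
      simp only [hT]
      rw [this, map_zero]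
    have hm : ∀ i j k : Fin 4, i ≠ 0 → j ≠ 0 → k ≠ 0 → i ≠ j → i ≠ k → j ≠ k →
        P (S.c (g i)) + T i (P (S.c (g j))) = P (S.c (g k)) := by
      intro i j k h1 h2 h3 h4 h5 h6
      rw [hP i h1, ← map_add]
      have := hg.mul_c i j k h1 h2 h3 h4 h5 h6
      simp only [hT]
      rw [this]
    obtain ⟨b1, b2, b3, b4⟩ := barycenter (T 1) (T 2) (T 3) (hsq 1 (by decide))
      (hsq 2 (by decide)) (hsq 3 (by decide))
      (hm 1 2 3 (by decide) (by decide) (by decide) (by decide) (by decide) (by decide))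
      (hm 1 3 2 (by decide) (by decide) (by decide) (by decide) (by decide) (by decide))
      (hm 2 1 3 (by decide) (by decide) (by decide) (by decide) (by decide) (by decide))
      (hm 2 3 1 (by decide) (by decide) (by decide) (by decide) (by decide) (by decide))
      (hm 3 1 2 (by decide) (by decide) (by decide) (by decide) (by decide) (by decide))
      (hm 3 2 1 (by decide) (by decide) (by decide) (by decide) (by decide) (by decide))
    refine ⟨_, rfl, ?_, b4⟩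
    intro i hi
    have hi3 : i = 1 ∨ i = 2 ∨ i = 3 := by
      revert hi
      revert i
      decide
    rcases hi3 with rfl | rfl | rfl
    · exact b1
    · exact b2
    · exact b3
  obtain ⟨q0, hq0, hq0f, hq0n⟩ := bary (Q S base B z) hQ0
  obtain ⟨q1, hq1, hq1f, hq1n⟩ := bary (Q S base B (sw z)) hQ1
  set a0 := Q S base B z (S.c (g 0)) with ha0
  set a1 := Q S base B (sw z) (S.c (g 0)) with ha1
  have hTa1 : T 0 a1 = -a0 := by
    rw [ha1, hswap, eq_neg_iff_add_eq_zero, add_comm, ha0, ← map_add]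
    simp only [hT]
    rw [hg.sq_c 0, map_zero]
  have hTa0 : T 0 a0 = -a1 := by
    have h1 : a0 = -(T 0 a1) := by rw [hTa1, neg_neg]
    rw [h1, map_neg, hTT]
  have hna : ‖a1‖ = ‖a0‖ := by
    rw [← (T 0).norm_map a1, hTa1, norm_neg]
  -- membership
  have hcH : ∀ i, S.c (g i) ∈ S.Hc := fun i => S.c_mem (hg.mem i)
  have hQH : ∀ z' i, Q S base B z' (S.c (g i)) ∈ S.Hc := fun z' i =>
    Q_Hc S base B hc z' _ (hcH i)
  have hq0H : q0 ∈ S.Hc := by
    rw [hq0]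
    exact S.Hc.smul_mem _ (S.Hc.add_mem (S.Hc.add_mem (hQH _ _) (hQH _ _)) (hQH _ _))
  have hq1H : q1 ∈ S.Hc := by
    rw [hq1]
    exact S.Hc.smul_mem _ (S.Hc.add_mem (S.Hc.add_mem (hQH _ _) (hQH _ _)) (hQH _ _))
  have hq0S : q0 ∈ Sec S base B z := by
    rw [hq0]
    exact Submodule.smul_mem _ _ (Submodule.add_mem _ (Submodule.add_mem _ (Q_mem S base B z _)
      (Q_mem S base B z _)) (Q_mem S base B z _))
  have hq1S : q1 ∈ Sec S base B (sw z) := by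
    rw [hq1]
    exact Submodule.smul_mem _ _ (Submodule.add_mem _ (Submodule.add_mem _ (Q_mem S base B _ _)
      (Q_mem S base B _ _)) (Q_mem S base B _ _))
  set q' := T 0 q1 + a0 with hq'
  have hq'H : q' ∈ S.Hc := S.Hc.add_mem (S.Hc_inv _ (hg.mem 0) _ hq1H) (hQH _ _)
  have hq'S : q' ∈ Sec S base B z :=
    Submodule.add_mem _ (Sec_swap S base B sw hg.sw_sw (g 0) hg.swap z q1 hq1S)
      (Q_mem S base B z _)
  set u := (1 / 2 : ℝ) • (q0 - q') with hu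
  set ζ := (1 / 2 : ℝ) • (q' + q0) with hζ
  have hζ1 : ζ = q' + u := by rw [hζ, hu]; module
  have hζ0 : ζ = q0 - u := by rw [hζ, hu]; module
  have hζH : ζ ∈ S.Hc := S.Hc.smul_mem _ (S.Hc.add_mem hq'H hq0H)
  have hζS : ζ ∈ Sec S base B z := Submodule.smul_mem _ _ (Submodule.add_mem _ hq'S hq0S)
  have hmain := sector_energy S base B hc z s h hmem hhz r hgap ζ hζS hζH
  -- the isometries R
  set R : Fin 4 → 𝓚 ≃ₗᵢ[ℝ] 𝓚 := fun i => S.ρ (g 0 * g i * g 0) with hR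
  have hRapp : ∀ i x, R i x = T 0 (T i (T 0 x)) := by
    intro i x
    simp only [hR, hT]
    rw [S.ρ_mul, S.ρ_mul]
  have hRR : ∀ i x, R i (R i x) = x := by
    intro i x
    rw [hRapp, hRapp, hTT 0, hTT i, hTT 0]
  have hRm : ∀ i j k : Fin 4, i ≠ 0 → j ≠ 0 → k ≠ 0 → i ≠ j → i ≠ k → j ≠ k →
      ∀ x, R i (R j x) = R k x := by
    intro i j k h1 h2 h3 h4 h5 h6 x
    rw [hRapp, hRapp, hRapp, hTT 0]
    have := hg.mul_ρ i j k h1 h2 h3 h4 h5 h6 (T 0 x)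
    simp only [hT] at this ⊢
    rw [this]
  -- the terms
  have t0 : S.ρ (base (h 0)) ζ - ζ + Q S base B z (S.c (base (h 0))) = u - T i0 u := by
    rw [hbase0]
    have h1 := hq0f i0 hi0
    have h2 : Q S base B z (S.c (g i0)) = q0 - T i0 q0 := eq_sub_of_add_eq' h1
    rw [h2, hζ0]
    show T i0 (q0 - u) - (q0 - u) + (q0 - T i0 q0) = _
    rw [map_sub]
    abel
  have ti : ∀ i, i ≠ 0 →
      S.ρ (base (h i)) ζ - ζ + Q S base B z (S.c (base (h i))) = R i u - u := by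
    intro i hi
    rw [hbase i hi]
    have hc1 : S.c (g 0 * g i * g 0) = S.c (g 0) + T 0 (S.c (g i)) + T 0 (T i (S.c (g 0))) := by
      rw [S.c_mul (S.H.mul_mem (hg.mem 0) (hg.mem i)) (hg.mem 0), S.c_mul (hg.mem 0) (hg.mem i),
        S.ρ_mul]
    have hc2 : Q S base B z (S.c (g 0 * g i * g 0)) =
        a0 + T 0 (Q S base B (sw z) (S.c (g i))) + T 0 (T i a1) := by
      rw [hc1, map_add, map_add, hswap, ha1, hQ1 i hi, hswap]
    have hfix : R i q' + Q S base B z (S.c (g 0 * g i * g 0)) = q' := by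
      rw [hc2, hRapp, hq', map_add, hTT, hTa0]
      rw [map_add, map_neg, map_add, map_neg]
      have h1 := hq1f i hi
      have h2 : T 0 q1 = T 0 (T i q1) + T 0 (Q S base B (sw z) (S.c (g i))) := by
        rw [← map_add, h1]
      rw [h2]
      abel
    have h2 : Q S base B z (S.c (g 0 * g i * g 0)) = q' - R i q' := eq_sub_of_add_eq' hfix
    rw [h2, hζ1]
    show R i (q' + u) - (q' + u) + (q' - R i q') = _
    rw [map_add]
    abel
  rw [Fin.sum_univ_four] at hmain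
  rw [t0, ti 1 (by decide), ti 2 (by decide), ti 3 (by decide)] at hmain
  have hw0 : wt' 0 = 1 / 4 := by simp [wt']
  have hw1 : wt' 1 = 1 / 8 := by simp [wt']
  have hw2 : wt' 2 = 1 / 8 := by simp [wt']
  have hw3 : wt' 3 = 1 / 8 := by simp [wt']
  rw [hw0, hw1, hw2, hw3] at hmain
  have k1 := four_term (u := u) (R 1) (R 2) (R 3) (hRR 1) (hRR 2)
    (hRm 1 2 3 (by decide) (by decide) (by decide) (by decide) (by decide) (by decide))
    (hRm 1 3 2 (by decide) (by decide) (by decide) (by decide) (by decide) (by decide))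
    (hRm 2 3 1 (by decide) (by decide) (by decide) (by decide) (by decide) (by decide))
  have k0 : ‖u - T i0 u‖ ^ 2 ≤ 4 * ‖u‖ ^ 2 := by
    have h1 : ‖u - T i0 u‖ ≤ 2 * ‖u‖ := by
      refine (norm_sub_le _ _).trans ?_
      rw [(T i0).norm_map]
      linarith
    have h2 := pow_le_pow_left₀ (norm_nonneg _) h1 2
    linarith
  have k2 : r ≤ 2 * ‖u‖ ^ 2 := by linarith
  have k3 : ‖u‖ ^ 2 = 1 / 4 * ‖q0 - q'‖ ^ 2 := by
    rw [hu, norm_smul, Real.norm_of_nonneg (by norm_num : (0 : ℝ) ≤ 1 / 2)]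
    ring
  have k4 : ‖q0 - q'‖ ≤ ‖q0‖ + ‖q1‖ + ‖a0‖ := by
    rw [hq', ← sub_sub]
    refine (norm_sub_le _ _).trans ?_
    have := norm_sub_le q0 (T 0 q1)
    rw [(T 0).norm_map] at this
    linarith
  have k5 : ‖q0 - q'‖ ^ 2 ≤ 4 * (‖q0‖ ^ 2 + ‖q1‖ ^ 2 + 1 / 2 * ‖a0‖ ^ 2) := by
    have h1 := pow_le_pow_left₀ (norm_nonneg _) k4 2
    refine h1.trans ?_
    nlinarith [sq_nonneg (‖q0‖ - ‖q1‖), sq_nonneg (‖q0‖ - ‖a0‖ / 2), sq_nonneg (‖q1‖ - ‖a0‖ / 2)]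
  rw [Fin.sum_univ_four, hw0, hw1, hw2, hw3, ← ha0, ← ha1, hna]
  linarith

/-- Bessel's inequality for the sectors. -/
theorem bessel (x : 𝓚) (F : Finset X) :
    ∑ z ∈ F, ‖Q S base B z x‖ ^ 2 ≤ ‖x‖ ^ 2 := by
  have horth : ∀ z z' : X, z ≠ z' → inner ℝ (Q S base B z x) (Q S base B z' x) = 0 := by
    intro z z' hz
    have h1 : Q S base B z x ∈ fixS (TB S base B z') := by
      rw [mem_fixS]
      rintro _ ⟨b, hb, rfl⟩
      refine Sec_W S base B z _ ⟨?_, fun z'' => ?_⟩ _ (Q_mem S base B z x)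
      · simp [hz]
      · by_cases h : z'' = z'
        · subst h
          simpa using hb
        · simp [h, B.one_mem]
    exact (mem_orthogonal _ _).1 (Q_mem S base B z' x).2 _ h1
  have hself : ∀ z, inner ℝ x (Q S base B z x) = ‖Q S base B z x‖ ^ 2 := by
    intro z
    have h1 : inner ℝ (x - Q S base B z x) (Q S base B z x) = 0 := by
      rw [real_inner_comm]
      exact (mem_orthogonal _ _).1
        ((Sec S base B z).sub_starProjection_mem_orthogonal x) _ (Q_mem S base B z x)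
    rw [inner_sub_left, real_inner_self_eq_norm_sq] at h1
    linarith
  have h0 : 0 ≤ ‖x - ∑ z ∈ F, Q S base B z x‖ ^ 2 := sq_nonneg _
  rw [norm_sub_sq_real, inner_sum] at h0
  simp only [hself] at h0
  have h1 : ‖∑ z ∈ F, Q S base B z x‖ ^ 2 = ∑ z ∈ F, ‖Q S base B z x‖ ^ 2 := by
    rw [← real_inner_self_eq_norm_sq, sum_inner]
    refine Finset.sum_congr rfl fun z hz => ?_
    rw [inner_sum, Finset.sum_eq_single z]
    · exact real_inner_self_eq_norm_sq _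
    · intro z' _ hz'
      exact horth z z' (Ne.symm hz')
    · intro h
      exact absurd hz h
  rw [h1] at h0
  linarith

end

end Pool.Agent.helper10.NA
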